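import Pool.Agent.H735X.Stm
import Pool.Agent.H757_X15.DN.Asy

set_option autoImplicit false
set_option linter.unusedVariables false

open scoped Classical

namespace Pool.Agent.H735X

open Finset
open Pool.Agent.Y703.CX (sm la jj XX eL zz kk S_SIE)
open Pool.Agent.Y703.CQ (nr sg prs HB ext S_EQ Sml)
open Pool.Agent.H757_X15.DD
open Pool.Agent.H757_X15.DD.LA4

namespace JAsy

open Filter
open Pool.Agent.Y703.CX (eL_tendsto logX_eq rpow_eL HH NN ev_eL one_le_exp
  HH_ge HH_le HH_pos kk_ge kk_le X_pos one_add_log lin_le kap zz_ge zz_pos kap_nonneg kap_pow kap_le)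
open Pool.Agent.Y703.CQ (sml_of sml_add sml_rpow)

/-- a finite sum of small functions is small -/
theorem sml_sum {ι : Type} (s : Finset ι) (E : ι → ℕ → ℝ) (h : ∀ i ∈ s, Sml 0 (E i)) :
    Sml 0 fun X => ∑ i ∈ s, E i X := by
  induction s using Finset.induction_on with
  | empty =>
    intro δ hδ
    refine Filter.Eventually.of_forall fun X => ?_
    simp only [sum_empty]
    positivity
  | insert a s ha ih =>
    have h1 := sml_add (h a (mem_insert_self _ _)) (ih fun i hi => h i (mem_insert_of_mem hi))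
    have e : (fun X => ∑ i ∈ insert a s, E i X) = fun X => E a X + ∑ i ∈ s, E i X := by
      funext X
      rw [sum_insert ha]
    rw [e]
    exact h1

/-- a function below a small one is small -/
theorem sml_mono {E F : ℕ → ℝ} (hF : Sml 0 F) (h : ∀ X, E X ≤ F X) : Sml 0 E := by
  intro δ hδ
  filter_upwards [hF δ hδ] with X h1
  exact (h X).trans h1

theorem sml_zero : Sml 0 fun _ => (0 : ℝ) := by
  intro δ hδ
  refine Filter.Eventually.of_forall fun X => ?_
  positivity

/-- the main error term -/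
theorem sml_main6 {C : ℝ} (hC : 1 ≤ C) : Sml 0 fun X => (60 * (NN X : ℝ) + 60) ^ kk X *
    (3 ^ (6 * kk X ^ 2) * kap C X) * (X * (1 + Real.log X)) := by
  apply sml_of (C := 4 * C) (a := 1) one_pos
  filter_upwards [ev_eL 11000] with X hX
  set l := eL X with hl
  have h0 : 0 < eL X := by linarith
  have h1 : 1 ≤ eL X := by linarith
  have hX0 : (0 : ℝ) ≤ X := Nat.cast_nonneg _
  have hN : 60 * (NN X : ℝ) + 60 ≤ Real.exp (5 * l) := by
    have h2 : (NN X : ℝ) ≤ HH X * Real.log X + 1 := by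
      unfold Pool.Agent.Y703.CX.NN
      push_cast
      have := Nat.floor_le (a := (HH X : ℝ) * Real.log X)
        (mul_nonneg (Nat.cast_nonneg _) (Real.log_natCast_nonneg X))
      linarith
    have h3 : (HH X : ℝ) * Real.log X ≤ 2 * Real.exp (4 * l) := by
      rw [logX_eq h0]
      calc (HH X : ℝ) * Real.exp (eL X) ≤ 2 * Real.exp (3 * eL X) * Real.exp (eL X) :=
            mul_le_mul_of_nonneg_right (HH_le h0) (Real.exp_pos _).le
        _ = 2 * Real.exp (4 * l) := by
            rw [mul_assoc, ← Real.exp_add]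
            congr 2
            rw [hl]
            ring
    have h4 : 1 ≤ Real.exp (4 * l) := one_le_exp (by linarith)
    have h5 : (240 : ℝ) ≤ Real.exp l := by
      have := Real.add_one_le_exp l
      linarith
    have h6 : Real.exp (5 * l) = Real.exp (4 * l) * Real.exp l := by
      rw [← Real.exp_add]; congr 1; ring
    rw [h6]
    nlinarith
  have hkk := kk_le h1
  have hkk0 : (0 : ℝ) ≤ kk X := Nat.cast_nonneg _
  have hA : (60 * (NN X : ℝ) + 60) ^ kk X ≤ Real.exp (55 * l ^ 2) := by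
    calc (60 * (NN X : ℝ) + 60) ^ kk X ≤ (Real.exp (5 * l)) ^ kk X := by gcongr
      _ = Real.exp (kk X * (5 * l)) := (Real.exp_nat_mul _ _).symm
      _ ≤ Real.exp (55 * l ^ 2) := by
          apply Real.exp_le_exp.2
          nlinarith
  have hB : (3 : ℝ) ^ (6 * kk X ^ 2) ≤ Real.exp (800 * l ^ 2) := by
    have e : (3 : ℝ) ^ (6 * kk X ^ 2) = Real.exp ((6 * (kk X : ℝ) ^ 2) * Real.log 3) := by
      rw [mul_comm (6 * (kk X : ℝ) ^ 2) (Real.log 3), Real.exp_mul, Real.exp_log (by norm_num)]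
      rw [← Real.rpow_natCast]
      congr 1
      push_cast
      ring
    rw [e]
    apply Real.exp_le_exp.2
    have h2 : Real.log 3 ≤ 1.1 := by
      have h3 : (3 : ℝ) ≤ Real.exp 1.1 := by
        have h4 : (2.7182818283 : ℝ) < Real.exp 1 := Real.exp_one_gt_d9
        have h5 : (1.105 : ℝ) ≤ Real.exp 0.1 := by
          have := Real.quadratic_le_exp_of_nonneg (x := 0.1) (by norm_num)
          norm_num at this ⊢
          linarith
        have h6 : Real.exp 1.1 = Real.exp 1 * Real.exp 0.1 := by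
          rw [← Real.exp_add]; norm_num
        rw [h6]
        nlinarith
      calc Real.log 3 ≤ Real.log (Real.exp 1.1) := Real.log_le_log (by norm_num) h3
        _ = 1.1 := Real.log_exp _
    have h3 : (kk X : ℝ) ^ 2 ≤ 121 * l ^ 2 := by nlinarith
    have h4 : 0 ≤ (kk X : ℝ) ^ 2 := sq_nonneg _
    nlinarith [sq_nonneg l]
  have hK := kap_le hC h1
  have hLg := one_add_log h0
  have hmain : (60 * (NN X : ℝ) + 60) ^ kk X * (3 ^ (6 * kk X ^ 2) * kap C X) *
      (X * (1 + Real.log X)) ≤ Real.exp (55 * l ^ 2) * (Real.exp (800 * l ^ 2) *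
        (2 * C * Real.exp (-l ^ 3 / 12))) * (X * (2 * Real.exp l)) := by
    have := kap_nonneg hC X
    have : 0 ≤ 1 + Real.log X := by
      have := Real.log_natCast_nonneg X
      linarith
    gcongr
  refine hmain.trans ?_
  have e : Real.exp (55 * l ^ 2) * (Real.exp (800 * l ^ 2) *
        (2 * C * Real.exp (-l ^ 3 / 12))) * (X * (2 * Real.exp l)) =
      4 * C * (X * Real.exp (55 * l ^ 2 + 800 * l ^ 2 + -l ^ 3 / 12 + l)) := by
    rw [Real.exp_add, Real.exp_add, Real.exp_add]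
    ring
  rw [e]
  have h9 : 55 * l ^ 2 + 800 * l ^ 2 + -l ^ 3 / 12 + l ≤ -1 * l := by
    have h10 : 11000 * l ^ 2 ≤ l ^ 3 := by
      have : l ^ 3 = l * l ^ 2 := by ring
      rw [this]
      exact mul_le_mul_of_nonneg_right hX (sq_nonneg l)
    nlinarith
  have h11 := Real.exp_le_exp.2 h9
  have hC0 : (0 : ℝ) ≤ 4 * C := by linarith
  gcongr

variable {M : ℕ}

/-- the sets with degenerate labels for the mask `i` -/
noncomputable def B1 (V : Fin M → Finset ℕ) (X : ℕ) (i : Fin M) : Finset (Finset ℕ) :=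
  (SS X).filter fun S => ¬ Nd (symmDiff (sm (zz X) S) (V i)) (la (zz X) S)

/-- the sets whose labels separate the masks `i` and `j` badly -/
noncomputable def B2 (R : ℕ) (V : Fin M → Finset ℕ) (X : ℕ) (i j : Fin M) : Finset (Finset ℕ) :=
  (SS X).filter fun S => i ≠ j ∧ ((la (zz X) S).filter fun p =>
    ∑ u ∈ symmDiff (V i) (V j), nr p u ≠ 0).card ≤ R * ((sm (zz X) S ∪ Wa V).card + 1)

noncomputable def B3 (R : ℕ) (V : Fin M → Finset ℕ) (X : ℕ) (i j : Fin M) : Finset (Finset ℕ) :=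
  (SS X).filter fun S => ((la (zz X) S).filter fun p =>
    aa p + ∑ u ∈ symmDiff (V i) (V j), nr p u ≠ 0).card ≤ R * ((sm (zz X) S ∪ Wa V).card + 1)

/-- the three families of exceptional sets -/
noncomputable def BB (R : ℕ) (V : Fin M → Finset ℕ) (X : ℕ) : Finset (Finset ℕ) :=
  (univ.biUnion fun i : Fin M => B1 V X i) ∪
  (univ.biUnion fun i : Fin M => univ.biUnion fun j : Fin M => B2 R V X i j) ∪
  (univ.biUnion fun i : Fin M => univ.biUnion fun j : Fin M => B3 R V X i j)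

theorem mul_bd (R a b c : ℕ) (h : c ≤ a + b) : R * (c + 1) ≤ (R + b) * (a + (R + b) + 1) := by
  calc R * (c + 1) ≤ R * (a + b + 1) := by gcongr
    _ ≤ (R + b) * (a + (R + b) + 1) := by
        apply Nat.mul_le_mul (by omega) (by omega)

theorem sml_B1 (hb : S_JBAD) (h1 : S_BAD) (h2 : S_SIE) (h3 : S_HAL) (h4 : CntP)
    (V : Fin M → Finset ℕ) (hV : ∀ i, OkV (V i)) (i : Fin M) :
    Sml 0 fun X => ((B1 V X i).card : ℝ) := hb h1 h2 h3 h4 (V i) (hV i)

theorem symm_prime (V : Fin M → Finset ℕ) (hV : ∀ i, OkV (V i)) (i j : Fin M) :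
    ∀ u ∈ symmDiff (V i) (V j), u.Prime ∧ 7 ≤ u := by
  intro u hu
  rw [mem_symmDiff] at hu
  rcases hu with ⟨h, _⟩ | ⟨h, _⟩
  · exact (hV i).1 u h
  · exact (hV j).1 u h

theorem sml_B2 (hf : S_JFEW) (h2 : S_SIE) (h3 : S_HAL) (h4 : S_MER) (R : ℕ)
    (V : Fin M → Finset ℕ) (hV : ∀ i, OkV (V i)) (hI : Function.Injective V) (i j : Fin M) :
    Sml 0 fun X => ((B2 R V X i j).card : ℝ) := by
  by_cases hij : i = j
  · refine sml_mono sml_zero fun X => ?_
    have : B2 R V X i j = ∅ := by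
      unfold B2
      rw [filter_eq_empty_iff]
      intro S _ h
      exact h.1 hij
    rw [this]
    simp
  · have hne : (symmDiff (V i) (V j)).Nonempty := by
      rw [nonempty_iff_ne_empty]
      intro h
      exact hij (hI (symmDiff_eq_bot.1 h))
    refine sml_mono (hf h2 h3 h4 (symmDiff (V i) (V j)) 0 (R + (Wa V).card) (Or.inl hne)
      (symm_prime V hV i j)) fun X => ?_
    have : B2 R V X i j ⊆ (SS X).filter fun S => ((la (zz X) S).filter fun p =>
      (0 : ZMod 2) * aa p + ∑ u ∈ symmDiff (V i) (V j), nr p u ≠ 0).card ≤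
        (R + (Wa V).card) * ((sm (zz X) S).card + (R + (Wa V).card) + 1) := by
      intro S hS
      unfold B2 at hS
      rw [mem_filter] at hS ⊢
      refine ⟨hS.1, ?_⟩
      simp only [zero_mul, zero_add]
      exact hS.2.2.trans (mul_bd _ _ _ _ (card_union_le _ _))
    exact_mod_cast card_le_card this

theorem sml_B3 (hf : S_JFEW) (h2 : S_SIE) (h3 : S_HAL) (h4 : S_MER) (R : ℕ)
    (V : Fin M → Finset ℕ) (hV : ∀ i, OkV (V i)) (i j : Fin M) :
    Sml 0 fun X => ((B3 R V X i j).card : ℝ) := by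
  refine sml_mono (hf h2 h3 h4 (symmDiff (V i) (V j)) 1 (R + (Wa V).card) (Or.inr one_ne_zero)
      (symm_prime V hV i j)) fun X => ?_
  have : B3 R V X i j ⊆ (SS X).filter fun S => ((la (zz X) S).filter fun p =>
      (1 : ZMod 2) * aa p + ∑ u ∈ symmDiff (V i) (V j), nr p u ≠ 0).card ≤
        (R + (Wa V).card) * ((sm (zz X) S).card + (R + (Wa V).card) + 1) := by
    intro S hS
    unfold B3 at hS
    rw [mem_filter] at hS ⊢
    refine ⟨hS.1, ?_⟩
    simp only [one_mul]
    exact hS.2.trans (mul_bd _ _ _ _ (card_union_le _ _))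
  exact_mod_cast card_le_card this

theorem sml_BB (hb : S_JBAD) (hf : S_JFEW) (h1 : S_BAD) (h2 : S_SIE) (h3 : S_HAL) (h4 : CntP)
    (h5 : S_MER) (R : ℕ)
    (V : Fin M → Finset ℕ) (hV : ∀ i, OkV (V i)) (hI : Function.Injective V) :
    Sml 0 fun X => ((BB R V X).card : ℝ) := by
  have s1 := sml_sum univ _ fun i _ => sml_B1 hb h1 h2 h3 h4 V hV i
  have s2 := sml_sum univ _ fun i _ => sml_sum univ _ fun j _ => sml_B2 hf h2 h3 h5 R V hV hI i j
  have s3 := sml_sum univ _ fun i _ => sml_sum univ _ fun j _ => sml_B3 hf h2 h3 h5 R V hV i j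
  refine sml_mono (sml_add (sml_add s1 s2) s3) fun X => ?_
  have g1 : (univ.biUnion fun i : Fin M => B1 V X i).card ≤ ∑ i, (B1 V X i).card := card_biUnion_le
  have g2 : (univ.biUnion fun i : Fin M => univ.biUnion fun j : Fin M => B2 R V X i j).card ≤
      ∑ i, ∑ j, (B2 R V X i j).card :=
    card_biUnion_le.trans (sum_le_sum fun i _ => card_biUnion_le)
  have g3 : (univ.biUnion fun i : Fin M => univ.biUnion fun j : Fin M => B3 R V X i j).card ≤
      ∑ i, ∑ j, (B3 R V X i j).card :=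
    card_biUnion_le.trans (sum_le_sum fun i _ => card_biUnion_le)
  have g : (BB R V X).card ≤ (∑ i, (B1 V X i).card + ∑ i, ∑ j, (B2 R V X i j).card) +
      ∑ i, ∑ j, (B3 R V X i j).card := by
    unfold BB
    exact (card_union_le _ _).trans (Nat.add_le_add ((card_union_le _ _).trans
      (Nat.add_le_add g1 g2)) g3)
  exact_mod_cast g

/-- the sets outside the regular part -/
theorem out_sub (R : ℕ) (V : Fin M → Finset ℕ) (X : ℕ) :
    SS X \ ((R1 X (zz X) (HH X) (kk X)).filter fun S => NdJ R V (sm (zz X) S) (la (zz X) S)) ⊆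
      ((((SS X).filter fun S => kk X < S.card) ∪
      ((SS X).filter fun S => S.card ≤ kk X ∧
        X < (∏ p ∈ sm (zz X) S, p) * ∏ p ∈ la (zz X) S, XX (HH X) (jj (HH X) p))) ∪
      ((SS X).filter fun S => ¬ Set.InjOn (jj (HH X)) (la (zz X) S : Set ℕ))) ∪
      BB R V X := by
  intro S hS
  rw [Finset.mem_sdiff, Finset.mem_filter] at hS
  obtain ⟨h1, h2⟩ := hS
  by_contra hc
  rw [mem_union, mem_union, mem_union, mem_filter, mem_filter, mem_filter] at hc
  push Not at hc
  obtain ⟨⟨⟨c1, c2⟩, c3⟩, c4⟩ := hc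
  have d1 : S.card ≤ kk X := c1 h1
  have d2 := c2 h1 d1
  have d3 := c3 h1
  unfold BB at c4
  rw [mem_union, mem_union, mem_biUnion, mem_biUnion, mem_biUnion] at c4
  push Not at c4
  obtain ⟨⟨e1, e2⟩, e3⟩ := c4
  apply h2
  constructor
  · unfold R1
    rw [mem_filter]
    exact ⟨h1, d3, d1, d2⟩
  refine ⟨?_, ?_, ?_⟩
  · intro i
    by_contra hn
    exact e1 i (mem_univ _) (mem_filter.2 ⟨h1, hn⟩)
  · intro i j hij
    by_contra hn
    exact e2 i (mem_univ _) (mem_biUnion.2 ⟨j, mem_univ _, mem_filter.2 ⟨h1, hij, not_lt.1 hn⟩⟩)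
  · intro i j
    by_contra hn
    exact e3 i (mem_univ _) (mem_biUnion.2 ⟨j, mem_univ _, mem_filter.2 ⟨h1, not_lt.1 hn⟩⟩)

theorem ev_kk (n : ℕ) : ∀ᶠ X : ℕ in atTop, n ≤ kk X := by
  filter_upwards [ev_eL n, ev_eL 0] with X h1 h2
  have h3 := kk_ge X
  have : (n : ℝ) ≤ kk X := by linarith
  exact_mod_cast this

theorem ev_zz (n : ℕ) : ∀ᶠ X : ℕ in atTop, n ≤ zz X := by
  filter_upwards [ev_eL (2 * n), ev_eL 1] with X h1 h2
  have h3 := zz_ge h2
  have h4 := Real.add_one_le_exp ((eL X) ^ 3)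
  have h5 : eL X ≤ (eL X) ^ 3 := le_self_pow₀ h2 (by norm_num)
  have : (n : ℝ) ≤ zz X := by linarith
  exact_mod_cast this

end JAsy

open JAsy in
theorem t_JASY : S_JASY := by
  intro h1 h3 h4 h5 hK hC hB hJB hJF hLo hS hH hM M V hV hI
  obtain ⟨c, X₀, hc, hlow⟩ := hLo
  rw [Metric.tendsto_nhds]
  intro ε hε
  obtain ⟨R, C, hC1, hkey⟩ := hK h1 h3 h4 h5 M (ε / 2) (by linarith)
  have s1 := sml_many hC
  have s2 := sml_cut hC
  have s3 := sml_coll hC
  have s4 := sml_BB hJB hJF hB hS hH hC hM R V hV hI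
  have s6 := sml_main6 hC1
  have s := Pool.Agent.Y703.CQ.sml_add (Pool.Agent.Y703.CQ.sml_add
    (Pool.Agent.Y703.CQ.sml_add s1 s2) s3) s4
  set A : ℝ := 1 + |c1 ^ M| with hA
  have hA1 : 1 ≤ A := by
    have := abs_nonneg (c1 ^ M)
    linarith
  have hδ : (0 : ℝ) < c * ε / (8 * A) := by positivity
  have hδ' : (0 : ℝ) < c * ε / 8 := by positivity
  filter_upwards [s (c * ε / (8 * A)) hδ, s6 (c * ε / 8) hδ', Pool.Agent.Y703.CX.ev_eL 1,
    Filter.eventually_ge_atTop X₀, ev_kk (Wa V).card, ev_zz ((Wa V).sup id)] with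
    X hX hX6 hl hX0 hk hz
  have hl0 : 0 < eL X := by linarith
  have hlo := hlow X hX0
  rw [neg_zero, zero_mul, Real.exp_zero, mul_one] at hX hX6
  have hXp := Pool.Agent.Y703.CX.X_pos hl0
  have hXp' : (0 : ℝ) < X := by exact_mod_cast hXp
  have hSpos : (0 : ℝ) < ((SS X).card : ℝ) := by
    refine lt_of_lt_of_le ?_ hlo
    positivity
  have hN : (Pool.Agent.Y703.CX.HH X : ℝ) * Real.log X < Pool.Agent.Y703.CX.NN X := by
    unfold Pool.Agent.Y703.CX.NN
    push_cast
    exact Nat.lt_floor_add_one _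
  have hz' : ∀ u ∈ Wa V, u ≤ zz X := fun u hu => (le_sup (f := id) hu).trans hz
  have hmain := hkey V X (zz X) (Pool.Agent.Y703.CX.HH X) (kk X) (Pool.Agent.Y703.CX.NN X)
    (Pool.Agent.Y703.CX.kap C X) hV hz' hk hXp (Pool.Agent.Y703.CX.HH_pos hl0)
    (Pool.Agent.Y703.CX.zz_pos hl)
    (Pool.Agent.Y703.CX.kap_nonneg hC1 X) (Pool.Agent.Y703.CX.kap_pow hC1 hl) hN
  set T := (R1 X (zz X) (Pool.Agent.Y703.CX.HH X) (kk X)).filter
    fun S => NdJ R V (sm (zz X) S) (la (zz X) S) with hT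
  have hTG : (R1 X (zz X) (Pool.Agent.Y703.CX.HH X) (kk X)).filter
      (fun S => NdJ R V (sm (zz X) S) (la (zz X) S) ∧ GdJ V S) = T.filter (GdJ V) := by
    rw [hT, filter_filter]
  rw [hTG] at hmain
  have hTS : T ⊆ SS X := (filter_subset _ _).trans (filter_subset _ _)
  have hRS : ((R1 X (zz X) (Pool.Agent.Y703.CX.HH X) (kk X)).card : ℝ) ≤ ((SS X).card : ℝ) := by
    exact_mod_cast card_le_card (filter_subset _ _)
  have hcmp := cmp (GdJ V) T (SS X) hTS (c1 ^ M)
  have hout : ((SS X \ T).card : ℝ) ≤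
      ((((SS X).filter fun S => kk X < S.card).card : ℝ) +
      (((SS X).filter fun S => S.card ≤ kk X ∧
        X < (∏ p ∈ sm (zz X) S, p) * ∏ p ∈ la (zz X) S, XX (Pool.Agent.Y703.CX.HH X)
          (jj (Pool.Agent.Y703.CX.HH X) p)).card : ℝ) +
      (((SS X).filter fun S => ¬ Set.InjOn (jj (Pool.Agent.Y703.CX.HH X))
        (la (zz X) S : Set ℕ)).card : ℝ)) +
      ((BB R V X).card : ℝ) := by
    have g := card_le_card (JAsy.out_sub R V X)
    rw [← hT] at g
    have g2 := (g.trans (card_union_le _ _)).trans (Nat.add_le_add_right ((card_union_le _ _).trans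
      (Nat.add_le_add_right (card_union_le _ _) _)) _)
    exact_mod_cast g2
  have hout2 : A * ((SS X \ T).card : ℝ) ≤ c * ε / 8 * X := by
    have h6 : ((SS X \ T).card : ℝ) ≤ c * ε / (8 * A) * X := hout.trans hX
    calc A * ((SS X \ T).card : ℝ) ≤ A * (c * ε / (8 * A) * X) :=
          mul_le_mul_of_nonneg_left h6 (by linarith)
      _ = c * ε / 8 * X := by
          field_simp
  have htot : |(((SS X).filter (GdJ V)).card : ℝ) - c1 ^ M * ((SS X).card : ℝ)| ≤
      ε / 2 * ((SS X).card : ℝ) + c * ε / 4 * X := by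
    have g1 : ε / 2 * ((R1 X (zz X) (Pool.Agent.Y703.CX.HH X) (kk X)).card : ℝ) ≤
        ε / 2 * ((SS X).card : ℝ) := mul_le_mul_of_nonneg_left hRS (by positivity)
    linarith
  rw [Real.dist_eq]
  have e3 : (((SS X).filter (GdJ V)).card : ℝ) / ((SS X).card : ℝ) - c1 ^ M =
      ((((SS X).filter (GdJ V)).card : ℝ) - c1 ^ M * ((SS X).card : ℝ)) /
        ((SS X).card : ℝ) := by
    field_simp
  rw [e3, abs_div, abs_of_pos hSpos, div_lt_iff₀ hSpos]
  refine lt_of_le_of_lt htot ?_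
  have g2 : c * ε / 4 * X ≤ ε / 4 * ((SS X).card : ℝ) := by
    calc c * ε / 4 * X = ε / 4 * (c * X) := by ring
      _ ≤ _ := mul_le_mul_of_nonneg_left hlo (by linarith)
  have g4 : 0 < ε * ((SS X).card : ℝ) := by positivity
  linarith

end Pool.Agent.H735X
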