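import Pool.Agent.H735X.Sym
import Pool.Agent.Helper449_X15.BAD
import Pool.Agent.H757_X15.DN.Asy

/-
Project XJ (helper735, MP_696deb_nt, weight 100): the joint law for several quadratic twists of X_0(15).
-/

set_option autoImplicit false
set_option linter.unusedVariables false

open scoped Classical

namespace Pool.Agent.H735X

open Finset
open Pool.Agent.Y703.CX (sm la jj XX eL zz kk S_SIE)
open Pool.Agent.Y703.CQ (nr sg prs HB ext S_EQ Sml)
open Pool.Agent.H757_X15.DD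
open Pool.Agent.H757_X15.DD.LA4

namespace JBad

open Pool.Agent.Y703.CX (eL_tendsto logX_eq ev_eL X_pos zz_ge)
open Pool.Agent.Y703.CQ (sml_add sml_rpow)

theorem sm_mono {z z' : ℕ} (h : z ≤ z') (S : Finset ℕ) : sm z S ⊆ sm z' S := by
  intro p hp
  unfold sm at hp ⊢
  rw [mem_filter] at hp ⊢
  exact ⟨hp.1, hp.2.trans h⟩

theorem la_mono {z z' : ℕ} (h : z ≤ z') (S : Finset ℕ) : la z' S ⊆ la z S := by
  intro p hp
  unfold la at hp ⊢
  rw [mem_filter] at hp ⊢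
  exact ⟨hp.1, fun h' => hp.2 (h'.trans h)⟩

theorem sm_symm {z : ℕ} {V : Finset ℕ} (hV : ∀ u ∈ V, u ≤ z) (S : Finset ℕ) :
    sm z (symmDiff S V) = symmDiff (sm z S) V := by
  ext p
  unfold sm
  simp only [mem_filter, mem_symmDiff]
  constructor
  · rintro ⟨h | h, h'⟩
    · exact Or.inl ⟨⟨h.1, h'⟩, h.2⟩
    · exact Or.inr ⟨h.1, fun h'' => h.2 h''.1⟩
  · rintro (h | h)
    · exact ⟨Or.inl ⟨h.1.1, h.2⟩, h.1.2⟩
    · exact ⟨Or.inr ⟨h.1, fun h'' => h.2 ⟨h'', hV p h.1⟩⟩, hV p h.1⟩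

theorem la_symm {z : ℕ} {V : Finset ℕ} (hV : ∀ u ∈ V, u ≤ z) (S : Finset ℕ) :
    la z (symmDiff S V) = la z S := by
  ext p
  unfold la
  simp only [mem_filter, mem_symmDiff]
  constructor
  · rintro ⟨h | h, h'⟩
    · exact ⟨h.1, h'⟩
    · exact absurd (hV p h.1) h'
  · rintro ⟨h, h'⟩
    exact ⟨Or.inl ⟨h, fun h'' => h' (hV p h'')⟩, h'⟩

theorem nd_mono {A A' B B' : Finset ℕ} (hA : A ⊆ A') (hB : B' ⊆ B) (h : Nd A' B') : Nd A B := by
  intro w t s hw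
  obtain ⟨p, hp, h1⟩ := h (fun u => if u ∈ A then w u else 0) t s (by
    rcases hw with ⟨u, hu, hw⟩ | hw
    · exact Or.inl ⟨u, hA hu, by simpa [hu] using hw⟩
    · exact Or.inr hw)
  refine ⟨p, hB hp, ?_⟩
  have e : ∑ u ∈ A', (if u ∈ A then w u else 0) * nr p u = ∑ u ∈ A, w u * nr p u := by
    rw [← sum_subset hA]
    · refine sum_congr rfl fun u hu => ?_
      simp [hu]
    · intro u _ hu
      simp [hu]
  rw [e] at h1
  exact h1

theorem mem_SS {X : ℕ} {S : Finset ℕ} : S ∈ SS X ↔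
    S ⊆ range (X + 1) ∧ Cl S ∧ ∏ p ∈ S, p ≤ X := by
  unfold SS
  rw [mem_filter, mem_powerset]

theorem symm_mem {V : Finset ℕ} (hV : OkV V) {X : ℕ} {S : Finset ℕ} (hS : S ∈ SS X) :
    symmDiff S V ∈ SS ((∏ u ∈ V, u) * X) := by
  rw [mem_SS] at hS ⊢
  obtain ⟨h1, h2, h3⟩ := hS
  have hVpos : 0 < ∏ u ∈ V, u := prod_pos fun u hu => (hV.1 u hu).1.pos
  have hSpos : 0 < ∏ p ∈ S, p := prod_pos fun u hu => (h2.1 u hu).1.pos
  have hX : 0 < X := lt_of_lt_of_le hSpos h3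
  have h5 : Cl (symmDiff S V) := cl_symm h2 hV
  have h4 : ∏ p ∈ symmDiff S V, p ≤ (∏ u ∈ V, u) * X := by
    have e := prod_sd S V
    have hI : 0 < ∏ p ∈ S ∩ V, p := prod_pos fun u hu => (hV.1 u (mem_inter.1 hu).2).1.pos
    calc ∏ p ∈ symmDiff S V, p ≤ (∏ p ∈ symmDiff S V, p) * (∏ p ∈ S ∩ V, p) ^ 2 :=
          Nat.le_mul_of_pos_right _ (pow_pos hI 2)
      _ = (∏ p ∈ S, p) * ∏ p ∈ V, p := e
      _ ≤ X * ∏ p ∈ V, p := Nat.mul_le_mul_right _ h3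
      _ = _ := mul_comm _ _
  refine ⟨?_, h5, h4⟩
  intro p hp
  rw [mem_range]
  have h6 : 0 < ∏ p ∈ symmDiff S V, p := prod_pos fun u hu => (h5.1 u hu).1.pos
  have h7 : p ≤ ∏ p ∈ symmDiff S V, p :=
    Nat.le_of_dvd h6 (dvd_prod_of_mem (fun q => q) hp)
  omega

theorem zz_mono {X c : ℕ} (hX : 1 ≤ eL X) (hc : 0 < c) : zz X ≤ zz (c * X) := by
  unfold zz
  apply Nat.floor_le_floor
  apply Real.exp_le_exp.2
  have h1 := X_pos (X := X) (by linarith)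
  have hlog : 0 < Real.log X := by
    rw [logX_eq (by linarith)]
    exact Real.exp_pos _
  have hX0 : (0 : ℝ) < X := by exact_mod_cast h1
  have h2 : (X : ℝ) ≤ ((c * X : ℕ) : ℝ) := by
    exact_mod_cast Nat.le_mul_of_pos_left X hc
  have h3 : eL X ≤ eL (c * X) := by
    unfold eL
    exact Real.log_le_log hlog (Real.log_le_log hX0 h2)
  have : 0 ≤ eL X := by linarith
  gcongr

theorem zz_large (M : ℕ) : ∀ᶠ X : ℕ in Filter.atTop, M ≤ zz X := by
  filter_upwards [ev_eL (2 * M + 1), ev_eL 1] with X h1 h2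
  have h3 := zz_ge h2
  have h4 := Real.add_one_le_exp ((eL X) ^ 3)
  have h5 : eL X ≤ (eL X) ^ 3 := by
    calc eL X = (eL X) ^ 1 := (pow_one _).symm
      _ ≤ (eL X) ^ 3 := pow_le_pow_right₀ h2 (by norm_num)
  have h6 : (M : ℝ) ≤ zz X := by linarith
  exact_mod_cast h6

theorem card_le {V : Finset ℕ} (hV : OkV V) {X : ℕ} (h1 : ∀ u ∈ V, u ≤ zz X)
    (h2 : zz X ≤ zz ((∏ u ∈ V, u) * X)) :
    ((SS X).filter fun S => ¬ Nd (symmDiff (sm (zz X) S) V) (la (zz X) S)).card ≤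
      ((SS ((∏ u ∈ V, u) * X)).filter fun S => kk ((∏ u ∈ V, u) * X) < S.card).card +
      ((SS ((∏ u ∈ V, u) * X)).filter fun S => S.card ≤ kk ((∏ u ∈ V, u) * X) ∧
        ¬ Nd (sm (zz ((∏ u ∈ V, u) * X)) S) (la (zz ((∏ u ∈ V, u) * X)) S)).card := by
  refine le_trans ?_ (card_union_le _ _)
  refine card_le_card_of_injOn (fun S => symmDiff S V) ?_ ?_
  · intro S hS
    rw [mem_coe, mem_filter] at hS
    rw [mem_coe, mem_union, mem_filter, mem_filter]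
    have h3 := symm_mem hV hS.1
    by_cases h4 : kk ((∏ u ∈ V, u) * X) < (symmDiff S V).card
    · exact Or.inl ⟨h3, h4⟩
    · refine Or.inr ⟨h3, not_lt.1 h4, fun h5 => hS.2 ?_⟩
      have h6 := nd_mono (sm_mono h2 (symmDiff S V)) (la_mono h2 (symmDiff S V)) h5
      rwa [sm_symm h1, la_symm h1] at h6
  · intro S _ T _ h
    exact symmDiff_left_injective V h

end JBad

open JBad in
theorem t_JBAD : S_JBAD := by
  intro hB hS hH hC V hV
  obtain ⟨CB, XB, hbad⟩ := hB hS hH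
  have s1 := sml_many hC
  have s2 := Pool.Agent.Y703.CQ.sml_rpow (t := 0) (by norm_num) hbad
  have s := Pool.Agent.Y703.CQ.sml_add s1 s2
  have hc : 0 < ∏ u ∈ V, u := prod_pos fun u hu => (hV.1 u hu).1.pos
  have hc' : (0 : ℝ) < ((∏ u ∈ V, u : ℕ) : ℝ) := by exact_mod_cast hc
  intro δ hδ
  have ht : Filter.Tendsto (fun X : ℕ => (∏ u ∈ V, u) * X) Filter.atTop Filter.atTop :=
    Filter.tendsto_atTop_mono (fun X => Nat.le_mul_of_pos_left X hc) Filter.tendsto_id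
  filter_upwards [ht.eventually (s (δ / ((∏ u ∈ V, u : ℕ) : ℝ)) (by positivity)),
    Pool.Agent.Y703.CX.ev_eL 1, zz_large (V.sup id)] with X h1 h2 h3
  have h4 : ∀ u ∈ V, u ≤ zz X := fun u hu => (Finset.le_sup (f := id) hu).trans h3
  have h5 := card_le hV h4 (zz_mono h2 hc)
  have h6 : (((SS X).filter fun S => ¬ Nd (symmDiff (sm (zz X) S) V) (la (zz X) S)).card : ℝ) ≤
      ((((SS ((∏ u ∈ V, u) * X)).filter fun S => kk ((∏ u ∈ V, u) * X) < S.card).card : ℕ) : ℝ) +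
      ((((SS ((∏ u ∈ V, u) * X)).filter fun S => S.card ≤ kk ((∏ u ∈ V, u) * X) ∧
        ¬ Nd (sm (zz ((∏ u ∈ V, u) * X)) S) (la (zz ((∏ u ∈ V, u) * X)) S)).card : ℕ) : ℝ) := by
    exact_mod_cast h5
  refine h6.trans (h1.trans (le_of_eq ?_))
  rw [neg_zero, zero_mul, zero_mul, Real.exp_zero, mul_one, mul_one, Nat.cast_mul, ← mul_assoc,
    div_mul_cancel₀ _ hc'.ne']

end Pool.Agent.H735X
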