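import Pool.Agent.H735X.Stm
import Pool.Agent.H757_X15.DN.LA1
import Pool.Agent.H757_X15.DN.LA2

/-
Project XJ (helper735, MP_696deb_nt): the joint law for several quadratic twists of X_0(15), parts SNG and BON.
-/

set_option autoImplicit false
set_option linter.unusedVariables false

open scoped Classical

namespace Pool.Agent.H735X

open Finset
open Pool.Agent.Y703.CX (sm la jj XX eL zz kk S_SIE)
open Pool.Agent.Y703.CQ (nr sg prs HB ext S_EQ Sml)
open Pool.Agent.H757_X15.DD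
open Pool.Agent.H757_X15.DD.LA4

namespace SB

lemma fac_nonneg {r i : ℕ} (h : i ≤ r) : (0 : ℝ) ≤ 2 ^ r - 2 ^ i := by
  have : (2 : ℝ) ^ i ≤ 2 ^ r := pow_le_pow_right₀ (by norm_num) h
  linarith

lemma fac_half {r i : ℕ} (h : i < r) : (2 : ℝ) ^ (r - 1) ≤ 2 ^ r - 2 ^ i := by
  obtain ⟨s, rfl⟩ := Nat.exists_eq_succ_of_ne_zero (show r ≠ 0 by omega)
  have h1 : (2 : ℝ) ^ i ≤ 2 ^ s := pow_le_pow_right₀ (by norm_num) (by omega)
  have h2 : s.succ - 1 = s := rfl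
  rw [h2, Nat.succ_eq_add_one, pow_succ]
  linarith

lemma prod_zero {r j : ℕ} (h : r < j) : ∏ i ∈ range j, ((2 : ℝ) ^ r - 2 ^ i) = 0 :=
  Finset.prod_eq_zero (mem_range.2 h) (sub_self _)

lemma prod_nonneg' (r j : ℕ) : 0 ≤ ∏ i ∈ range j, ((2 : ℝ) ^ r - 2 ^ i) := by
  rcases le_or_gt j r with h | h
  · exact Finset.prod_nonneg fun i hi => fac_nonneg ((mem_range.1 hi).le.trans h)
  · rw [prod_zero h]

lemma prod_ge {r j : ℕ} (h : j ≤ r) :
    ((2 : ℝ) ^ (r - 1)) ^ j ≤ ∏ i ∈ range j, ((2 : ℝ) ^ r - 2 ^ i) := by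
  have h1 : ((2 : ℝ) ^ (r - 1)) ^ j = ∏ i ∈ range j, (2 : ℝ) ^ (r - 1) := by
    rw [Finset.prod_const, card_range]
  rw [h1]
  refine Finset.prod_le_prod (fun i _ => by positivity) fun i hi => ?_
  exact fac_half ((mem_range.1 hi).trans_le h)

lemma PP_eq (j : ℕ) : PP j = ∏ i ∈ range j, ((2 : ℝ) ^ (i + 1) - 1) := rfl

lemma PP_pos (j : ℕ) : 0 < PP j := lt_of_lt_of_le one_pos (one_le_PP j)

lemma PP_succ (j : ℕ) : PP (j + 1) = PP j * ((2 : ℝ) ^ (j + 1) - 1) :=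
  Finset.prod_range_succ _ _

lemma bon1 (r m : ℕ) : |(if r = 0 then (1 : ℝ) else 0) - ∑ j ∈ range m, (-1 : ℝ) ^ j *
      (∏ i ∈ range j, ((2 : ℝ) ^ r - 2 ^ i)) / PP j| ≤
    (∏ i ∈ range m, ((2 : ℝ) ^ r - 2 ^ i)) / PP m := by
  rcases Nat.eq_zero_or_pos m with hm | hm
  · subst hm
    rw [Finset.range_zero, Finset.sum_empty, Finset.prod_empty, PP_eq, Finset.range_zero,
      Finset.prod_empty, sub_zero]
    split_ifs <;> norm_num
  obtain ⟨m, rfl⟩ := Nat.exists_eq_succ_of_ne_zero hm.ne'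
  rw [Nat.succ_eq_add_one]
  rcases Nat.eq_zero_or_pos r with hr | hr
  · subst hr
    rw [if_pos rfl, prod_zero (Nat.succ_pos m), zero_div,
      Finset.sum_eq_single 0]
    · rw [Finset.range_zero, Finset.prod_empty, PP_eq, Finset.range_zero, Finset.prod_empty]
      norm_num
    · intro b _ hb
      rw [prod_zero (Nat.pos_of_ne_zero hb), mul_zero, zero_div]
    · intro h
      exact absurd (mem_range.2 (Nat.succ_pos m)) h
  · have hpart := LA1.part r m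
    have h0 : ∑ j ∈ range (m + 1), (-1 : ℝ) ^ j * (∏ i ∈ range j, ((2 : ℝ) ^ r - 2 ^ i)) / PP j =
        (-1 : ℝ) ^ m * (∏ i ∈ range m, ((2 : ℝ) ^ r - 2 ^ (i + 1))) / PP m := hpart
    rw [h0, if_neg hr.ne', zero_sub, abs_neg, abs_div, abs_mul, abs_pow, abs_neg, abs_one, one_pow,
      one_mul, abs_of_pos (PP_pos m)]
    rcases le_or_gt r m with h | h
    · have h1 : ∏ i ∈ range m, ((2 : ℝ) ^ r - 2 ^ (i + 1)) = 0 := by
        refine Finset.prod_eq_zero (i := r - 1) (mem_range.2 (by omega)) ?_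
        rw [Nat.sub_add_cancel hr, sub_self]
      rw [h1, abs_zero, zero_div]
      exact div_nonneg (prod_nonneg' _ _) (PP_pos _).le
    · have h1 : 0 ≤ ∏ i ∈ range m, ((2 : ℝ) ^ r - 2 ^ (i + 1)) :=
        Finset.prod_nonneg fun i hi => fac_nonneg (by have := mem_range.1 hi; omega)
      have h2 : ∏ i ∈ range (m + 1), ((2 : ℝ) ^ r - 2 ^ i) =
          (∏ i ∈ range m, ((2 : ℝ) ^ r - 2 ^ (i + 1))) * ((2 : ℝ) ^ r - 1) := by
        rw [Finset.prod_range_succ', pow_zero]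
      have h3 : (0 : ℝ) < 2 ^ (m + 1) - 1 := by
        have := LA1.one_lt m
        linarith
      have h4 : (2 : ℝ) ^ (m + 1) ≤ 2 ^ r := pow_le_pow_right₀ (by norm_num) h
      rw [abs_of_nonneg h1, h2, PP_succ, div_le_div_iff₀ (PP_pos m) (mul_pos (PP_pos m) h3)]
      have h5 : 0 ≤ (∏ i ∈ range m, ((2 : ℝ) ^ r - 2 ^ (i + 1))) * PP m := mul_nonneg h1 (PP_pos m).le
      nlinarith

lemma bon2 (r s : ℕ) : (2 : ℝ) ^ (r * s) ≤
    ∑ j ∈ range (s + 1), 2 ^ (s * j) * ∏ i ∈ range j, ((2 : ℝ) ^ r - 2 ^ i) := by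
  have hnn : ∀ j ∈ range (s + 1), (0 : ℝ) ≤ 2 ^ (s * j) * ∏ i ∈ range j, ((2 : ℝ) ^ r - 2 ^ i) :=
    fun j _ => mul_nonneg (by positivity) (prod_nonneg' _ _)
  rcases le_or_gt s r with h | h
  · refine le_trans ?_ (Finset.single_le_sum hnn (mem_range.2 (Nat.lt_succ_self s)))
    calc (2 : ℝ) ^ (r * s) ≤ 2 ^ (s * s) * ((2 : ℝ) ^ (r - 1)) ^ s := by
          rw [← pow_mul, ← pow_add]
          apply pow_le_pow_right₀ (by norm_num)
          rcases Nat.eq_zero_or_pos s with h1 | h1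
          · subst h1; simp
          · rw [← add_mul]
            exact Nat.mul_le_mul_right _ (by omega)
      _ ≤ _ := mul_le_mul_of_nonneg_left (prod_ge h) (by positivity)
  · refine le_trans ?_ (Finset.single_le_sum hnn (mem_range.2 (show r < s + 1 by omega)))
    have h1 : (1 : ℝ) ≤ ((2 : ℝ) ^ (r - 1)) ^ r := one_le_pow₀ (one_le_pow₀ (by norm_num))
    calc (2 : ℝ) ^ (r * s) = 2 ^ (s * r) * 1 := by rw [mul_one, mul_comm]
      _ ≤ _ := mul_le_mul_of_nonneg_left (h1.trans (prod_ge le_rfl)) (by positivity)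

end SB

theorem t_SNG : S_SNG := by
  intro M J _ _ F m R hF i j
  have hJ : Nonempty J := by
    have h1 := hF.rad i i
    obtain ⟨k, -⟩ := Finset.card_pos.1 ((Nat.zero_le R).trans_lt h1)
    exact ⟨k⟩
  have h1 := sum_TT t_LA2 (F.A i) (F.C i) (F.f i) (F.b i) F.g F.h (hF.sym i) (hF.par i) j
  have h2 := card_V0 (F.A i) (F.C i) (F.f i) (F.b i) F.g F.h (hF.nd i)
  set V₀ := V0 (F.A i) (F.C i) (F.f i) (F.b i) F.g F.h with hV₀
  have h3 : NN (Sum.elim (F.f i) F.g) V₀ j ≤ Fintype.card V₀ ^ j := by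
    have h4 : NN (Sum.elim (F.f i) F.g) V₀ j ≤ (univ : Finset (Fin j → V₀)).card :=
      Finset.card_le_card (Finset.filter_subset _ _)
    rw [Finset.card_univ, Fintype.card_fun, Fintype.card_fin] at h4
    exact h4
  have h3' : (NN (Sum.elim (F.f i) F.g) V₀ j : ℝ) ≤ (Fintype.card V₀ : ℝ) ^ j := by
    exact_mod_cast h3
  have h2' : (Fintype.card V₀ : ℝ) * 2 = 2 ^ Fintype.card J := by exact_mod_cast h2
  have h5 : (0 : ℝ) < 2 ^ (Fintype.card J * j) := by positivity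
  refine le_of_mul_le_mul_right ?_ h5
  have h6 : (∑ α : prs (univ : Finset J) → ZMod 2, (TT (F.K i α) j : ℝ)) *
      2 ^ (Fintype.card J * j) =
      (NN (Sum.elim (F.f i) F.g) V₀ j : ℝ) * 2 ^ ((prs (univ : Finset J)).card + j + j.choose 2) :=
    h1
  rw [h6]
  calc (NN (Sum.elim (F.f i) F.g) V₀ j : ℝ) * 2 ^ ((prs (univ : Finset J)).card + j + j.choose 2)
      ≤ (Fintype.card V₀ : ℝ) ^ j * 2 ^ ((prs (univ : Finset J)).card + j + j.choose 2) :=
        mul_le_mul_of_nonneg_right h3' (by positivity)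
    _ = ((Fintype.card V₀ : ℝ) * 2) ^ j * (2 ^ (prs (univ : Finset J)).card * 2 ^ (j.choose 2)) := by
        rw [mul_pow, pow_add, pow_add]
        ring
    _ = 2 ^ (prs (univ : Finset J)).card * 2 ^ j.choose 2 * 2 ^ (Fintype.card J * j) := by
        rw [h2', ← pow_mul]
        ring

theorem t_BON : S_BON := ⟨SB.bon1, SB.bon2⟩

end Pool.Agent.H735X
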