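import Pool.Agent.H735X.Stm
import Pool.Agent.Helper449_X15.BOX

/-
Project XJ (helper735, MP_696deb_nt, weight 100): the joint law for several quadratic twists of X_0(15).
JBOX: the count in a box.
-/

set_option autoImplicit false
set_option linter.unusedVariables false

open scoped Classical

namespace Pool.Agent.H735X

open Finset
open Pool.Agent.Y703.CX (sm la jj XX eL zz kk S_SIE)
open Pool.Agent.Y703.CQ (nr sg prs HB ext S_EQ Sml)
open Pool.Agent.H757_X15.DD
open Pool.Agent.H757_X15.DD.LA4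

namespace JBox

open Pool.Agent.H757_X15.DD.Box

theorem two_zero (a : ZMod 2) : a + a = 0 := by
  revert a; decide

/-- sums over symmetric differences in characteristic two -/
theorem sum_sd (A B : Finset ℕ) (f : ℕ → ZMod 2) :
    ∑ u ∈ symmDiff A B, f u = ∑ u ∈ A, f u + ∑ u ∈ B, f u := by
  have h1 : symmDiff A B = (A \ B) ∪ (B \ A) := rfl
  have hd : Disjoint (A \ B) (B \ A) := by
    rw [Finset.disjoint_left]
    intro x hx hx'
    exact (Finset.mem_sdiff.1 hx').2 (Finset.mem_sdiff.1 hx).1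
  rw [h1, Finset.sum_union hd]
  have hA : ∑ u ∈ A, f u = ∑ u ∈ A \ B, f u + ∑ u ∈ A ∩ B, f u := by
    rw [add_comm]
    exact (Finset.sum_inter_add_sum_sdiff A B f).symm
  have hB : ∑ u ∈ B, f u = ∑ u ∈ B \ A, f u + ∑ u ∈ A ∩ B, f u := by
    rw [add_comm, Finset.inter_comm]
    exact (Finset.sum_inter_add_sum_sdiff B A f).symm
  rw [hA, hB]
  have h2 := two_zero (∑ u ∈ A ∩ B, f u)
  calc ∑ u ∈ A \ B, f u + ∑ u ∈ B \ A, f u
      = ∑ u ∈ A \ B, f u + ∑ u ∈ B \ A, f u + 0 := by rw [add_zero]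
    _ = ∑ u ∈ A \ B, f u + ∑ u ∈ B \ A, f u + (∑ u ∈ A ∩ B, f u + ∑ u ∈ A ∩ B, f u) := by rw [h2]
    _ = _ := by ring

theorem sum_sd3 (S A B : Finset ℕ) (f : ℕ → ZMod 2) :
    ∑ u ∈ symmDiff S A, f u + ∑ u ∈ symmDiff S B, f u = ∑ u ∈ symmDiff A B, f u := by
  rw [sum_sd, sum_sd, sum_sd]
  have h2 := two_zero (∑ u ∈ S, f u)
  calc ∑ u ∈ S, f u + ∑ u ∈ A, f u + (∑ u ∈ S, f u + ∑ u ∈ B, f u)
      = (∑ u ∈ S, f u + ∑ u ∈ S, f u) + (∑ u ∈ A, f u + ∑ u ∈ B, f u) := by ring
    _ = _ := by rw [h2, zero_add]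

theorem mem_Wa {M : ℕ} {V : Fin M → Finset ℕ} {i : Fin M} {u : ℕ} (h : u ∈ V i) : u ∈ Wa V := by
  unfold Wa
  rw [Finset.mem_biUnion]
  exact ⟨i, Finset.mem_univ _, h⟩

theorem sd_sub {M : ℕ} (V : Fin M → Finset ℕ) (S : Finset ℕ) (i : Fin M) :
    symmDiff S (V i) ⊆ S ∪ Wa V := by
  intro u hu
  rw [Finset.mem_symmDiff] at hu
  rw [Finset.mem_union]
  rcases hu with h | h
  · exact Or.inl h.1
  · exact Or.inr (mem_Wa h.1)

theorem sd_sub' {M : ℕ} (V : Fin M → Finset ℕ) (S : Finset ℕ) (i j : Fin M) :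
    symmDiff (V i) (V j) ⊆ S ∪ Wa V := by
  intro u hu
  rw [Finset.mem_symmDiff] at hu
  rw [Finset.mem_union]
  rcases hu with h | h
  · exact Or.inr (mem_Wa h.1)
  · exact Or.inr (mem_Wa h.1)

theorem sd_union {M : ℕ} (V : Fin M → Finset ℕ) (S P : Finset ℕ) (i : Fin M)
    (hP : ∀ x ∈ P, x ∉ S ∪ Wa V) : symmDiff (S ∪ P) (V i) = symmDiff S (V i) ∪ P := by
  ext x
  simp only [Finset.mem_symmDiff, Finset.mem_union]
  by_cases hx : x ∈ P
  · have h1 := hP x hx
    rw [Finset.mem_union, not_or] at h1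
    have h2 : x ∉ V i := fun h => h1.2 (mem_Wa h)
    simp [hx, h2]
  · simp [hx]

variable {M : ℕ} {ι : Type} [Fintype ι]

/-- the good labels -/
def LNJ (R : ℕ) (V : Fin M → Finset ℕ) (S₀ : Finset ℕ) (g h : ι → ZMod 2)
    (β : ι → Lb (S₀ ∪ Wa V)) : Prop :=
  (∀ i, LN (symmDiff S₀ (V i)) g h fun k u => ez0 (β k) u) ∧
  (∀ i j, i ≠ j → R * ((S₀ ∪ Wa V).card + 1) <
    (univ.filter fun k => ∑ u ∈ symmDiff (V i) (V j), ez0 (β k) u ≠ 0).card) ∧
  ∀ i j, R * ((S₀ ∪ Wa V).card + 1) <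
    (univ.filter fun k => g k + ∑ u ∈ symmDiff (V i) (V j), ez0 (β k) u ≠ 0).card

theorem ez0_lb {T : Finset ℕ} (x u : ℕ) (hu : u ∈ T) : ez0 (lb T x) u = nr x u := by
  unfold ez0 lb
  rw [dif_pos hu]

theorem ndj_iff (R : ℕ) (V : Fin M → Finset ℕ) (S₀ : Finset ℕ) {p : ι → ℕ}
    (hp : Function.Injective p) : NdJ R V S₀ (univ.image p) ↔
    LNJ R V S₀ (fun k => aa (p k)) (fun k => bb (p k)) (fun k => lb (S₀ ∪ Wa V) (p k)) := by
  unfold NdJ LNJ
  have e1 : ∀ i, (fun (k : ι) (u : {u // u ∈ symmDiff S₀ (V i)}) =>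
      ez0 (lb (S₀ ∪ Wa V) (p k)) u) = fun k => lb (symmDiff S₀ (V i)) (p k) := by
    intro i
    funext k u
    exact ez0_lb (p k) u (sd_sub V S₀ i u.2)
  have e2 : ∀ i j k, ∑ u ∈ symmDiff (V i) (V j), ez0 (lb (S₀ ∪ Wa V) (p k)) u =
      ∑ u ∈ symmDiff (V i) (V j), nr (p k) u := by
    intro i j k
    exact Finset.sum_congr rfl fun u hu => ez0_lb (p k) u (sd_sub' V S₀ i j hu)
  refine and_congr ?_ (and_congr ?_ ?_)
  · refine forall_congr' fun i => ?_
    rw [nd_iff, e1]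
  · refine forall_congr' fun i => forall_congr' fun j => forall_congr' fun _ => ?_
    rw [Finset.filter_image, Finset.card_image_of_injective _ hp]
    simp only [e2]
  · refine forall_congr' fun i => forall_congr' fun j => ?_
    rw [Finset.filter_image, Finset.card_image_of_injective _ hp]
    simp only [e2]

theorem fin_ineq {n q P cM ε E : ℝ} (hP0 : 0 ≤ P) (h2 : |q - cM| ≤ ε) (h3 : |n - q * P| ≤ E) :
    |n - cM * P| ≤ ε * P + E := by
  have h6 : |n - cM * P| ≤ |n - q * P| + |q - cM| * P := by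
    have h7 : n - cM * P = (n - q * P) + (q - cM) * P := by ring
    have h8 : |(q - cM) * P| = |q - cM| * P := by rw [abs_mul, abs_of_nonneg hP0]
    rw [h7, ← h8]
    exact abs_add_le _ _
  have h7 : |q - cM| * P ≤ ε * P := mul_le_mul_of_nonneg_right h2 hP0
  linarith

end JBox

open JBox
open Pool.Agent.H757_X15.DD.Box (Lb lb LN ez0 nr_rec sum_aa sum_un gd_iff HB_sub)

theorem t_JBOX : S_JBOX := by
  intro hEQ hLA M ε hε
  obtain ⟨R, hV⟩ := hLA M ε hε
  refine ⟨R, ?_⟩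
  intro V ι _ _ C X κ S₀ hκ hCX hHB hS₀ hC hmod hdis hcl
  set E : ℝ := 2 ^ (prs (univ : Finset ι)).card * (κ * ∏ j, (X j : ℝ)) with hE
  have hE0 : 0 ≤ E := mul_nonneg (by positivity)
    (mul_nonneg hκ (Finset.prod_nonneg fun j _ => by positivity))
  have hEE : E ≤ 2 ^ ((2 * (S₀ ∪ Wa V).card + 1) * Fintype.card ι +
      (prs (univ : Finset ι)).card) * (κ * ∏ j, (X j : ℝ)) := by
    rw [hE]
    refine mul_le_mul_of_nonneg_right ?_
      (mul_nonneg hκ (Finset.prod_nonneg fun j _ => by positivity))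
    exact pow_le_pow_right₀ (by norm_num) (by omega)
  by_cases hne : (Fintype.piFinset C) = ∅
  · rw [hne]
    simpa using hE0.trans hEE
  obtain ⟨q₀, hq₀⟩ := Finset.nonempty_iff_ne_empty.2 hne
  -- facts on tuples
  have hinj : ∀ p ∈ Fintype.piFinset C, Function.Injective p := by
    intro p hp i j hij
    rw [Fintype.mem_piFinset] at hp
    by_contra hne
    have h1 := Finset.disjoint_left.1 (hdis i j hne) (hp i)
    rw [hij] at h1
    exact h1 (hp j)
  have hdT : ∀ p ∈ Fintype.piFinset C, ∀ k, p k ∉ S₀ ∪ Wa V := by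
    intro p hp k
    rw [Fintype.mem_piFinset] at hp
    exact (hC k _ (hp k)).2.2
  have hd : ∀ i, ∀ p ∈ Fintype.piFinset C, ∀ k, p k ∉ symmDiff S₀ (V i) := by
    intro i p hp k hk
    exact hdT p hp k (sd_sub V S₀ i hk)
  have hpr : ∀ p ∈ Fintype.piFinset C, ∀ i, (p i).Prime ∧ p i ≠ 2 := by
    intro p hp i
    rw [Fintype.mem_piFinset] at hp
    exact ⟨(hC i _ (hp i)).1, (hC i _ (hp i)).2.1⟩
  have hsdu : ∀ p ∈ Fintype.piFinset C, ∀ i, symmDiff (S₀ ∪ univ.image p) (V i) =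
      symmDiff S₀ (V i) ∪ univ.image p := by
    intro p hp i
    refine sd_union V S₀ _ i fun x hx => ?_
    rw [Finset.mem_image] at hx
    obtain ⟨k, -, rfl⟩ := hx
    exact hdT p hp k
  have hS₀' : ∀ i, ∀ u ∈ symmDiff S₀ (V i), u.Prime ∧ u ≠ 2 := fun i u hu =>
    hS₀ u (sd_sub V S₀ i hu)
  set g : ι → ZMod 2 := fun i => aa (q₀ i) with hg
  set h' : ι → ZMod 2 := fun i => bb (q₀ i) with hh'
  have hga : ∀ p ∈ Fintype.piFinset C, (fun i => aa (p i)) = g := by
    intro p hp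
    funext i
    have h60 : p i % 60 = q₀ i % 60 :=
      hmod i _ (Fintype.mem_piFinset.1 hp i) _ (Fintype.mem_piFinset.1 hq₀ i)
    simp only [hg, aa]
    have : p i % 4 = q₀ i % 4 := by omega
    rw [this]
  have hhb : ∀ p ∈ Fintype.piFinset C, (fun i => bb (p i)) = h' := by
    intro p hp
    funext i
    have h60 : p i % 60 = q₀ i % 60 :=
      hmod i _ (Fintype.mem_piFinset.1 hp i) _ (Fintype.mem_piFinset.1 hq₀ i)
    simp only [hh', bb]
    have : p i % 5 = q₀ i % 5 := by omega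
    rw [this]
  -- the part with given labels
  have h1 : ∀ β : ι → Lb (S₀ ∪ Wa V), LNJ R V S₀ g h' β →
      |(((Fintype.piFinset C).filter fun p => (fun i => lb (S₀ ∪ Wa V) (p i)) = β ∧
          GdJ V (S₀ ∪ univ.image p)).card : ℝ) -
        c1 ^ M * (((Fintype.piFinset C).filter fun p =>
          (fun i => lb (S₀ ∪ Wa V) (p i)) = β).card : ℝ)| ≤
      ε * (((Fintype.piFinset C).filter fun p =>
          (fun i => lb (S₀ ∪ Wa V) (p i)) = β).card : ℝ) + E := by
    intro β hβ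
    set C' : ι → Finset ℕ := fun i => (C i).filter fun q => lb (S₀ ∪ Wa V) q = β i with hC'
    have hpi : (Fintype.piFinset C).filter (fun p => (fun i => lb (S₀ ∪ Wa V) (p i)) = β) =
        Fintype.piFinset C' := by
      ext p
      simp only [Finset.mem_filter, Fintype.mem_piFinset, hC']
      constructor
      · rintro ⟨h2, h3⟩ i
        exact ⟨h2 i, congrFun h3 i⟩
      · intro h2
        exact ⟨fun i => (h2 i).1, funext fun i => (h2 i).2⟩
    let F : Fam M ι :=
      { U := fun i => {u // u ∈ symmDiff S₀ (V i)}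
        fin := fun i => inferInstance
        A := fun i u v => nr u v
        C := fun i k u => ez0 (β k) u
        f := fun i u => aa u
        b := fun i u => bb u
        g := g
        h := h' }
    have hFd : ∀ i j k, F.d i j k = ∑ u ∈ symmDiff (V i) (V j), ez0 (β k) u := by
      intro i j k
      show ∑ u : {u // u ∈ symmDiff S₀ (V i)}, ez0 (β k) u +
        ∑ u : {u // u ∈ symmDiff S₀ (V j)}, ez0 (β k) u = _
      rw [Finset.sum_coe_sort (symmDiff S₀ (V i)) fun u => ez0 (β k) u,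
        Finset.sum_coe_sort (symmDiff S₀ (V j)) fun u => ez0 (β k) u]
      exact sum_sd3 S₀ (V i) (V j) _
    have hOk : F.Ok (S₀ ∪ Wa V).card (R * ((S₀ ∪ Wa V).card + 1)) := by
      refine ⟨?_, ?_, ?_, ?_, ?_, ?_⟩
      · intro i u v huv
        exact nr_rec (hS₀' i u u.2).1 (hS₀' i u u.2).2 (hS₀' i v v.2).1 (hS₀' i v v.2).2
          fun h => huv (Subtype.ext h)
      · intro i
        have h3 := sum_aa (hcl q₀ hq₀ i)
        rw [hsdu q₀ hq₀ i, sum_un (hinj q₀ hq₀) (hd i q₀ hq₀)] at h3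
        exact h3
      · intro i w t s hw
        exact hβ.1 i w t s hw
      · intro i
        show Fintype.card {u // u ∈ symmDiff S₀ (V i)} ≤ _
        rw [Fintype.card_coe]
        exact Finset.card_le_card (sd_sub V S₀ i)
      · intro i j hij
        simp only [hFd]
        exact hβ.2.1 i j hij
      · intro i j
        simp only [hFd]
        exact hβ.2.2 i j
    have h2 := hV ι F _ hOk
    obtain ⟨Q, hQ⟩ : ∃ Q : (prs (univ : Finset ι) → ZMod 2) → Prop, Q = fun α => ∀ i,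
      GdA (F.A i) (F.C i) (F.f i) (F.b i) F.g F.h (Pool.Agent.H757_X15.DD.rec F.g α) := ⟨_, rfl⟩
    have h2' : |((univ.filter Q).card : ℝ) / 2 ^ (prs (univ : Finset ι)).card - c1 ^ M| ≤ ε := by
      rw [hQ]
      convert h2
    have h3 := hEQ ι univ C' X κ hκ
      (fun i => (Finset.card_le_card (Finset.filter_subset _ _)).trans (hCX i))
      (HB_sub hHB fun i q => lb (S₀ ∪ Wa V) q = β i) Q
    have h4 : ((Fintype.piFinset C).filter fun p => (fun i => lb (S₀ ∪ Wa V) (p i)) = β ∧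
        GdJ V (S₀ ∪ univ.image p)) = ((Fintype.piFinset C').filter fun p =>
          Q fun e => nr (p e.1.1) (p e.1.2)) := by
      rw [← hpi, Finset.filter_filter]
      refine Finset.filter_congr fun p hp => ?_
      refine and_congr_right fun hl => ?_
      unfold GdJ
      rw [hQ]
      refine forall_congr' fun i => ?_
      rw [hsdu p hp i, gd_iff (hinj p hp) (hpr p hp) (hS₀' i) (hd i p hp), hga p hp, hhb p hp]
      have e1 : (fun (k : ι) (u : {u // u ∈ symmDiff S₀ (V i)}) => nr (p k) u) = F.C i := by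
        funext k u
        show nr (p k) u = ez0 (β k) u
        rw [← congrFun hl k]
        exact (ez0_lb (p k) u (sd_sub V S₀ i u.2)).symm
      rw [e1]
    have h5 : (((Fintype.piFinset C').card : ℕ) : ℝ) = ∏ j, ((C' j).card : ℝ) := by
      rw [Fintype.card_piFinset]
      push_cast
      rfl
    rw [h4, hpi, h5]
    exact fin_ineq (Finset.prod_nonneg fun j _ => Nat.cast_nonneg _) h2' h3
  -- sum over the labels
  set LL := univ.filter (fun β : ι → Lb (S₀ ∪ Wa V) => LNJ R V S₀ g h' β) with hLL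
  have hfib : ∀ T : (ι → ℕ) → Prop,
      (((Fintype.piFinset C).filter fun p => NdJ R V S₀ (univ.image p) ∧ T p).card : ℝ) =
      ∑ β ∈ LL, (((Fintype.piFinset C).filter fun p =>
        (fun i => lb (S₀ ∪ Wa V) (p i)) = β ∧ T p).card : ℝ) := by
    intro T
    rw [Finset.card_eq_sum_card_fiberwise
      (f := fun (p : ι → ℕ) (i : ι) => lb (S₀ ∪ Wa V) (p i))
      (t := LL) (by
        intro p hp
        rw [Finset.mem_coe, Finset.mem_filter] at hp
        rw [Finset.mem_coe, hLL, Finset.mem_filter]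
        have h3 := (ndj_iff R V S₀ (hinj p hp.1)).1 hp.2.1
        rw [hga p hp.1, hhb p hp.1] at h3
        exact ⟨Finset.mem_univ _, h3⟩)]
    push_cast
    refine Finset.sum_congr rfl fun β hβ => ?_
    rw [hLL, Finset.mem_filter] at hβ
    congr 2
    ext p
    simp only [Finset.mem_filter]
    constructor
    · rintro ⟨⟨h3, h4, h4'⟩, h5⟩
      exact ⟨h3, h5, h4'⟩
    · rintro ⟨h3, h4, h5⟩
      refine ⟨⟨h3, ?_, h5⟩, h4⟩
      rw [ndj_iff R V S₀ (hinj p h3), h4, hga p h3, hhb p h3]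
      exact hβ.2
  have hf1 := hfib fun p => GdJ V (S₀ ∪ univ.image p)
  have hf2 := hfib fun _ => True
  simp only [and_true] at hf2
  rw [hf1, hf2, Finset.mul_sum, ← Finset.sum_sub_distrib]
  refine (Finset.abs_sum_le_sum_abs _ _).trans ?_
  refine (Finset.sum_le_sum fun β hβ => h1 β (Finset.mem_filter.1 hβ).2).trans ?_
  rw [Finset.sum_add_distrib, ← Finset.mul_sum, Finset.sum_const, nsmul_eq_mul]
  have h5 : ((LL.card : ℕ) : ℝ) ≤ 2 ^ ((2 * (S₀ ∪ Wa V).card + 1) * Fintype.card ι) := by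
    have h6 : LL.card ≤ Fintype.card (ι → Lb (S₀ ∪ Wa V)) := Finset.card_le_univ _
    rw [Fintype.card_fun, Fintype.card_fun, ZMod.card, Fintype.card_coe, ← pow_mul] at h6
    have h7 : (2 : ℕ) ^ ((S₀ ∪ Wa V).card * Fintype.card ι) ≤
        2 ^ ((2 * (S₀ ∪ Wa V).card + 1) * Fintype.card ι) := by
      refine Nat.pow_le_pow_right (by norm_num) (Nat.mul_le_mul_right _ (by omega))
    exact_mod_cast h6.trans h7
  have h6 := mul_le_mul_of_nonneg_right h5 hE0
  rw [pow_add, mul_assoc]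
  linarith

end Pool.Agent.H735X
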