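import Pool.Agent.H735X.Stm
import Pool.Agent.H757_X15.DN.LA2

/-!
# Project XJ, part cnt: completions with given vectors in the kernels
-/

set_option autoImplicit false
set_option linter.unusedVariables false

open scoped Classical

namespace Pool.Agent.H735X

open Finset
open Pool.Agent.Y703.CX (sm la jj XX eL zz kk S_SIE)
open Pool.Agent.Y703.CQ (nr sg prs HB ext S_EQ Sml)
open Pool.Agent.H757_X15.DD
open Pool.Agent.H757_X15.DD.LA4

namespace CNT

lemma indep_cons {J : Type} [Nonempty J] {N : ℕ} {U : Fin N → Type}
    (w : (a : Fin N) → (U a ⊕ J → ZMod 2))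
    (h : LinearIndependent (ZMod 2) (fun a => pr (U a) J (w a))) :
    LinearIndependent (ZMod 2) (Fin.cons (fun _ => 1) (fun a k => w a (Sum.inr k)) :
      Fin (N + 1) → J → ZMod 2) := by
  set q := Submodule.mkQ (Submodule.span (ZMod 2) {(fun _ => 1 : J → ZMod 2)}) with hq
  rw [linearIndependent_finCons]
  constructor
  · exact LinearIndependent.of_comp q h
  · intro hm
    rw [Submodule.mem_span_range_iff_exists_fun] at hm
    obtain ⟨c, hc⟩ := hm
    rw [Fintype.linearIndependent_iff] at h
    have h1 : ∑ a, c a • pr (U a) J (w a) = 0 := by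
      have h2 : ∀ a, c a • pr (U a) J (w a) = q (c a • fun k => w a (Sum.inr k)) := by
        intro a
        rw [map_smul]
        rfl
      rw [Finset.sum_congr rfl (fun a _ => h2 a), ← map_sum, hc, hq, Submodule.mkQ_apply,
        Submodule.Quotient.mk_eq_zero]
      exact Submodule.mem_span_singleton_self _
    have h2 := h c h1
    simp only [h2, zero_smul, Finset.sum_const_zero] at hc
    have h3 := congrFun hc (Classical.arbitrary J)
    exact zero_ne_one h3

end CNT

open CNT in
theorem t_CNTJ : S_CNTJ := by
  intro M J _ _ F m R hOk N s w hw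
  rcases isEmpty_or_nonempty J with hJ | hJ
  · -- `N = 0`
    have hN : N = 0 := by
      by_contra hN
      have hsub : Subsingleton (WW J) := by
        have : Subsingleton (J → ZMod 2) := inferInstance
        exact (Submodule.mkQ_surjective _).subsingleton
      exact hw.ne_zero ⟨0, Nat.pos_of_ne_zero hN⟩ (Subsingleton.elim _ _)
    subst hN
    have h1 : (univ.filter fun α : prs (univ : Finset J) → ZMod 2 => ∀ a : Fin 0,
        w a ∈ F.K (s a) α) = univ := by
      apply Finset.filter_true_of_mem
      intro α _ a
      exact a.elim0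
    rw [h1, if_pos ⟨fun a => a.elim0, fun a => a.elim0⟩, Finset.card_univ, Fintype.card_fun,
      ZMod.card, Fintype.card_coe]
    simp
  · by_cases hV : ∀ a, w a ∈ F.V (s a)
    · have hind := indep_cons (J := J) (U := fun a => F.U (s a)) w hw
      have h3 := t_LA2 J N (fun a k => w a (Sum.inr k)) (fun a k => F.L (s a) (w a) k) hind
      have h4 : (univ.filter fun α : prs (univ : Finset J) → ZMod 2 =>
          ∀ a, w a ∈ F.K (s a) α) =
          (univ.filter fun α : prs (univ : Finset J) → ZMod 2 => ∀ a k,
            ∑ l, ext α k l * (w a (Sum.inr l) + w a (Sum.inr k)) = F.L (s a) (w a) k) := by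
        apply Finset.filter_congr
        intro α _
        refine forall_congr' fun a => ?_
        have hVa : w a ∈ V0 (F.A (s a)) (F.C (s a)) (F.f (s a)) (F.b (s a)) F.g F.h := hV a
        rw [Fam.K, mem_KK_iff]
        simp only [hVa, true_and, Lp_split (F.A (s a)) (F.C (s a)) (F.f (s a)) F.g α, eq_iff_add,
          Fam.L]
      rw [h4, h3]
      have h5 : ∀ a, ∑ k, F.L (s a) (w a) k = 0 := by
        intro a
        have hVa : w a ∈ V0 (F.A (s a)) (F.C (s a)) (F.f (s a)) (F.b (s a)) F.g F.h := hV a
        have hM := MM_symm (F.A (s a)) (F.C (s a)) (F.f (s a)) F.g 0 (hOk.sym (s a))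
        have hV0 := ((mem_V0 (F.A (s a)) (F.C (s a)) (F.f (s a)) (F.b (s a)) F.g F.h
          (Pool.Agent.H757_X15.DD.rec F.g 0) (w a)).mp hVa).1
        have := colsum (MM (F.A (s a)) (F.C (s a)) (F.f (s a)) F.g
          (Pool.Agent.H757_X15.DD.rec F.g 0)) (Sum.elim (F.f (s a)) F.g) (w a) hM (by
          rw [Fintype.sum_sum_type]; simpa using hOk.par (s a))
        rw [Fintype.sum_sum_type] at this
        simpa [hV0, Fam.L] using this
      have h6 : (∀ a b, ∑ k, (w b (Sum.inr k) * F.L (s a) (w a) k +
          w a (Sum.inr k) * F.L (s b) (w b) k) = 0) ↔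
          ∀ a b, a < b → F.crs (s a) (s b) (w a) (w b) = 0 := by
        constructor
        · intro h a b _
          exact h a b
        · intro h a b
          rcases lt_trichotomy a b with hab | hab | hab
          · exact h a b hab
          · subst hab
            exact Finset.sum_eq_zero fun k _ => two_zero _
          · rw [← h b a hab, Fam.crs]
            exact Finset.sum_congr rfl fun k _ => add_comm _ _
      simp only [h5, h6, hV, implies_true, true_and]
    · rw [if_neg (fun h => hV h.1)]
      have h1 : (univ.filter fun α : prs (univ : Finset J) → ZMod 2 =>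
          ∀ a, w a ∈ F.K (s a) α) = ∅ := by
        apply Finset.filter_false_of_mem
        intro α _ h
        apply hV
        intro a
        have h2 := h a
        rw [Fam.K, mem_KK_iff] at h2
        exact h2.1
      rw [h1]
      simp

end Pool.Agent.H735X
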