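import Pool.Agent.H735X.Stm

set_option autoImplicit false
set_option linter.unusedVariables false
set_option linter.unusedSectionVars false

open scoped Classical

namespace Pool.Agent.H735X

open Finset
open Pool.Agent.Y703.CX (sm la jj XX eL zz kk S_SIE)
open Pool.Agent.Y703.CQ (nr sg prs HB ext S_EQ Sml)
open Pool.Agent.H757_X15.DD
open Pool.Agent.H757_X15.DD.LA4

section depb

variable {M : ℕ} {J : Type} [Fintype J] [LinearOrder J]

lemma depb_L_sub (F : Fam M J) (i : Fin M) (w w' : F.U i ⊕ J → ZMod 2) (k : J) :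
    F.L i (w - w') k = F.L i w k - F.L i w' k :=
  congrFun (map_sub (LpL (MM (F.A i) (F.C i) (F.f i) F.g (Pool.Agent.H757_X15.DD.rec F.g 0))
    (Sum.elim (F.f i) F.g)) w w') (Sum.inr k)

lemma depb_L_zero (F : Fam M J) (i : Fin M) (k : J) :
    F.L i (0 : F.U i ⊕ J → ZMod 2) k = 0 :=
  congrFun (map_zero (LpL (MM (F.A i) (F.C i) (F.f i) F.g (Pool.Agent.H757_X15.DD.rec F.g 0))
    (Sum.elim (F.f i) F.g))) (Sum.inr k)

lemma depb_key_zero (F : Fam M J) {i0 i1 : Fin M} (h01 : i0 ≠ i1)
    (w : (i : Fin M) → (F.U i ⊕ J → ZMod 2)) (hU : ∀ i u, w i (Sum.inl u) = 0)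
    (hoff : ∀ i, i ≠ i0 → i ≠ i1 → w i = 0)
    (hs : ∀ k, ∑ i, w i (Sum.inr k) = 0)
    (hL : ∀ k, ∑ i, F.L i (w i) k = 0)
    (hz : ∀ k, F.d i1 i0 k = 0 → w i1 (Sum.inr k) = 0) : w = 0 := by
  have hy : ∀ k, w i0 (Sum.inr k) = w i1 (Sum.inr k) := by
    intro k
    have := hs k
    rw [Fintype.sum_eq_add i0 i1 h01 (fun i hi => by rw [hoff i hi.1 hi.2]; rfl)] at this
    exact (eq_iff_add _ _).mp this
  have hd : ∀ k, F.d i1 i0 k * w i1 (Sum.inr k) = 0 := by
    intro k
    have := hL k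
    rw [Fintype.sum_eq_add i0 i1 h01
      (fun i hi => by rw [hoff i hi.1 hi.2]; exact depb_L_zero F i k)] at this
    rw [Fam.L, Fam.L, Lp_inr, Lp_inr] at this
    simp only [hU, hy, zero_add, ← Finset.sum_mul] at this
    rw [Fam.d]
    have e1 := two_zero (∑ l, Pool.Agent.H757_X15.DD.rec F.g 0 k l *
      (w i1 (Sum.inr l) + w i1 (Sum.inr k)))
    have e2 := two_zero (F.g k * w i1 (Sum.inr k))
    linear_combination this - e1 - e2
  have hy1 : ∀ k, w i1 (Sum.inr k) = 0 := by
    intro k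
    by_cases h : F.d i1 i0 k = 0
    · exact hz k h
    · exact (mul_eq_zero.mp (hd k)).resolve_left h
  funext i
  by_cases h0 : i = i0
  · subst h0
    funext p
    rcases p with u | k
    · exact hU i u
    · rw [hy, hy1]; rfl
  · by_cases h1 : i = i1
    · subst h1
      funext p
      rcases p with u | k
      · exact hU i u
      · rw [hy1]; rfl
    · exact hoff i h0 h1

lemma depb_sum_pr (F : Fam M J) (v : (i : Fin M) → (F.U i ⊕ J → ZMod 2)) (s : Finset (Fin M))
    (h : ∑ i ∈ s, pr (F.U i) J (v i) = 0) : ∃ t, ∀ k, ∑ i ∈ s, v i (Sum.inr k) = t := by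
  have h1 : ∑ i ∈ s, pr (F.U i) J (v i) =
      Submodule.mkQ (Submodule.span (ZMod 2) {(fun _ => 1 : J → ZMod 2)})
        (∑ i ∈ s, fun k => v i (Sum.inr k)) := by
    rw [map_sum]; rfl
  rw [h1, Submodule.mkQ_apply, Submodule.Quotient.mk_eq_zero, Submodule.mem_span_singleton] at h
  obtain ⟨t, ht⟩ := h
  refine ⟨t, fun k => ?_⟩
  have := congrFun ht k
  simpa using this.symm

lemma depb_sum_L (F : Fam M J) (α : prs (univ : Finset J) → ZMod 2)
    (v : (i : Fin M) → (F.U i ⊕ J → ZMod 2)) (hK : ∀ i, v i ∈ F.K i α)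
    (h : ∑ i, pr (F.U i) J (v i) = 0) (k : J) : ∑ i, F.L i (v i) k = 0 := by
  obtain ⟨t, ht⟩ := depb_sum_pr F v univ h
  have h1 : ∀ i, F.L i (v i) k = ∑ l, ext α k l * (v i (Sum.inr l) + v i (Sum.inr k)) := by
    intro i
    have h2 := ((mem_KK_iff _ _ _ _ _ _ _ _).mp (hK i)).2 k
    rw [Lp_split] at h2
    exact ((eq_iff_add _ _).mp h2).symm
  simp only [h1]
  rw [Finset.sum_comm]
  refine Finset.sum_eq_zero fun l _ => ?_
  rw [← Finset.mul_sum, Finset.sum_add_distrib, ht, ht, two_zero, mul_zero]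

/-- the support -/
noncomputable def depb_sp (F : Fam M J) (v : (i : Fin M) → (F.U i ⊕ J → ZMod 2)) :
    Finset (Fin M) := univ.filter fun i => v i ≠ 0

/-- the families with the support `I` -/
noncomputable def depb_T (F : Fam M J) (I : Finset (Fin M)) :
    Finset ((i : Fin M) → (F.U i ⊕ J → ZMod 2)) :=
  univ.filter fun v => depb_sp F v = I ∧
    (∀ I' : Finset (Fin M), I' ⊆ I → I'.Nonempty → ∑ i ∈ I', pr (F.U i) J (v i) = 0 → I' = I) ∧
    ∑ i, pr (F.U i) J (v i) = 0 ∧ ∀ k, ∑ i, F.L i (v i) k = 0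

lemma depb_exists (F : Fam M J) (m R : ℕ) (H : F.Ok m R) (α : prs (univ : Finset J) → ZMod 2)
    (hB : F.Bad α) : ∃ I : Finset (Fin M), (∃ i0 ∈ I, ∃ i1 ∈ I, i0 ≠ i1) ∧
      ∃ v ∈ depb_T F I, ∀ i, v i ∈ F.K i α := by
  obtain ⟨v0, hv0⟩ := hB
  obtain ⟨v, ⟨hv1, ⟨i0, hi0⟩, hv3⟩, hmin⟩ := WellFounded.has_min
    (measure fun v : (i : Fin M) → (F.U i ⊕ J → ZMod 2) => (depb_sp F v).card).wf
    {v | (∀ i, v i ∈ F.K i α) ∧ (∃ i, v i ≠ 0) ∧ ∑ i, pr (F.U i) J (v i) = 0} ⟨v0, hv0⟩
  have hmem : ∀ i, i ∈ depb_sp F v ↔ v i ≠ 0 := fun i => by simp [depb_sp]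
  refine ⟨depb_sp F v, ?_, v, ?_, hv1⟩
  · refine ⟨i0, (hmem i0).mpr hi0, ?_⟩
    by_contra hc
    push Not at hc
    apply hi0
    have h1 : ∑ i, pr (F.U i) J (v i) = pr (F.U i0) J (v i0) := by
      apply Fintype.sum_eq_single
      intro i hi
      have : v i = 0 := by
        by_contra h2
        exact hi (hc i ((hmem i).mpr h2)).symm
      rw [this, map_zero]
    rw [h1] at hv3
    exact KK_inj _ _ _ _ _ _ _ (H.nd i0) _ (hv1 i0) hv3
  · rw [depb_T, mem_filter]
    refine ⟨mem_univ _, rfl, ?_, hv3, depb_sum_L F α v hv1 hv3⟩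
    intro I' hI' hne hs
    by_contra hneq
    have hlt : I'.card < (depb_sp F v).card :=
      Finset.card_lt_card (hI'.ssubset_of_ne hneq)
    set v' : (i : Fin M) → (F.U i ⊕ J → ZMod 2) := fun i => if i ∈ I' then v i else 0 with hv'
    have h3 : depb_sp F v' = I' := by
      ext i
      simp only [depb_sp, mem_filter, mem_univ, true_and, hv']
      constructor
      · intro h
        by_contra h4
        exact h (if_neg h4)
      · intro h
        rw [if_pos h]
        exact (hmem i).mp (hI' h)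
    apply hmin v'
    · refine ⟨?_, ?_, ?_⟩
      · intro i
        simp only [hv']
        split_ifs
        · exact hv1 i
        · exact Submodule.zero_mem _
      · obtain ⟨i, hi⟩ := hne
        refine ⟨i, ?_⟩
        simp only [hv', if_pos hi]
        exact (hmem i).mp (hI' hi)
      · rw [← hs, ← Finset.sum_filter_add_sum_filter_not univ (fun i => i ∈ I')]
        have h5 : ∑ i ∈ univ.filter (fun i => i ∉ I'), pr (F.U i) J (v' i) = 0 := by
          refine Finset.sum_eq_zero fun i hi => ?_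
          rw [mem_filter] at hi
          simp only [hv', if_neg hi.2, map_zero]
        rw [h5, add_zero]
        refine Finset.sum_congr (by ext i; simp) fun i hi => ?_
        simp only [hv', if_pos hi]
    · show (depb_sp F v').card < (depb_sp F v).card
      rw [h3]
      exact hlt

lemma depb_T_card (F : Fam M J) (m R : ℕ) (H : F.Ok m R) (I : Finset (Fin M)) (i0 i1 : Fin M)
    (h0 : i0 ∈ I) (h1 : i1 ∈ I) (h01 : i0 ≠ i1) :
    (depb_T F I).card * 2 ^ R ≤ 2 ^ (m * M + Fintype.card J * (I.card - 1)) := by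
  have hsep := H.sep i1 i0 h01.symm
  have hJ : Nonempty J := by
    obtain ⟨k, hk⟩ := Finset.card_pos.mp (lt_of_le_of_lt (Nat.zero_le _) hsep)
    exact ⟨k⟩
  obtain ⟨k0⟩ := hJ
  set code : ((i : Fin M) → (F.U i ⊕ J → ZMod 2)) →
      ((i : {i // i ∈ I}) → (F.U i → ZMod 2)) × ZMod 2 ×
      ({i // i ∈ (I.erase i0).erase i1} → J → ZMod 2) × ({k // F.d i1 i0 k = 0} → ZMod 2) :=
    fun v => (fun i u => v i (Sum.inl u), ∑ i, v i (Sum.inr k0), fun i k => v i (Sum.inr k),
      fun k => v i1 (Sum.inr k)) with hcode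
  have hinj : (depb_T F I).card ≤ (univ : Finset (((i : {i // i ∈ I}) → (F.U i → ZMod 2)) ×
      ZMod 2 × ({i // i ∈ (I.erase i0).erase i1} → J → ZMod 2) ×
      ({k // F.d i1 i0 k = 0} → ZMod 2))).card := by
    apply Finset.card_le_card_of_injOn code
    · intro v _; exact mem_coe.mpr (mem_univ _)
    · intro v hv v' hv' hvv
      rw [mem_coe, depb_T, mem_filter] at hv hv'
      obtain ⟨-, hv1, hv2, hv3, hv4⟩ := hv
      obtain ⟨-, hw1, hw2, hw3, hw4⟩ := hv'
      obtain ⟨t, ht⟩ := depb_sum_pr F v univ hv3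
      obtain ⟨t', ht'⟩ := depb_sum_pr F v' univ hw3
      simp only [hcode, Prod.mk.injEq] at hvv
      obtain ⟨hc1, hc2, hc3, hc4⟩ := hvv
      have htt : t = t' := by rw [← ht k0, ← ht' k0, hc2]
      have hoff : ∀ i, i ∉ I → v i = 0 := by
        intro i hi
        by_contra h
        apply hi
        rw [← hv1]
        simp [depb_sp, h]
      have hoff' : ∀ i, i ∉ I → v' i = 0 := by
        intro i hi
        by_contra h
        apply hi
        rw [← hw1]
        simp [depb_sp, h]
      have hw : (fun i => v i - v' i) = (0 : (i : Fin M) → (F.U i ⊕ J → ZMod 2)) := by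
        apply depb_key_zero F h01
        · intro i u
          by_cases hi : i ∈ I
          · have := congrFun (congrFun hc1 ⟨i, hi⟩) u
            simp only at this
            rw [Pi.sub_apply, this, sub_self]
          · rw [hoff i hi, hoff' i hi, sub_self]; rfl
        · intro i hi0 hi1
          by_cases hi : i ∈ I
          · funext p
            rcases p with u | k
            · have := congrFun (congrFun hc1 ⟨i, hi⟩) u
              simp only at this
              rw [Pi.sub_apply, this, sub_self]; rfl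
            · have := congrFun (congrFun hc3 ⟨i, mem_erase.mpr ⟨hi1, mem_erase.mpr ⟨hi0, hi⟩⟩⟩) k
              simp only at this
              rw [Pi.sub_apply, this, sub_self]; rfl
          · rw [hoff i hi, hoff' i hi, sub_self]
        · intro k
          simp only [Pi.sub_apply]
          rw [Finset.sum_sub_distrib, ht, ht', htt, sub_self]
        · intro k
          simp only [depb_L_sub]
          rw [Finset.sum_sub_distrib, hv4, hw4, sub_self]
        · intro k hk
          have := congrFun hc4 ⟨k, hk⟩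
          simp only at this
          rw [Pi.sub_apply, this, sub_self]
      funext i
      exact sub_eq_zero.mp (congrFun hw i)
  have hcard : (univ : Finset (((i : {i // i ∈ I}) → (F.U i → ZMod 2)) ×
      ZMod 2 × ({i // i ∈ (I.erase i0).erase i1} → J → ZMod 2) ×
      ({k // F.d i1 i0 k = 0} → ZMod 2))).card =
      (∏ i : {i // i ∈ I}, 2 ^ Fintype.card (F.U i)) * (2 * ((2 ^ Fintype.card J) ^ (I.card - 2) *
        2 ^ (univ.filter fun k => F.d i1 i0 k = 0).card)) := by
    rw [Finset.card_univ, Fintype.card_prod, Fintype.card_prod, Fintype.card_prod,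
      Fintype.card_pi]
    simp only [Fintype.card_fun, ZMod.card, Fintype.card_subtype, Finset.filter_mem_eq_inter,
      Finset.univ_inter]
    rw [Finset.card_erase_of_mem (mem_erase.mpr ⟨h01.symm, h1⟩), Finset.card_erase_of_mem h0]
    rfl
  have hP : ∏ i : {i // i ∈ I}, 2 ^ Fintype.card (F.U i) ≤ 2 ^ (m * M) := by
    calc ∏ i : {i // i ∈ I}, 2 ^ Fintype.card (F.U i) ≤ ∏ i : {i // i ∈ I}, 2 ^ m :=
          Finset.prod_le_prod' fun i _ => Nat.pow_le_pow_right (by norm_num) (H.card i)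
      _ = 2 ^ (m * I.card) := by
          rw [Finset.prod_const, Finset.card_univ, Fintype.card_coe, ← pow_mul]
      _ ≤ 2 ^ (m * M) := by
          apply Nat.pow_le_pow_right (by norm_num)
          apply Nat.mul_le_mul_left
          have := Finset.card_le_univ I
          rwa [Fintype.card_fin] at this
  have hIc : 2 ≤ I.card := Finset.one_lt_card.mpr ⟨i0, h0, i1, h1, h01⟩
  have hsum : (univ.filter fun k => F.d i1 i0 k = 0).card +
      (univ.filter fun k => F.d i1 i0 k ≠ 0).card = Fintype.card J := by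
    rw [← Finset.card_univ]
    exact Finset.card_filter_add_card_filter_not _
  calc (depb_T F I).card * 2 ^ R ≤ ((∏ i : {i // i ∈ I}, 2 ^ Fintype.card (F.U i)) *
        (2 * ((2 ^ Fintype.card J) ^ (I.card - 2) *
        2 ^ (univ.filter fun k => F.d i1 i0 k = 0).card))) * 2 ^ R := by
          apply Nat.mul_le_mul_right
          rw [← hcard]; exact hinj
    _ ≤ (2 ^ (m * M) * (2 * ((2 ^ Fintype.card J) ^ (I.card - 2) *
        2 ^ (univ.filter fun k => F.d i1 i0 k = 0).card))) * 2 ^ R := by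
          apply Nat.mul_le_mul_right
          exact Nat.mul_le_mul_right _ hP
    _ = 2 ^ (m * M + (1 + (Fintype.card J * (I.card - 2) +
        (univ.filter fun k => F.d i1 i0 k = 0).card)) + R) := by
          rw [pow_add, pow_add, pow_add, pow_add, pow_one, pow_mul 2 (Fintype.card J)]
    _ ≤ 2 ^ (m * M + Fintype.card J * (I.card - 1)) := by
          apply Nat.pow_le_pow_right (by norm_num)
          obtain ⟨c, hc⟩ := Nat.exists_eq_add_of_le hIc
          rw [hc]
          have e1 : 2 + c - 2 = c := by omega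
          have e2 : 2 + c - 1 = c + 1 := by omega
          rw [e1, e2, Nat.mul_succ]
          omega

lemma depb_cnt (hc : S_CNTJ) (F : Fam M J) (m R : ℕ) (H : F.Ok m R) (I : Finset (Fin M))
    (i0 : Fin M) (h0 : i0 ∈ I) (v : (i : Fin M) → (F.U i ⊕ J → ZMod 2)) (hv : v ∈ depb_T F I) :
    ((univ.filter fun α : prs (univ : Finset J) → ZMod 2 => ∀ i, v i ∈ F.K i α).card : ℝ) *
      2 ^ (Fintype.card J * (I.card - 1)) ≤
    2 ^ ((prs (univ : Finset J)).card + (I.card - 1) + (I.card - 1).choose 2) := by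
  rw [depb_T, mem_filter] at hv
  obtain ⟨-, hv1, hv2, hv3, hv4⟩ := hv
  have hcd : (I.erase i0).card = I.card - 1 := Finset.card_erase_of_mem h0
  set s : Fin (I.card - 1) → Fin M := fun a => (I.erase i0).orderEmbOfFin hcd a with hs
  have hsinj : Function.Injective s := ((I.erase i0).orderEmbOfFin hcd).injective
  have hsmem : ∀ a, s a ∈ I.erase i0 := fun a => (I.erase i0).orderEmbOfFin_mem hcd a
  have hli : LinearIndependent (ZMod 2) (fun a => pr (F.U (s a)) J (v (s a))) := by
    rw [Fintype.linearIndependent_iff]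
    intro c hc0
    by_contra hne
    push Not at hne
    obtain ⟨a0, ha0⟩ := hne
    have h1 := hv2 ((univ.filter fun a => c a ≠ 0).image s) (by
      intro i hi
      rw [mem_image] at hi
      obtain ⟨a, -, rfl⟩ := hi
      exact Finset.mem_of_mem_erase (hsmem a)) ⟨s a0, mem_image_of_mem s (by simpa using ha0)⟩ (by
      rw [Finset.sum_image (fun a _ b _ h => hsinj h), Finset.sum_filter]
      refine Eq.trans ?_ hc0
      refine Finset.sum_congr rfl fun a _ => ?_
      rcases zmod2_cases (c a) with h | h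
      · simp [h]
      · simp [h])
    rw [← h1, mem_image] at h0
    obtain ⟨a, -, ha⟩ := h0
    exact (Finset.mem_erase.mp (hsmem a)).1 ha
  have h2 := hc M J F m R H (I.card - 1) s (fun a => v (s a)) hli
  calc ((univ.filter fun α : prs (univ : Finset J) → ZMod 2 => ∀ i, v i ∈ F.K i α).card : ℝ) *
      2 ^ (Fintype.card J * (I.card - 1)) ≤
      ((univ.filter fun α : prs (univ : Finset J) → ZMod 2 =>
        ∀ a, v (s a) ∈ F.K (s a) α).card : ℝ) * 2 ^ (Fintype.card J * (I.card - 1)) := by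
        apply mul_le_mul_of_nonneg_right _ (by positivity)
        rw [Nat.cast_le]
        apply Finset.card_le_card
        intro α hα
        rw [mem_filter] at hα ⊢
        exact ⟨hα.1, fun a => hα.2 (s a)⟩
    _ ≤ 2 ^ ((prs (univ : Finset J)).card + (I.card - 1) + (I.card - 1).choose 2) := by
        rw [h2]
        split_ifs
        · exact le_refl _
        · positivity

lemma depb_one (hc : S_CNTJ) (F : Fam M J) (m R : ℕ) (H : F.Ok m R) (I : Finset (Fin M)) :
    ((univ.filter fun α : prs (univ : Finset J) → ZMod 2 => (∃ i0 ∈ I, ∃ i1 ∈ I, i0 ≠ i1) ∧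
      ∃ v ∈ depb_T F I, ∀ i, v i ∈ F.K i α).card : ℝ) * 2 ^ R ≤
    2 ^ ((prs (univ : Finset J)).card + (m * M + M + M * M)) := by
  by_cases hI : ∃ i0 ∈ I, ∃ i1 ∈ I, i0 ≠ i1
  · obtain ⟨i0, h0, i1, h1, h01⟩ := hI
    have h2 : (univ.filter fun α : prs (univ : Finset J) → ZMod 2 =>
        (∃ i0 ∈ I, ∃ i1 ∈ I, i0 ≠ i1) ∧ ∃ v ∈ depb_T F I, ∀ i, v i ∈ F.K i α) ⊆
        (depb_T F I).biUnion fun v =>
          univ.filter fun α : prs (univ : Finset J) → ZMod 2 => ∀ i, v i ∈ F.K i α := by
      intro α hα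
      rw [mem_filter] at hα
      obtain ⟨-, -, v, hv, hα⟩ := hα
      rw [mem_biUnion]
      exact ⟨v, hv, by rw [mem_filter]; exact ⟨mem_univ _, hα⟩⟩
    have h3 : ((univ.filter fun α : prs (univ : Finset J) → ZMod 2 =>
        (∃ i0 ∈ I, ∃ i1 ∈ I, i0 ≠ i1) ∧ ∃ v ∈ depb_T F I, ∀ i, v i ∈ F.K i α).card : ℝ) ≤
        ∑ v ∈ depb_T F I, ((univ.filter fun α : prs (univ : Finset J) → ZMod 2 =>
          ∀ i, v i ∈ F.K i α).card : ℝ) := by
      have := (Finset.card_le_card h2).trans Finset.card_biUnion_le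
      exact_mod_cast this
    have h4 : (∑ v ∈ depb_T F I, ((univ.filter fun α : prs (univ : Finset J) → ZMod 2 =>
          ∀ i, v i ∈ F.K i α).card : ℝ)) * 2 ^ (Fintype.card J * (I.card - 1)) ≤
        (depb_T F I).card *
          2 ^ ((prs (univ : Finset J)).card + (I.card - 1) + (I.card - 1).choose 2) := by
      rw [Finset.sum_mul, ← nsmul_eq_mul]
      exact Finset.sum_le_card_nsmul _ _ _ fun v hv => depb_cnt hc F m R H I i0 h0 v hv
    have h5 : ((depb_T F I).card : ℝ) * 2 ^ R ≤
        2 ^ (m * M + Fintype.card J * (I.card - 1)) := by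
      exact_mod_cast depb_T_card F m R H I i0 i1 h0 h1 h01
    have hpos : (0 : ℝ) < 2 ^ (Fintype.card J * (I.card - 1)) := by positivity
    refine le_of_mul_le_mul_right ?_ hpos
    have hIM : I.card - 1 ≤ M := by
      have := Finset.card_le_univ I
      rw [Fintype.card_fin] at this
      omega
    have hch : (I.card - 1).choose 2 ≤ M * M := by
      calc (I.card - 1).choose 2 ≤ (I.card - 1) ^ 2 := Nat.choose_le_pow _ _
        _ ≤ M * M := by rw [pow_two]; exact Nat.mul_le_mul hIM hIM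
    calc ((univ.filter fun α : prs (univ : Finset J) → ZMod 2 =>
        (∃ i0 ∈ I, ∃ i1 ∈ I, i0 ≠ i1) ∧ ∃ v ∈ depb_T F I, ∀ i, v i ∈ F.K i α).card : ℝ) *
        2 ^ R * 2 ^ (Fintype.card J * (I.card - 1)) ≤
        (∑ v ∈ depb_T F I, ((univ.filter fun α : prs (univ : Finset J) → ZMod 2 =>
          ∀ i, v i ∈ F.K i α).card : ℝ)) * 2 ^ R * 2 ^ (Fintype.card J * (I.card - 1)) := by
          apply mul_le_mul_of_nonneg_right _ hpos.le
          exact mul_le_mul_of_nonneg_right h3 (by positivity)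
      _ = (∑ v ∈ depb_T F I, ((univ.filter fun α : prs (univ : Finset J) → ZMod 2 =>
          ∀ i, v i ∈ F.K i α).card : ℝ)) * 2 ^ (Fintype.card J * (I.card - 1)) * 2 ^ R := by ring
      _ ≤ (depb_T F I).card *
          2 ^ ((prs (univ : Finset J)).card + (I.card - 1) + (I.card - 1).choose 2) * 2 ^ R :=
          mul_le_mul_of_nonneg_right h4 (by positivity)
      _ = (depb_T F I).card * 2 ^ R *
          2 ^ ((prs (univ : Finset J)).card + (I.card - 1) + (I.card - 1).choose 2) := by ring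
      _ ≤ 2 ^ (m * M + Fintype.card J * (I.card - 1)) *
          2 ^ ((prs (univ : Finset J)).card + (I.card - 1) + (I.card - 1).choose 2) :=
          mul_le_mul_of_nonneg_right h5 (by positivity)
      _ = 2 ^ ((prs (univ : Finset J)).card + (m * M + (I.card - 1) + (I.card - 1).choose 2)) *
          2 ^ (Fintype.card J * (I.card - 1)) := by
          rw [← pow_add, ← pow_add]; congr 1; ring
      _ ≤ 2 ^ ((prs (univ : Finset J)).card + (m * M + M + M * M)) *
          2 ^ (Fintype.card J * (I.card - 1)) := by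
          apply mul_le_mul_of_nonneg_right _ hpos.le
          apply pow_le_pow_right₀ (by norm_num)
          omega
  · have h2 : (univ.filter fun α : prs (univ : Finset J) → ZMod 2 =>
        (∃ i0 ∈ I, ∃ i1 ∈ I, i0 ≠ i1) ∧ ∃ v ∈ depb_T F I, ∀ i, v i ∈ F.K i α) = ∅ := by
      rw [Finset.filter_eq_empty_iff]
      intro α _ hα
      exact hI hα.1
    rw [h2, Finset.card_empty, Nat.cast_zero, zero_mul]
    positivity

end depb

theorem t_DEPB : S_CNTJ → S_DEPB := by
  intro hc M J _ _ F m R H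
  have h1 : (univ.filter fun α : prs (univ : Finset J) → ZMod 2 => F.Bad α) ⊆
      (univ : Finset (Finset (Fin M))).biUnion fun I =>
        univ.filter fun α : prs (univ : Finset J) → ZMod 2 =>
          (∃ i0 ∈ I, ∃ i1 ∈ I, i0 ≠ i1) ∧ ∃ v ∈ depb_T F I, ∀ i, v i ∈ F.K i α := by
    intro α hα
    rw [mem_filter] at hα
    obtain ⟨I, hI, hv⟩ := depb_exists F m R H α hα.2
    rw [mem_biUnion]
    exact ⟨I, mem_univ _, by rw [mem_filter]; exact ⟨mem_univ _, hI, hv⟩⟩
  have h2 : ((univ.filter fun α : prs (univ : Finset J) → ZMod 2 => F.Bad α).card : ℝ) ≤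
      ∑ I : Finset (Fin M), ((univ.filter fun α : prs (univ : Finset J) → ZMod 2 =>
        (∃ i0 ∈ I, ∃ i1 ∈ I, i0 ≠ i1) ∧ ∃ v ∈ depb_T F I, ∀ i, v i ∈ F.K i α).card : ℝ) := by
    have := (Finset.card_le_card h1).trans Finset.card_biUnion_le
    exact_mod_cast this
  calc ((univ.filter fun α : prs (univ : Finset J) → ZMod 2 => F.Bad α).card : ℝ) * 2 ^ R ≤
      (∑ I : Finset (Fin M), ((univ.filter fun α : prs (univ : Finset J) → ZMod 2 =>
        (∃ i0 ∈ I, ∃ i1 ∈ I, i0 ≠ i1) ∧ ∃ v ∈ depb_T F I, ∀ i, v i ∈ F.K i α).card : ℝ)) *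
        2 ^ R := mul_le_mul_of_nonneg_right h2 (by positivity)
    _ = ∑ I : Finset (Fin M), ((univ.filter fun α : prs (univ : Finset J) → ZMod 2 =>
        (∃ i0 ∈ I, ∃ i1 ∈ I, i0 ≠ i1) ∧ ∃ v ∈ depb_T F I, ∀ i, v i ∈ F.K i α).card : ℝ) *
        2 ^ R := by rw [Finset.sum_mul]
    _ ≤ ∑ I : Finset (Fin M), (2 : ℝ) ^ ((prs (univ : Finset J)).card + (m * M + M + M * M)) :=
        Finset.sum_le_sum fun I _ => depb_one hc F m R H I
    _ = 2 ^ M * 2 ^ ((prs (univ : Finset J)).card + (m * M + M + M * M)) := by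
        rw [Finset.sum_const, Finset.card_univ, Fintype.card_finset, Fintype.card_fin,
          nsmul_eq_mul]
        push_cast
        rfl
    _ = 2 ^ (prs (univ : Finset J)).card * 2 ^ (M + (m * M + M + M * M)) := by
        rw [← pow_add, ← pow_add]; congr 1; ring
    _ ≤ 2 ^ (prs (univ : Finset J)).card * 2 ^ (M * (m + M + 3)) := by
        apply mul_le_mul_of_nonneg_left _ (by positivity)
        apply pow_le_pow_right₀ (by norm_num)
        nlinarith

end Pool.Agent.H735X
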