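import Pool.Agent.H735X.Stm
import Pool.Agent.H757_X15.DN.Few
import Pool.Agent.H757_X15.DN.MER
import Pool.Agent.Helper449_X15.BOX

/-!
# XJ: few sets have few large primes with a nontrivial label
-/

set_option autoImplicit false
set_option linter.unusedVariables false

open scoped Classical

namespace Pool.Agent.H735X

open Finset
open Pool.Agent.Y703.CX (sm la jj XX eL zz kk S_SIE)
open Pool.Agent.Y703.CQ (nr sg prs HB ext S_EQ Sml)
open Pool.Agent.H757_X15.DD
open Pool.Agent.H757_X15.DD.LA4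

namespace JFew

open Filter
open Pool.Agent.Y495.CX.Few (PN euler prod_pos' le_of_mem_prod mert eL_tendsto log_small zz_ge
  loglog_zz rpow_eq)
open Pool.Agent.Y362.CQ (moment)
open Pool.Agent.H757_X15.DD.FewA

/-- the primes with a nontrivial value -/
def BB (d : ℕ → ZMod 2) (p : ℕ) : Prop := p.Prime ∧ d p ≠ 0

/-- positive logarithmic density -/
def Pos (d : ℕ → ZMod 2) : Prop := ∃ β C : ℝ, 0 < β ∧ ∀ y : ℕ, 3 ≤ y →
    β * Real.log (Real.log y) - C ≤ ∑ p ∈ (PN y).filter (BB d), (1 : ℝ) / p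

/-- a residue class on which the function does not vanish -/
lemma pos_of_class {d : ℕ → ZMod 2} {q a : ℕ} (hq : 1 ≤ q) (ha : a < q) (hc : a.Coprime q)
    (h : ∀ p : ℕ, p.Prime → p % q = a → d p ≠ 0) : Pos d := by
  obtain ⟨C, -, hC⟩ := Pool.Agent.Y405.CQ.mertens_ap q hq a ha hc
  have hφ : (0 : ℝ) < (Nat.totient q : ℝ) := by
    exact_mod_cast Nat.totient_pos.2 hq
  refine ⟨1 / (Nat.totient q : ℝ), C, by positivity, fun y hy => ?_⟩
  have h1 := (abs_le.1 (hC y hy)).1
  have h2 : ∑ p ∈ (Icc 1 y).filter (fun p => p.Prime ∧ p % q = a), (1 : ℝ) / p ≤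
      ∑ p ∈ (PN y).filter (BB d), (1 : ℝ) / p := by
    refine sum_le_sum_of_subset_of_nonneg ?_ fun p _ _ => by positivity
    intro p hp
    rw [mem_filter] at hp
    rw [mem_filter, mem_filter]
    exact ⟨⟨hp.1, hp.2.1⟩, hp.2.1, h p hp.2.1 hp.2.2⟩
  linarith

/-- the characters of the statement -/
lemma pos_char (e : Finset ℕ) (t : ZMod 2) (h : e.Nonempty ∨ t ≠ 0)
    (he : ∀ u ∈ e, u.Prime ∧ 7 ≤ u) : Pos fun p => t * aa p + ∑ u ∈ e, nr p u := by
  rcases e.eq_empty_or_nonempty with rfl | ⟨u₀, hu₀⟩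
  · have ht : t ≠ 0 := h.resolve_left (by simp)
    have ht1 : t = 1 := by
      revert ht
      revert t
      decide
    refine pos_of_class (q := 4) (a := 3) (by norm_num) (by norm_num) (by norm_num) ?_
    intro p hp hp4
    rw [sum_empty, add_zero, ht1, one_mul, Box.aa_three hp4]
    decide
  · have hu₀p := (he u₀ hu₀).1
    have hu₀7 := (he u₀ hu₀).2
    haveI : Fact u₀.Prime := ⟨hu₀p⟩
    haveI : NeZero u₀ := ⟨hu₀p.ne_zero⟩
    obtain ⟨n, hn⟩ := FiniteField.exists_nonsquare (F := ZMod u₀) (by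
      rw [ZMod.ringChar_zmod_n]
      omega)
    have h4 : ∀ u ∈ e, u ≠ 4 := by
      intro u hu h
      have := (he u hu).2
      omega
    have h4e : (4 : ℕ) ∉ e := fun h => h4 4 h rfl
    have hcop : Set.Pairwise ((insert 4 e : Finset ℕ) : Set ℕ) (Function.onFun Nat.Coprime id) := by
      intro i hi j hj hij
      rw [mem_coe, mem_insert] at hi hj
      have hodd : ∀ u ∈ e, Nat.Coprime 4 u := by
        intro u hu
        have h1 : Nat.Coprime 2 u := by
          rw [Nat.coprime_two_left]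
          exact (he u hu).1.odd_of_ne_two (by have := (he u hu).2; omega)
        have h2 : (4 : ℕ) = 2 ^ 2 := by norm_num
        rw [h2]
        exact Nat.Coprime.pow_left 2 h1
      show Nat.Coprime i j
      rcases hi with rfl | hi
      · rcases hj with rfl | hj
        · exact absurd rfl hij
        · exact hodd j hj
      · rcases hj with rfl | hj
        · exact (hodd i hi).symm
        · exact (Nat.coprime_primes (he i hi).1 (he j hj).1).2 hij
    obtain ⟨k, hk⟩ := Nat.chineseRemainderOfFinset (fun i => if i = u₀ then n.val else 1) id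
      (insert 4 e) (by
        intro i hi
        rw [mem_insert] at hi
        rcases hi with rfl | hi
        · norm_num
        · exact (he i hi).1.ne_zero) hcop
    set q : ℕ := ∏ i ∈ insert 4 e, i with hq
    have hq0 : 0 < q := by
      refine prod_pos fun i hi => ?_
      rw [mem_insert] at hi
      rcases hi with rfl | hi
      · norm_num
      · exact (he i hi).1.pos
    have hdiv : ∀ i ∈ insert 4 e, i ∣ q := fun i hi => dvd_prod_of_mem _ hi
    have hk4 : k ≡ 1 [MOD 4] := by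
      have h1 := hk 4 (mem_insert_self _ _)
      have hne : ¬ ((4 : ℕ) = u₀) := fun h => h4e (by rw [h]; exact hu₀)
      rwa [if_neg hne] at h1
    have hku₀ : k ≡ n.val [MOD u₀] := by
      have h1 := hk u₀ (mem_insert_of_mem hu₀)
      rwa [if_pos rfl] at h1
    have hku : ∀ u ∈ e, u ≠ u₀ → k ≡ 1 [MOD u] := by
      intro u hu hne
      have h1 := hk u (mem_insert_of_mem hu)
      rwa [if_neg hne] at h1
    have hn0 : n ≠ 0 := by
      rintro rfl
      exact hn ⟨0, by simp⟩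
    have hndvd : ¬ u₀ ∣ k := by
      intro h1
      have h2 : u₀ ∣ n.val := (hku₀.dvd_iff dvd_rfl).1 h1
      have h3 : n.val < u₀ := ZMod.val_lt n
      have h4 : n.val = 0 := Nat.eq_zero_of_dvd_of_lt h2 h3
      exact hn0 ((ZMod.val_eq_zero n).1 h4)
    have hkc : Nat.Coprime k q := by
      rw [hq]
      refine Nat.Coprime.prod_right fun i hi => ?_
      rw [mem_insert] at hi
      rcases hi with rfl | hi
      · show Nat.gcd k 4 = 1
        rw [hk4.gcd_eq]
        norm_num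
      · by_cases hne : i = u₀
        · rw [hne]
          exact ((Nat.Prime.coprime_iff_not_dvd hu₀p).2 hndvd).symm
        · show Nat.gcd k i = 1
          rw [(hku i hi hne).gcd_eq]
          exact Nat.gcd_one_left i
    refine pos_of_class (q := q) (a := k % q) hq0 (Nat.mod_lt _ hq0) ?_ ?_
    · rw [Nat.coprime_iff_gcd_eq_one, ← Nat.gcd_rec, Nat.gcd_comm]
      exact hkc
    · intro p hp hpq
      have hpk : ∀ i ∈ insert 4 e, p ≡ k [MOD i] := by
        intro i hi
        have h1 : p ≡ k [MOD q] := by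
          show p % q = k % q
          exact hpq
        exact h1.of_dvd (hdiv i hi)
      have hp4 : p % 4 = 1 := (hpk 4 (mem_insert_self _ _)).trans hk4
      have hp2 : p ≠ 2 := by omega
      have hval : ∀ u ∈ e, nr p u = if u = u₀ then 1 else 0 := by
        intro u hu
        have hup := (he u hu).1
        have hu2 : u ≠ 2 := by have := (he u hu).2; omega
        have hpu : p ≠ u := by
          rintro rfl
          have h1 := hpk p (mem_insert_of_mem hu)
          by_cases hne : p = u₀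
          · rw [hne] at h1
            exact hndvd ((h1.dvd_iff dvd_rfl).1 dvd_rfl)
          · have h2 := h1.trans (hku p hu hne)
            have h3 : p ∣ 1 := (h2.dvd_iff dvd_rfl).1 dvd_rfl
            exact hup.one_lt.ne' (Nat.dvd_one.1 h3)
        rw [Box.nr_rec hp hp2 hup hu2 hpu, Box.aa_one hp4, zero_mul, add_zero]
        unfold nr
        have h1 := hpk u (mem_insert_of_mem hu)
        by_cases hne : u = u₀
        · subst hne
          have h2 : (p : ZMod u) = n := by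
            rw [(ZMod.natCast_eq_natCast_iff _ _ _).2 (h1.trans hku₀), ZMod.natCast_zmod_val]
          rw [if_pos rfl, h2, if_neg hn]
        · have h2 : (p : ZMod u) = 1 := by
            have h3 := (ZMod.natCast_eq_natCast_iff _ _ _).2 (h1.trans (hku u hu hne))
            rw [h3, Nat.cast_one]
          rw [if_neg hne, h2, if_pos ⟨1, by simp⟩]
      show t * aa p + ∑ u ∈ e, nr p u ≠ 0
      rw [Box.aa_one hp4, mul_zero, zero_add, sum_congr rfl hval, sum_ite_eq' e u₀, if_pos hu₀]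
      decide

/-- the logarithmic density of a family -/
lemma LLB_sum (d : ℕ → ZMod 2) (X z : ℕ) (Q : Finset ℕ → Prop) (w : ℕ → ℝ) (M : ℝ)
    (hw : ∀ p, 0 ≤ w p) (hM : 0 ≤ M) (h1w : ∀ S ∈ LL X Q, 1 ≤ M * ∏ p ∈ S, w p)
    (hw1 : ∀ p, w p ≤ 1) (hB : ∀ p, BB d p → z < p → w p ≤ 1 / 4) :
    ∑ S ∈ LL X Q, (1 : ℝ) / ((∏ p ∈ S, p : ℕ) : ℝ) ≤ M *
      Real.exp (∑ p ∈ PN z, (1 : ℝ) / p + ∑ p ∈ PN X, (1 : ℝ) / p -
        3 / 4 * ∑ p ∈ (PN X).filter (BB d), (1 : ℝ) / p) := by
  have h1 : ∀ S ∈ LL X Q, (1 : ℝ) / ((∏ p ∈ S, p : ℕ) : ℝ) ≤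
      M * ∏ p ∈ S, (w p * (1 / p)) := by
    intro S hS
    have h2 := h1w S hS
    have h3 : (0 : ℝ) ≤ ∏ p ∈ S, (1 : ℝ) / p := prod_nonneg fun p _ => by positivity
    have h4 : (1 : ℝ) / ((∏ p ∈ S, p : ℕ) : ℝ) = ∏ p ∈ S, (1 : ℝ) / p := by
      rw [prod_div_distrib, prod_const_one]
      push_cast
      rfl
    rw [h4, prod_mul_distrib]
    calc ∏ p ∈ S, (1 : ℝ) / p = 1 * ∏ p ∈ S, (1 : ℝ) / p := (one_mul _).symm
      _ ≤ (M * ∏ p ∈ S, w p) * ∏ p ∈ S, (1 : ℝ) / p :=
          mul_le_mul_of_nonneg_right h2 h3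
      _ = _ := by ring
  refine (sum_le_sum h1).trans ?_
  rw [← mul_sum]
  apply mul_le_mul_of_nonneg_left _ hM
  have hnn : ∀ p : ℕ, 0 ≤ w p * (1 / (p : ℝ)) := fun p => mul_nonneg (hw p) (by positivity)
  have h5 : ∑ S ∈ LL X Q, ∏ p ∈ S, (w p * (1 / (p : ℝ))) ≤
      ∑ S ∈ (PN X).powerset, ∏ p ∈ S, (w p * (1 / (p : ℝ))) := by
    refine sum_le_sum_of_subset_of_nonneg ?_ fun S _ _ => prod_nonneg fun p _ => hnn p
    intro S hS
    rw [mem_LL] at hS
    rw [mem_powerset]
    intro p hp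
    have h6 := pr (hS.2.1 p hp)
    rw [mem_filter, mem_Icc]
    exact ⟨⟨h6.one_lt.le, le_of_mem_prod (fun p hp => pr (hS.2.1 p hp)) hS.2.2.1 hp⟩, h6⟩
  refine h5.trans ((euler _ _ fun p _ => hnn p).trans ?_)
  apply Real.exp_le_exp.2
  have h6 : ∀ p ∈ PN X, w p * (1 / (p : ℝ)) ≤
      (if p ≤ z then (1 : ℝ) / p else 0) + (1 : ℝ) / p -
        3 / 4 * (if BB d p then (1 : ℝ) / p else 0) := by
    intro p hp
    have hp0 : (0 : ℝ) ≤ 1 / p := by positivity
    have hw' : w p * (1 / (p : ℝ)) ≤ 1 / p := by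
      have := mul_le_mul_of_nonneg_right (hw1 p) hp0
      linarith
    by_cases hb : BB d p
    · rw [if_pos hb]
      by_cases hpz : p ≤ z
      · rw [if_pos hpz]
        linarith
      · rw [if_neg hpz]
        have := mul_le_mul_of_nonneg_right (hB p hb (not_le.1 hpz)) hp0
        linarith
    · rw [if_neg hb, mul_zero, sub_zero]
      split_ifs
      · linarith
      · linarith
  refine (sum_le_sum h6).trans ?_
  rw [sum_sub_distrib, sum_add_distrib, ← mul_sum, ← sum_filter, ← sum_filter]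
  have h7 : ∑ p ∈ (PN X).filter (fun p => p ≤ z), (1 : ℝ) / p ≤ ∑ p ∈ PN z, (1 : ℝ) / p := by
    refine sum_le_sum_of_subset_of_nonneg ?_ fun p _ _ => by positivity
    intro p hp
    rw [mem_filter, mem_filter, mem_Icc] at hp
    rw [mem_filter, mem_Icc]
    exact ⟨⟨hp.1.1.1, hp.2⟩, hp.1.2⟩
  linarith

/-- the condition on the large primes -/
def QQ (d : ℕ → ZMod 2) (c : ℝ) (X : ℕ) (S : Finset ℕ) : Prop :=
  ((la (zz X) S).filter fun p => d p ≠ 0).card ≤ ⌊c * eL X⌋₊

lemma QQ_sub {d : ℕ → ZMod 2} {c : ℝ} {X : ℕ} : ∀ S, QQ d c X S → ∀ T, T ⊆ S → QQ d c X T := by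
  intro S h T hT
  refine (card_le_card (filter_subset_filter _ ?_)).trans h
  unfold la
  exact filter_subset_filter _ hT

/-- sets with few large primes of the class -/
lemma part4 (hs : S_SIE) {d : ℕ → ZMod 2} {β C₃ : ℝ} (hβ : 0 < β)
    (hC₃ : ∀ y : ℕ, 3 ≤ y →
      β * Real.log (Real.log y) - C₃ ≤ ∑ p ∈ (PN y).filter (BB d), (1 : ℝ) / p) :
    ∃ C : ℝ, 0 ≤ C ∧ ∀ᶠ X : ℕ in atTop,
    ((LL X (QQ d (β / 4) X)).card : ℝ) ≤ C * X * Real.exp (-(β / 8) * eL X) := by
  obtain ⟨C, hC0, hC⟩ := mert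
  obtain ⟨C', hC'1, hC'⟩ := hs
  have hl4 : Real.log 4 * (β / 4) < 3 / 4 * β - β / 8 := by
    have h1 : (4 : ℝ) = 2 ^ 2 := by norm_num
    have h2 : Real.log 4 < 1.4 := by
      rw [h1, Real.log_pow]
      have := Real.log_two_lt_d9
      push_cast
      linarith
    nlinarith
  refine ⟨C' * Real.exp (C + C + |C₃|), by positivity, ?_⟩
  set η : ℝ := 3 / 4 * β - β / 8 - Real.log 4 * (β / 4) with hη
  have hε : 0 < η := by linarith
  filter_upwards [eL_tendsto.eventually (log_small 3 _ hε),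
    eL_tendsto.eventually (eventually_ge_atTop 2), eventually_ge_atTop 3] with X h1 h2 h3
  set l := eL X with hl
  have h4 := hC (zz X) (zz_ge h2)
  have h5 := loglog_zz h2
  have h6 := hC X h3
  have h6'' := hC₃ X h3
  rw [← hl] at h5
  change _ ≤ l + C at h6
  change β * l - C₃ ≤ _ at h6''
  have hC3a := le_abs_self C₃
  have hC3b := abs_nonneg C₃
  have h7 := hC' X (LL X (QQ d (β / 4) X)) (by omega)
    (fun S hS => ⟨fun p hp => pr ((mem_LL.1 hS).2.1 p hp), (mem_LL.1 hS).2.2.1⟩)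
    (fun S hS T hT => LL_sub QQ_sub hS hT)
  have h1w : ∀ S ∈ LL X (QQ d (β / 4) X), 1 ≤ Real.exp (Real.log 4 * (β / 4) * l) *
      ∏ p ∈ S, (if ¬ p ≤ zz X ∧ d p ≠ 0 then (1 / 4 : ℝ) else 1) := by
    intro S hS
    rw [mem_LL] at hS
    rw [← prod_filter, prod_const]
    have g1 : (S.filter fun p => ¬ p ≤ zz X ∧ d p ≠ 0).card ≤ ⌊β / 4 * l⌋₊ := by
      refine (card_le_card ?_).trans hS.2.2.2
      intro p hp
      rw [mem_filter] at hp
      unfold la
      rw [mem_filter, mem_filter]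
      exact ⟨⟨hp.1, hp.2.1⟩, hp.2.2⟩
    have g2 : (1 / 4 : ℝ) ^ ⌊β / 4 * l⌋₊ ≤ (1 / 4 : ℝ) ^
        (S.filter fun p => ¬ p ≤ zz X ∧ d p ≠ 0).card :=
      pow_le_pow_of_le_one (by norm_num) (by norm_num) g1
    have g3 : Real.exp (-(Real.log 4 * (β / 4) * l)) ≤ (1 / 4 : ℝ) ^ ⌊β / 4 * l⌋₊ := by
      have e1 : (1 / 4 : ℝ) = Real.exp (-Real.log 4) := by
        rw [Real.exp_neg, Real.exp_log (by norm_num)]
        norm_num
      rw [e1, ← Real.exp_nat_mul]
      apply Real.exp_le_exp.2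
      have e2 : ((⌊β / 4 * l⌋₊ : ℕ) : ℝ) ≤ β / 4 * l := Nat.floor_le (by
        have : 0 ≤ l := by linarith
        positivity)
      have e4 : 0 ≤ Real.log 4 := Real.log_nonneg (by norm_num)
      have e5 := mul_le_mul_of_nonneg_right e2 e4
      linarith
    calc (1 : ℝ) = Real.exp (Real.log 4 * (β / 4) * l) * Real.exp (-(Real.log 4 * (β / 4) * l)) := by
          rw [← Real.exp_add, add_neg_cancel, Real.exp_zero]
      _ ≤ _ := mul_le_mul_of_nonneg_left (g3.trans g2) (Real.exp_pos _).le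
  have h8 := LLB_sum d X (zz X) (QQ d (β / 4) X)
    (fun p => if ¬ p ≤ zz X ∧ d p ≠ 0 then (1 / 4 : ℝ) else 1)
    (Real.exp (Real.log 4 * (β / 4) * l))
    (fun p => by split_ifs <;> norm_num) (Real.exp_pos _).le h1w
    (fun p => by split_ifs <;> norm_num)
    (fun p hb hz => by
      rw [if_pos ⟨not_le.2 hz, hb.2⟩])
  have hlX : Real.log X = Real.exp l := by
    have := rpow_eq (X := X) h2 1
    rwa [Real.rpow_one, one_mul] at this
  rw [hlX] at h7
  have h12 : Real.exp (Real.log 4 * (β / 4) * l) * Real.exp (∑ p ∈ PN (zz X), (1 : ℝ) / p +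
      ∑ p ∈ PN X, (1 : ℝ) / p - 3 / 4 * ∑ p ∈ (PN X).filter (BB d), (1 : ℝ) / p) ≤
      Real.exp (C + C + |C₃|) * Real.exp ((-(β / 8) + 1) * l) := by
    rw [← Real.exp_add, ← Real.exp_add]
    apply Real.exp_le_exp.2
    have e1 : ∑ p ∈ PN (zz X), (1 : ℝ) / p ≤ 3 * Real.log l + C := by linarith
    have e3 : η * l = (3 / 4 * β - β / 8) * l - Real.log 4 * (β / 4) * l := by rw [hη]; ring
    linarith
  have h13 : ((LL X (QQ d (β / 4) X)).card : ℝ) * Real.exp l ≤
      C' * X * (Real.exp (C + C + |C₃|) * Real.exp ((-(β / 8) + 1) * l)) := by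
    refine h7.trans ?_
    exact mul_le_mul_of_nonneg_left (h8.trans h12) (by positivity)
  have h14 : (C' * Real.exp (C + C + |C₃|) * X * Real.exp (-(β / 8) * l)) * Real.exp l =
      C' * X * (Real.exp (C + C + |C₃|) * Real.exp ((-(β / 8) + 1) * l)) := by
    have : Real.exp ((-(β / 8) + 1) * l) = Real.exp (-(β / 8) * l) * Real.exp l := by
      rw [← Real.exp_add]
      congr 1
      ring
    rw [this]
    ring
  rw [← h14] at h13
  exact le_of_mul_le_mul_right h13 (Real.exp_pos _)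

/-- sets with many small primes -/
lemma part1' {a : ℝ} (ha : 0 < a) : ∃ C : ℝ, 0 ≤ C ∧ ∀ᶠ X : ℕ in atTop,
    (((SS X).filter fun S => a * eL X < ((sm (zz X) S).card : ℝ)).card : ℝ) ≤
      C * X * Real.exp (-(4 / 5) * eL X) := by
  obtain ⟨C, hC0, hC⟩ := mert
  set κ : ℝ := Real.exp (1 / a) with hκ
  have κ0 : 0 < κ := Real.exp_pos _
  refine ⟨Real.exp (κ * C), (Real.exp_pos _).le, ?_⟩
  filter_upwards [eL_tendsto.eventually (log_small (3 * κ) (1 / 5) (by norm_num)),
    eL_tendsto.eventually (eventually_ge_atTop 2)] with X h1 h2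
  have h3 := moment X (zz X) (SS X)
    (fun S hS => ⟨fun p hp => pr ((SS_mem hS).1 p hp), (SS_mem hS).2⟩) κ κ0.le
  have h4 := hC (zz X) (zz_ge h2)
  have h5 := loglog_zz h2
  have h6 : (((SS X).filter fun S => a * eL X < ((sm (zz X) S).card : ℝ)).card : ℝ) *
      Real.exp (eL X) ≤ ∑ S ∈ SS X, κ ^ (sm (zz X) S).card := by
    rw [← nsmul_eq_mul, ← sum_const]
    refine le_trans ?_ (sum_le_sum_of_subset_of_nonneg
      (filter_subset (fun S => a * eL X < ((sm (zz X) S).card : ℝ)) (SS X))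
      fun S _ _ => by positivity)
    refine sum_le_sum fun S hS => ?_
    rw [mem_filter] at hS
    rw [hκ, ← Real.exp_nat_mul]
    apply Real.exp_le_exp.2
    have h7 := hS.2
    rw [mul_one_div, le_div_iff₀ ha]
    linarith
  have h7 := h6.trans h3
  have h8 : κ * ∑ p ∈ PN (zz X), (1 : ℝ) / p ≤ κ * C + 1 / 5 * eL X := by
    have : κ * ∑ p ∈ PN (zz X), (1 : ℝ) / p ≤ κ * (3 * Real.log (eL X) + C) :=
      mul_le_mul_of_nonneg_left (by linarith) κ0.le
    nlinarith
  have h9 : (X : ℝ) * Real.exp (κ * ∑ p ∈ PN (zz X), (1 : ℝ) / p) ≤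
      X * (Real.exp (κ * C) * Real.exp (1 / 5 * eL X)) := by
    rw [← Real.exp_add]
    exact mul_le_mul_of_nonneg_left (Real.exp_le_exp.2 h8) (Nat.cast_nonneg _)
  have h10 := h7.trans h9
  have h11 : (Real.exp (κ * C) * X * Real.exp (-(4 / 5) * eL X)) * Real.exp (eL X) =
      X * (Real.exp (κ * C) * Real.exp (1 / 5 * eL X)) := by
    have : Real.exp (1 / 5 * eL X) = Real.exp (-(4 / 5) * eL X) * Real.exp (eL X) := by
      rw [← Real.exp_add]
      congr 1
      ring
    rw [this]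
    ring
  rw [← h11] at h10
  exact le_of_mul_le_mul_right h10 (Real.exp_pos _)

/-- few sets have few large primes with `d p ≠ 0` -/
theorem few (hs : S_SIE) {d : ℕ → ZMod 2} (hd : Pos d) (R : ℕ) :
    Sml 0 fun X => (((SS X).filter fun S => ((la (zz X) S).filter fun p => d p ≠ 0).card ≤
      R * ((sm (zz X) S).card + R + 1)).card : ℝ) := by
  obtain ⟨β₀, B₀, hβ₀, hC₀⟩ := hd
  set β : ℝ := min β₀ (1 / 4) with hβd
  have hβ : 0 < β := lt_min hβ₀ (by norm_num)
  have hβ1 : β ≤ 1 / 4 := min_le_right _ _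
  have hll : ∀ y : ℕ, 3 ≤ y → 0 ≤ Real.log (Real.log y) := by
    intro y hy
    apply Real.log_nonneg
    rw [Real.le_log_iff_exp_le (by positivity)]
    have h1 := Real.exp_one_lt_d9
    have h2 : (3 : ℝ) ≤ y := by exact_mod_cast hy
    linarith
  have hC₃ : ∀ y : ℕ, 3 ≤ y →
      β * Real.log (Real.log y) - B₀ ≤ ∑ p ∈ (PN y).filter (BB d), (1 : ℝ) / p := by
    intro y hy
    have h1 := hC₀ y hy
    have h2 := mul_le_mul_of_nonneg_right (min_le_left β₀ (1 / 4)) (hll y hy)
    rw [← hβd] at h2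
    linarith
  have hR : (0 : ℝ) < (R : ℝ) + 1 := by positivity
  set a : ℝ := β / (8 * ((R : ℝ) + 1)) with ha
  have ha0 : 0 < a := by positivity
  have haR : (R : ℝ) * a ≤ β / 8 := by
    have h1 : ((R : ℝ) + 1) * a = β / 8 := by rw [ha]; field_simp
    nlinarith
  obtain ⟨C₁, hC₁, h1⟩ := part1' (a := a) ha0
  obtain ⟨C₃, hC₃', h3⟩ := part4 hs hβ hC₃
  refine Pool.Agent.Y703.CQ.sml_of (C := C₁ + C₃) (a := β / 8) (by positivity) ?_
  filter_upwards [h1, h3, eL_tendsto.eventually (eventually_ge_atTop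
    (max 2 (8 * ((R : ℝ) * (R + 1)) / β)))] with X h5 h7 h8
  have h9 : 2 ≤ eL X := (le_max_left _ _).trans h8
  have h10 : 8 * ((R : ℝ) * (R + 1)) ≤ eL X * β :=
    (div_le_iff₀ hβ).1 ((le_max_right _ _).trans h8)
  have h11 : ((SS X).filter fun S => ((la (zz X) S).filter fun p => d p ≠ 0).card ≤
      R * ((sm (zz X) S).card + R + 1)) ⊆
      ((SS X).filter fun S => a * eL X < ((sm (zz X) S).card : ℝ)) ∪
        LL X (QQ d (β / 4) X) := by
    intro S hS
    rw [mem_filter] at hS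
    rw [mem_union, mem_filter]
    by_cases hc : a * eL X < ((sm (zz X) S).card : ℝ)
    · exact Or.inl ⟨hS.1, hc⟩
    · right
      rw [not_lt] at hc
      refine mem_LL_of hS.1 ?_
      apply Nat.le_floor
      have h12 : ((((la (zz X) S).filter fun p => d p ≠ 0).card : ℕ) : ℝ) ≤
          R * ((sm (zz X) S).card + R + 1) := by
        exact_mod_cast hS.2
      have h13 : (R : ℝ) * ((sm (zz X) S).card : ℝ) ≤ R * (a * eL X) :=
        mul_le_mul_of_nonneg_left hc (Nat.cast_nonneg _)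
      have h14 : (R : ℝ) * a * eL X ≤ β / 8 * eL X :=
        mul_le_mul_of_nonneg_right haR (by linarith)
      nlinarith
  have h12 : (((SS X).filter fun S => ((la (zz X) S).filter fun p => d p ≠ 0).card ≤
      R * ((sm (zz X) S).card + R + 1)).card : ℝ) ≤
      (((SS X).filter fun S => a * eL X < ((sm (zz X) S).card : ℝ)).card : ℝ) +
      ((LL X (QQ d (β / 4) X)).card : ℝ) := by
    exact_mod_cast (card_le_card h11).trans (card_union_le _ _)
  have h13 : C₁ * X * Real.exp (-(4 / 5) * eL X) ≤ C₁ * X * Real.exp (-(β / 8) * eL X) := by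
    apply mul_le_mul_of_nonneg_left _ (by positivity)
    apply Real.exp_le_exp.2
    apply mul_le_mul_of_nonneg_right _ (by linarith)
    linarith
  refine h12.trans ((add_le_add (h5.trans h13) h7).trans (le_of_eq ?_))
  ring

end JFew

theorem t_JFEW : S_JFEW := by
  intro hs _ _ e t R h he
  exact JFew.few hs (JFew.pos_char e t h he) R

end Pool.Agent.H735X
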