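import Pool.Agent.H735X.JasA
import Pool.Agent.H757_X15.DN.LA1

/-! Project XJ: the assembly of the joint linear algebra. -/

set_option autoImplicit false

open scoped Classical

namespace Pool.Agent.H735X

open Finset
open Pool.Agent.Y703.CQ (prs)
open Pool.Agent.H757_X15.DD
open Pool.Agent.H757_X15.DD.LA4

namespace JAS

lemma sq_bd (M m : ℕ) (r j : Fin M → ℕ) (hj : ∀ i, j i ≤ m) :
    (∏ i, Tt (r i) (j i)) ^ 2 ≤ 1 + ∑ i, (2 : ℝ) ^ (r i * (2 * M * m)) := by
  have h1 : ∏ i, Tt (r i) (j i) ≤ 2 ^ (m * ∑ i, r i) := by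
    rw [mul_sum, ← prod_pow_eq_pow_sum]
    refine prod_le_prod (fun i _ => Tt_nonneg _ _) fun i _ => (Tt_le _ _).trans ?_
    refine pow_le_pow_right₀ (by norm_num) ?_
    rw [mul_comm]
    exact Nat.mul_le_mul_right _ (hj i)
  have h0 : 0 ≤ ∏ i, Tt (r i) (j i) := prod_nonneg fun i _ => Tt_nonneg _ _
  have h2 : (∏ i, Tt (r i) (j i)) ^ 2 ≤ 2 ^ (2 * (m * ∑ i, r i)) := by
    rw [mul_comm 2, pow_mul]
    exact pow_le_pow_left₀ h0 h1 2
  refine h2.trans ?_
  rcases Nat.eq_zero_or_pos M with rfl | hM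
  · simp
  · have : Nonempty (Fin M) := ⟨⟨0, hM⟩⟩
    obtain ⟨i0, -, hi0⟩ := exists_max_image (univ : Finset (Fin M)) r univ_nonempty
    have h3 : ∑ i, r i ≤ M * r i0 := by
      have := sum_le_card_nsmul univ r (r i0) fun i _ => hi0 i (mem_univ i)
      simpa using this
    have h4 : (2 : ℝ) ^ (2 * (m * ∑ i, r i)) ≤ 2 ^ (r i0 * (2 * M * m)) := by
      refine pow_le_pow_right₀ (by norm_num) ?_
      calc 2 * (m * ∑ i, r i) ≤ 2 * (m * (M * r i0)) :=
            Nat.mul_le_mul_left _ (Nat.mul_le_mul_left _ h3)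
        _ = r i0 * (2 * M * m) := by ring
    have h5 : (2 : ℝ) ^ (r i0 * (2 * M * m)) ≤ ∑ i, (2 : ℝ) ^ (r i * (2 * M * m)) :=
      single_le_sum (f := fun i => (2 : ℝ) ^ (r i * (2 * M * m))) (fun i _ => by positivity)
        (mem_univ i0)
    linarith

/-- the abstract assembly -/
lemma absP (h1 : S_LA1) (hB : S_BON) (M : ℕ) (ε : ℝ) (hε : 0 < ε) : ∃ η : ℝ, 0 < η ∧
    ∀ (Ω : Type) [Fintype Ω] (r : Fin M → Ω → ℕ) (Bad : Ω → Prop)
      (X : (Fin M → ℕ) → Ω → ℝ) (W : ℝ), 0 < W → (Fintype.card Ω : ℝ) = W →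
      (∀ j α, X j α ≤ ∏ i, Tt (r i α) (j i)) →
      (∀ j α, ¬ Bad α → X j α = ∏ i, Tt (r i α) (j i)) →
      (∀ j α, 0 ≤ X j α) →
      (∀ j, |(∑ α, X j α) / W - 1| ≤ 2 ^ ((∑ i, j i + 1) ^ 2) * η) →
      ((univ.filter Bad).card : ℝ) ≤ η * W →
      (∀ i j, ∑ α, Tt (r i α) j ≤ W * 2 ^ (j.choose 2)) →
      |((univ.filter fun α => ∀ i, r i α = 0).card : ℝ) / W - c1 ^ M| ≤ ε := by
  obtain ⟨m, hm, hA, hT⟩ := params h1 M (ε / 4) (by positivity)
  have hP0 : ∀ j, 0 < PP j := fun j => lt_of_lt_of_le one_pos (one_le_PP j)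
  set s := 2 * M * m with hs
  set G : ℝ := 1 + M * ∑ j ∈ range (s + 1), (2 : ℝ) ^ (s * j) * 2 ^ (j.choose 2) with hG
  have hG1 : 1 ≤ G := by
    have : 0 ≤ (M : ℝ) * ∑ j ∈ range (s + 1), (2 : ℝ) ^ (s * j) * 2 ^ (j.choose 2) := by positivity
    linarith
  set K : ℝ := ((Av M m).card : ℝ) with hK
  have hK0 : 0 ≤ K := Nat.cast_nonneg _
  set δ : ℝ := min 1 (ε / (4 * (K + 1))) with hδ
  have hδ0 : 0 < δ := lt_min one_pos (by positivity)
  have hδ1 : δ ≤ 1 := min_le_left _ _
  have hδ2 : K * δ ≤ ε / 4 := by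
    have h2 : δ ≤ ε / (4 * (K + 1)) := min_le_right _ _
    calc K * δ ≤ (K + 1) * (ε / (4 * (K + 1))) := by
          exact mul_le_mul (by linarith) h2 hδ0.le (by linarith)
      _ = ε / 4 := by field_simp
  set lam : ℝ := 3 * G / δ with hlam
  have hlam0 : 0 < lam := by positivity
  set E : ℝ := 2 ^ ((M * m + 1) ^ 2) with hE
  have hE0 : 0 < E := by positivity
  set η : ℝ := δ / (3 * (E + lam)) with hη
  have hη0 : 0 < η := by positivity
  have hEη : E * η ≤ δ / 3 := by
    rw [hη, mul_div_assoc', div_le_div_iff₀ (by positivity) (by norm_num)]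
    nlinarith
  have hlη : lam * η ≤ δ / 3 := by
    rw [hη, mul_div_assoc', div_le_div_iff₀ (by positivity) (by norm_num)]
    nlinarith
  have hGl : G / lam = δ / 3 := by
    rw [hlam]
    field_simp
  refine ⟨η, hη0, fun Ω _ r Bad X W hW hcard hX1 hX2 hX0 hmom hbad hsng => ?_⟩
  -- the second moments
  have hsec : ∀ j : Fin M → ℕ, (∀ i, j i ≤ m) → ∑ α, (∏ i, Tt (r i α) (j i)) ^ 2 ≤ G * W := by
    intro j hj
    refine (sum_le_sum fun α _ => sq_bd M m (fun i => r i α) j hj).trans ?_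
    rw [sum_add_distrib, sum_const, card_univ, nsmul_eq_mul, mul_one, hcard, sum_comm]
    have e1 : ∀ i : Fin M, ∑ α, (2 : ℝ) ^ (r i α * (2 * M * m)) ≤
        W * ∑ j ∈ range (s + 1), (2 : ℝ) ^ (s * j) * 2 ^ (j.choose 2) := by
      intro i
      calc ∑ α, (2 : ℝ) ^ (r i α * s) ≤ ∑ α, ∑ j ∈ range (s + 1), 2 ^ (s * j) * Tt (r i α) j :=
            sum_le_sum fun α _ => hB.2 (r i α) s
        _ = ∑ j ∈ range (s + 1), 2 ^ (s * j) * ∑ α, Tt (r i α) j := by
            rw [sum_comm]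
            exact sum_congr rfl fun j _ => by rw [mul_sum]
        _ ≤ ∑ j ∈ range (s + 1), 2 ^ (s * j) * (W * 2 ^ (j.choose 2)) :=
            sum_le_sum fun j _ => mul_le_mul_of_nonneg_left (hsng i j) (by positivity)
        _ = W * ∑ j ∈ range (s + 1), (2 : ℝ) ^ (s * j) * 2 ^ (j.choose 2) := by
            rw [mul_sum]
            exact sum_congr rfl fun j _ => by ring
    have e2 := sum_le_sum fun i (_ : i ∈ (univ : Finset (Fin M))) => e1 i
    rw [sum_const, card_univ, Fintype.card_fin, nsmul_eq_mul] at e2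
    rw [hG]
    linarith
  -- the mixed moments
  have hT1 : ∀ j : Fin M → ℕ, (∀ i, j i ≤ m) →
      |(∑ α, ∏ i, Tt (r i α) (j i)) / W - 1| ≤ δ := by
    intro j hj
    have h2 : ∑ α, ∏ i, Tt (r i α) (j i) - ∑ α, X j α ≤ lam * (η * W) + G * W / lam := by
      rw [← sum_sub_distrib]
      calc ∑ α, (∏ i, Tt (r i α) (j i) - X j α)
          ≤ ∑ α, ((if Bad α then lam else 0) + (∏ i, Tt (r i α) (j i)) ^ 2 / lam) := by
            refine sum_le_sum fun α _ => ?_
            have hY0 : 0 ≤ ∏ i, Tt (r i α) (j i) := prod_nonneg fun i _ => Tt_nonneg _ _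
            by_cases hb : Bad α
            · rw [if_pos hb]
              have h3 := hX0 j α
              have h4 : ∏ i, Tt (r i α) (j i) ≤ lam + (∏ i, Tt (r i α) (j i)) ^ 2 / lam := by
                rcases le_or_gt (∏ i, Tt (r i α) (j i)) lam with h5 | h5
                · have : 0 ≤ (∏ i, Tt (r i α) (j i)) ^ 2 / lam := by positivity
                  linarith
                · have : ∏ i, Tt (r i α) (j i) ≤ (∏ i, Tt (r i α) (j i)) ^ 2 / lam := by
                    rw [le_div_iff₀ hlam0, pow_two]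
                    exact mul_le_mul_of_nonneg_left h5.le hY0
                  linarith
              linarith
            · rw [if_neg hb, hX2 j α hb]
              have : 0 ≤ (∏ i, Tt (r i α) (j i)) ^ 2 / lam := by positivity
              linarith
        _ = lam * ((univ.filter Bad).card : ℝ) + (∑ α, (∏ i, Tt (r i α) (j i)) ^ 2) / lam := by
            rw [sum_add_distrib, ← sum_div, ← sum_filter, sum_const, nsmul_eq_mul]
            ring
        _ ≤ lam * (η * W) + G * W / lam := by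
            refine add_le_add (mul_le_mul_of_nonneg_left hbad hlam0.le) ?_
            exact div_le_div_of_nonneg_right (hsec j hj) hlam0.le
    have h3 : ∑ α, X j α ≤ ∑ α, ∏ i, Tt (r i α) (j i) := sum_le_sum fun α _ => hX1 j α
    have h4 : |(∑ α, X j α) / W - 1| ≤ δ / 3 := by
      refine (hmom j).trans (le_trans ?_ hEη)
      refine mul_le_mul_of_nonneg_right ?_ hη0.le
      rw [hE]
      refine pow_le_pow_right₀ (by norm_num) ?_
      refine Nat.pow_le_pow_left ?_ 2
      have h9 : ∑ i, j i ≤ M * m := by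
        have := sum_le_card_nsmul univ (fun i => j i) m fun i _ => hj i
        simpa only [card_univ, Fintype.card_fin, smul_eq_mul] using this
      omega
    have h5 : (∑ α, ∏ i, Tt (r i α) (j i)) / W ≤ (∑ α, X j α) / W + (δ / 3 + δ / 3) := by
      rw [div_add' _ _ _ hW.ne']
      refine div_le_div_of_nonneg_right ?_ hW.le
      have e1 : lam * (η * W) ≤ δ / 3 * W := by
        rw [← mul_assoc]
        exact mul_le_mul_of_nonneg_right hlη hW.le
      have e2 : G * W / lam = δ / 3 * W := by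
        rw [mul_div_right_comm, hGl]
      linarith
    have h6 : (∑ α, X j α) / W ≤ (∑ α, ∏ i, Tt (r i α) (j i)) / W :=
      div_le_div_of_nonneg_right h3 hW.le
    rw [abs_le] at h4 ⊢
    constructor <;> linarith [h4.1, h4.2]
  -- the sum of the pointwise inequality
  set T : (Fin M → ℕ) → ℝ := fun j => (∑ α, ∏ i, Tt (r i α) (j i)) / W with hTd
  set cf : (Fin M → ℕ) → ℝ := fun j => ∏ i, (-1 : ℝ) ^ (j i) / PP (j i) with hcf
  set cp : (Fin M → ℕ) → ℝ := fun j => ∏ l, 1 / PP (j l) with hcp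
  have hmain : |((univ.filter fun α => ∀ i, r i α = 0).card : ℝ) / W - ∑ j ∈ Av M m, cf j * T j| ≤
      ∑ i, ∑ j ∈ Tv M m i, cp j * T j := by
    have e1 : ((univ.filter fun α => ∀ i, r i α = 0).card : ℝ) =
        ∑ α, (if ∀ i, r i α = 0 then (1 : ℝ) else 0) := by
      rw [card_filter]
      push_cast
      rfl
    have e2 : ∑ j ∈ Av M m, cf j * T j =
        (∑ α, ∑ j ∈ Av M m, cf j * ∏ i, Tt (r i α) (j i)) / W := by
      rw [sum_comm, sum_div]
      refine sum_congr rfl fun j _ => ?_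
      rw [← mul_sum, hTd]
      ring
    have e3 : ∑ i, ∑ j ∈ Tv M m i, cp j * T j =
        (∑ α, ∑ i, ∑ j ∈ Tv M m i, cp j * ∏ l, Tt (r l α) (j l)) / W := by
      rw [sum_comm, sum_div]
      refine sum_congr rfl fun i _ => ?_
      rw [sum_comm, sum_div]
      refine sum_congr rfl fun j _ => ?_
      rw [← mul_sum, hTd]
      ring
    rw [e1, e2, e3, ← sub_div, abs_div, abs_of_pos hW, ← sum_sub_distrib]
    refine div_le_div_of_nonneg_right ?_ hW.le
    refine (abs_sum_le_sum_abs _ _).trans (sum_le_sum fun α _ => ?_)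
    exact point hB M m hm fun i => r i α
  have hcp0 : ∀ j, 0 ≤ cp j := fun j =>
    prod_nonneg fun l _ => div_nonneg zero_le_one (hP0 _).le
  have hcf1 : ∀ j, |cf j| ≤ 1 := by
    intro j
    rw [hcf]
    simp only
    rw [abs_prod]
    refine prod_le_one (fun i _ => abs_nonneg _) fun i _ => ?_
    rw [abs_div, abs_pow, abs_neg, abs_one, one_pow, abs_of_pos (hP0 _)]
    rw [div_le_one (hP0 _)]
    exact one_le_PP _
  have hb1 : ∑ i, ∑ j ∈ Tv M m i, cp j * T j ≤ ε / 2 := by
    calc ∑ i, ∑ j ∈ Tv M m i, cp j * T j ≤ ∑ i, ∑ j ∈ Tv M m i, cp j * 2 := by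
          refine sum_le_sum fun i _ => sum_le_sum fun j hj => ?_
          refine mul_le_mul_of_nonneg_left ?_ (hcp0 j)
          have := (abs_le.1 (hT1 j (mem_Tv hj))).2
          rw [hTd]
          simp only
          linarith
      _ = (∑ i, ∑ j ∈ Tv M m i, cp j) * 2 := by
          rw [sum_mul]
          exact sum_congr rfl fun i _ => by rw [sum_mul]
      _ ≤ ε / 2 := by
          have : ∑ i, ∑ j ∈ Tv M m i, cp j ≤ ε / 4 := hT
          linarith
  have hb2 : |∑ j ∈ Av M m, cf j * T j - ∑ j ∈ Av M m, cf j| ≤ ε / 4 := by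
    rw [← sum_sub_distrib]
    refine (abs_sum_le_sum_abs _ _).trans (le_trans ?_ hδ2)
    rw [hK, ← nsmul_eq_mul]
    refine sum_le_card_nsmul _ _ _ fun j hj => ?_
    have e1 : cf j * T j - cf j = cf j * (T j - 1) := by ring
    rw [e1, abs_mul]
    have e2 := hT1 j fun i => (mem_Av.1 hj i).le
    calc |cf j| * |T j - 1| ≤ 1 * δ := mul_le_mul (hcf1 j) e2 (abs_nonneg _) zero_le_one
      _ = δ := one_mul _
  have hb3 : |∑ j ∈ Av M m, cf j - c1 ^ M| ≤ ε / 4 := hA
  have h7 := hmain.trans hb1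
  rw [abs_le] at h7 hb2 hb3 ⊢
  constructor <;> linarith [h7.1, h7.2, hb2.1, hb2.2, hb3.1, hb3.2]

end JAS

open JAS in
/-- JLA-9: the assembly. -/
theorem t_JAS : S_JAS := by
  intro hMOM hDEPB hSPL hSNG hBON M ε hε
  obtain ⟨η, hη, H⟩ := absP t_LA1 hBON M ε hε
  obtain ⟨t, ht⟩ := exists_pow_lt_of_lt_one (show (0 : ℝ) < η / 2 by positivity)
    (show (1 / 2 : ℝ) < 1 by norm_num)
  refine ⟨M * (M + 3) + 3 + t, ?_⟩
  intro J _ _ F m hF
  set R := M * (M + 3) + 3 + t with hR
  set P := (prs (univ : Finset J)).card with hP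
  choose s hs using hSPL M J F m (R * (m + 1)) hF
  have hcard : (Fintype.card (prs (univ : Finset J) → ZMod 2) : ℝ) = 2 ^ P := by
    rw [Fintype.card_fun, ZMod.card, Fintype.card_coe]
    push_cast
    rfl
  have hTT : ∀ i α j, (TT (F.K i α) j : ℝ) = Tt (Module.finrank (ZMod 2) (F.K i α)) j := by
    intro i α j
    exact TT_eq _ (fun w hw => KK_inj _ _ _ _ _ _ _ (hF.nd i) w hw) j
  have h2t : (2 : ℝ) * (1 / 2) ^ t ≤ η := by linarith
  have key := H (prs (univ : Finset J) → ZMod 2)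
    (fun i α => Module.finrank (ZMod 2) (F.K i α)) (fun α => F.Bad α)
    (fun j α => (F.XN (s j) α : ℝ)) (2 ^ P) (by positivity) hcard ?_ ?_ ?_ ?_ ?_ ?_
  · have e1 : (univ.filter fun α : prs (univ : Finset J) → ZMod 2 => ∀ i,
        GdA (F.A i) (F.C i) (F.f i) (F.b i) F.g F.h (Pool.Agent.H757_X15.DD.rec F.g α)) =
        univ.filter fun α : prs (univ : Finset J) → ZMod 2 => ∀ i,
          Module.finrank (ZMod 2) (F.K i α) = 0 := by
      refine filter_congr fun α _ => forall_congr' fun i => ?_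
      rw [GdA_iff, Submodule.finrank_eq_zero]
      rfl
    rw [e1]
    exact key
  · intro j α
    have h1 := (hs j α).1
    have h2 : (F.XN (s j) α : ℝ) ≤ ((∏ i, TT (F.K i α) (j i) : ℕ) : ℝ) := by exact_mod_cast h1
    push_cast at h2
    simpa only [hTT] using h2
  · intro j α hb
    have h1 := (hs j α).2 hb
    have h2 : (F.XN (s j) α : ℝ) = ((∏ i, TT (F.K i α) (j i) : ℕ) : ℝ) := by exact_mod_cast h1
    push_cast at h2
    simpa only [hTT] using h2
  · intro j α
    exact Nat.cast_nonneg _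
  · intro j
    have h1 := hMOM M J F m (R * (m + 1)) hF (∑ i, j i) (s j)
    refine h1.trans ?_
    rw [mul_div_assoc]
    refine mul_le_mul_of_nonneg_left ?_ (by positivity)
    refine le_trans ?_ h2t
    rw [div_le_iff₀ (by positivity)]
    have e2 : (2 : ℝ) * (1 / 2) ^ t * 2 ^ (R * (m + 1)) = 2 ^ (R * (m + 1) + 1 - t) := by
      have e3 : R * (m + 1) + 1 = (R * (m + 1) + 1 - t) + t := by
        have : t ≤ R * (m + 1) := le_trans (by omega) (Nat.le_mul_of_pos_right R (Nat.succ_pos m))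
        omega
      have e4 : (2 : ℝ) * 2 ^ (R * (m + 1)) = 2 ^ (R * (m + 1) + 1) := by ring
      calc (2 : ℝ) * (1 / 2) ^ t * 2 ^ (R * (m + 1)) = (2 * 2 ^ (R * (m + 1))) * (1 / 2) ^ t := by
            ring
        _ = 2 ^ (R * (m + 1) + 1 - t) * (2 ^ t * (1 / 2) ^ t) := by
            rw [e4, ← mul_assoc, ← pow_add, ← e3]
        _ = _ := by
            rw [← mul_pow]
            norm_num
    rw [e2]
    refine pow_le_pow_right₀ (by norm_num) ?_
    have : (3 + t) * (m + 1) ≤ R * (m + 1) := Nat.mul_le_mul_right _ (by omega)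
    have e5 : (3 + t) * (m + 1) = 3 * m + 3 + t * m + t := by ring
    have : 0 ≤ t * m := Nat.zero_le _
    omega
  · have h1 := hDEPB M J F m (R * (m + 1)) hF
    have h3 : (2 : ℝ) ^ (M * (m + M + 3)) ≤ η * 2 ^ (R * (m + 1)) := by
      refine le_trans ?_ (mul_le_mul_of_nonneg_right h2t (by positivity))
      have e3 : R * (m + 1) = (R * (m + 1) - t) + t := by
        have : t ≤ R * (m + 1) := le_trans (by omega) (Nat.le_mul_of_pos_right R (Nat.succ_pos m))
        omega
      have e2 : (2 : ℝ) * (1 / 2) ^ t * 2 ^ (R * (m + 1)) = 2 * 2 ^ (R * (m + 1) - t) := by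
        calc (2 : ℝ) * (1 / 2) ^ t * 2 ^ (R * (m + 1)) =
              2 * (1 / 2) ^ t * (2 ^ (R * (m + 1) - t) * 2 ^ t) := by
                rw [← pow_add, ← e3]
          _ = 2 * 2 ^ (R * (m + 1) - t) * (2 ^ t * (1 / 2) ^ t) := by ring
          _ = _ := by
            rw [← mul_pow]
            norm_num
      rw [e2]
      have e4 : (2 : ℝ) ^ (M * (m + M + 3)) ≤ 2 ^ (R * (m + 1) - t) := by
        refine pow_le_pow_right₀ (by norm_num) ?_
        have e6 : R * (m + 1) = M * (M + 3) * (m + 1) + 3 * (m + 1) + t * m + t := by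
          rw [hR]; ring
        have e7 : M * (m + M + 3) ≤ M * (M + 3) * (m + 1) := by
          rw [mul_assoc]
          refine Nat.mul_le_mul_left _ ?_
          nlinarith [Nat.zero_le (M * m)]
        omega
      have : (0 : ℝ) ≤ 2 ^ (R * (m + 1) - t) := by positivity
      linarith
    have h4 : ((univ.filter fun α : prs (univ : Finset J) → ZMod 2 => F.Bad α).card : ℝ) *
        2 ^ (R * (m + 1)) ≤ (η * 2 ^ P) * 2 ^ (R * (m + 1)) := by
      refine h1.trans ?_
      calc (2 : ℝ) ^ P * 2 ^ (M * (m + M + 3)) ≤ 2 ^ P * (η * 2 ^ (R * (m + 1))) :=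
            mul_le_mul_of_nonneg_left h3 (by positivity)
        _ = _ := by ring
    exact le_of_mul_le_mul_right h4 (by positivity)
  · intro i j
    have h1 := hSNG M J F m (R * (m + 1)) hF i j
    simpa only [hTT] using h1

end Pool.Agent.H735X
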