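import Pool.Agent.H735X.Sym
import Pool.Agent.H757_X15.DN.Key

/-! Project XJ, JKEY: the sum over the boxes (after `Pool.Agent.H757_X15.DN.Key`). -/

set_option autoImplicit false
set_option linter.unusedVariables false

open scoped Classical

namespace Pool.Agent.H735X.JK

open Finset
open Pool.Agent.Y703.CX (sm la jj XX eL zz kk S_SIE)
open Pool.Agent.Y703.CQ (nr sg prs HB ext S_EQ Sml)
open Pool.Agent.H757_X15.DD
open Pool.Agent.H757_X15.DD.KEY (ph ky CC mem_CC CC_facts CC_disj sm_fill la_fill ky_fill ph_fill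
  im_fill inj_fill inj_ph hb_box fm_mod prod_mod)
open Pool.Agent.Y703.CQ.K302 (le_XX sm_la_card sm_la_prod root12 prs_card card_sub TT mem_TT harm_TT)

/-- the keys which occur -/
structure KP (X z H k : ℕ) (S₀ : Finset ℕ) (J : Finset (ℕ × ℕ)) : Prop where
  cl : ∀ q ∈ S₀, q.Prime ∧ q ≠ 2
  le : ∀ q ∈ S₀, q ≤ z
  fm : Fm ((∏ p ∈ S₀, p) * ∏ e ∈ J, e.2)
  inj : Set.InjOn Prod.fst (J : Set (ℕ × ℕ))
  card : S₀.card + J.card ≤ k
  prod : (∏ p ∈ S₀, p) * ∏ e ∈ J, XX H e.1 ≤ X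

theorem rr_iff {X z H k : ℕ} (hH : 1 ≤ H) {S : Finset ℕ}
    (hS : ∀ q ∈ S, q.Prime ∧ q ≠ 2)
    (hi : Set.InjOn (ph H) (la z S : Set ℕ)) :
    S ∈ R1 X z H k ↔ KP X z H k (ky z H S).1 (ky z H S).2 := by
  set J := (la z S).image (ph H) with hJ
  have hky : ky z H S = (sm z S, J) := rfl
  rw [hky]
  have f2 : J.card = (la z S).card := Finset.card_image_of_injOn hi
  have f8 : ∏ e ∈ J, XX H e.1 = ∏ p ∈ la z S, XX H (jj H p) := by
    rw [hJ, Finset.prod_image hi]
    rfl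
  have f7 : ∏ e ∈ J, e.2 = ∏ p ∈ la z S, p % 60 := by
    rw [hJ, Finset.prod_image hi]
    rfl
  have f6 : ((∏ p ∈ sm z S, p) * ∏ e ∈ J, e.2) % 60 = (∏ p ∈ S, p) % 60 := by
    rw [f7, ← sm_la_prod z S, Nat.mul_mod, prod_mod, ← Nat.mul_mod]
  have f9 : Set.InjOn (jj H) (la z S : Set ℕ) ↔ Set.InjOn Prod.fst (J : Set (ℕ × ℕ)) := by
    constructor
    · intro h a ha b hb hab
      rw [Finset.mem_coe, hJ, Finset.mem_image] at ha hb
      obtain ⟨p, hp, rfl⟩ := ha
      obtain ⟨q, hq, rfl⟩ := hb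
      rw [h (Finset.mem_coe.2 hp) (Finset.mem_coe.2 hq) hab]
    · intro h p hp q hq hpq
      exact hi hp hq (h (Finset.mem_coe.2 (Finset.mem_image_of_mem _ (Finset.mem_coe.1 hp)))
        (Finset.mem_coe.2 (Finset.mem_image_of_mem _ (Finset.mem_coe.1 hq))) hpq)
  have hsm : sm z S ⊆ S := Finset.filter_subset _ _
  have hla : la z S ⊆ S := Finset.filter_subset _ _
  constructor
  · intro h
    unfold R1 at h
    rw [Finset.mem_filter] at h
    obtain ⟨h1, h2, h3, h4⟩ := h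
    unfold SS at h1
    rw [Finset.mem_filter] at h1
    obtain ⟨-, ⟨h6, h7⟩, h10⟩ := h1
    refine ⟨fun q hq => h6 q (hsm hq), fun q hq => (Finset.mem_filter.1 hq).2, ?_,
      f9.1 h2, ?_, ?_⟩
    · exact (fm_mod f6).2 h7
    · rw [f2, sm_la_card]
      exact h3
    · rw [f8]
      exact h4
  · rintro ⟨k1, k2, k4, k7, k8, k9⟩
    have hprod : ∏ p ∈ S, p ≤ X := by
      rw [← sm_la_prod z S]
      refine le_trans (Nat.mul_le_mul_left _ ?_) k9
      rw [f8]
      refine Finset.prod_le_prod' fun p hp => le_XX hH (hS p (hla hp)).1.one_le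
    unfold R1 SS
    rw [Finset.mem_filter, Finset.mem_filter, Finset.mem_powerset]
    refine ⟨⟨?_, ⟨hS, ?_⟩, hprod⟩, f9.2 k7, ?_, ?_⟩
    · intro q hq
      rw [Finset.mem_range]
      have h1 : q ∣ ∏ p ∈ S, p := Finset.dvd_prod_of_mem _ hq
      have h2 : 0 < ∏ p ∈ S, p := Finset.prod_pos fun p hp => (hS p hp).1.pos
      have := Nat.le_of_dvd h2 h1
      omega
    · exact (fm_mod f6).1 k4
    · rw [← sm_la_card z S, ← f2]
      exact k8
    · rw [← f8]
      exact k9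

theorem rr_facts {X z H k : ℕ} {S : Finset ℕ} (hS : S ∈ R1 X z H k) :
    (∀ q ∈ S, q.Prime ∧ q ≠ 2) ∧ Set.InjOn (jj H) (la z S : Set ℕ) ∧ ∏ p ∈ S, p ≤ X ∧ Cl S := by
  unfold R1 SS at hS
  rw [Finset.mem_filter, Finset.mem_filter] at hS
  exact ⟨hS.1.2.1.1, hS.2.1, hS.1.2.2, hS.1.2.1⟩

theorem fill_mem {X z H k : ℕ} (hH : 1 ≤ H) {S₀ : Finset ℕ} {J : Finset (ℕ × ℕ)}
    (hkey : KP X z H k S₀ J) {p : J → ℕ} (hp : ∀ i : J, p i ∈ CC z H i) :
    S₀ ∪ univ.image p ∈ R1 X z H k := by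
  have h₀ := hkey.le
  rw [rr_iff hH _ (inj_fill hH h₀ hp), ky_fill hH h₀ hp]
  · exact hkey
  · intro q hq
    rw [Finset.mem_union, Finset.mem_image] at hq
    rcases hq with hq | ⟨i, -, rfl⟩
    · exact hkey.cl q hq
    · exact ((mem_CC hH).1 (hp i)).1

theorem key_bij {X z H k : ℕ} (hH : 1 ≤ H) {S₀ : Finset ℕ}
    {J : Finset (ℕ × ℕ)}
    (hkey : KP X z H k S₀ J) (P : Finset ℕ → Prop) [DecidablePred P] [DecidableEq J] :
    ((Fintype.piFinset fun i : J => CC z H i).filter fun p => P (S₀ ∪ univ.image p)).card =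
      ((R1 X z H k).filter fun S => ky z H S = (S₀, J) ∧ P S).card := by
  have h₀ := hkey.le
  apply Finset.card_bij (fun (p : J → ℕ) _ => S₀ ∪ univ.image p)
  · intro p hp
    rw [Finset.mem_filter, Fintype.mem_piFinset] at hp
    obtain ⟨hp, hP⟩ := hp
    have hk := ky_fill hH h₀ hp
    rw [Finset.mem_filter]
    exact ⟨fill_mem hH hkey hp, hk, hP⟩
  · intro p hp p' hp' h
    rw [Finset.mem_filter, Fintype.mem_piFinset] at hp hp'
    have h1 := la_fill hH h₀ hp.1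
    rw [h, la_fill hH h₀ hp'.1] at h1
    funext i
    have h2 : p i ∈ univ.image p' := by
      rw [h1]
      exact Finset.mem_image_of_mem _ (Finset.mem_univ _)
    rw [Finset.mem_image] at h2
    obtain ⟨j, -, hj⟩ := h2
    have h3 := ph_fill hH hp.1 i
    have h4 := ph_fill hH hp'.1 j
    rw [hj, h3] at h4
    rw [← hj, Subtype.ext h4]
  · intro S hS
    rw [Finset.mem_filter] at hS
    obtain ⟨hSR, hSk, hSP⟩ := hS
    obtain ⟨hSO, hSI, -⟩ := rr_facts hSR
    have hk1 : sm z S = S₀ := congrArg Prod.fst hSk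
    have hk2 : (la z S).image (ph H) = J := congrArg Prod.snd hSk
    have hex : ∀ i : J, ∃ q ∈ la z S, ph H q = i := by
      rintro ⟨i, hi⟩
      rw [← hk2, Finset.mem_image] at hi
      exact hi
    choose p hp1 hp2 using hex
    have him : univ.image p = la z S := by
      ext q
      rw [Finset.mem_image]
      constructor
      · rintro ⟨i, -, rfl⟩
        exact hp1 i
      · intro hq
        have hjq : ph H q ∈ J := by
          rw [← hk2]
          exact Finset.mem_image_of_mem _ hq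
        exact ⟨⟨ph H q, hjq⟩, Finset.mem_univ _, inj_ph hSI (Finset.mem_coe.2 (hp1 _))
          (Finset.mem_coe.2 hq) (hp2 ⟨ph H q, hjq⟩)⟩
    have hSe : S₀ ∪ univ.image p = S := by
      rw [him, ← hk1]
      unfold sm la
      exact Finset.filter_union_filter_not_eq _ _
    refine ⟨p, ?_, hSe⟩
    rw [Finset.mem_filter, Fintype.mem_piFinset, hSe]
    refine ⟨fun i => (mem_CC hH).2 ⟨hSO _ (Finset.mem_filter.1 (hp1 i)).1,
      not_le.1 (Finset.mem_filter.1 (hp1 i)).2, hp2 i⟩, hSP⟩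

/-- the conclusion of the box lemma -/
def BoxC (M : ℕ) (ε : ℝ) (R : ℕ) : Prop :=
  ∀ (V : Fin M → Finset ℕ) (ι : Type) [Fintype ι] [LinearOrder ι]
  (C : ι → Finset ℕ) (X : ι → ℕ) (κ : ℝ) (S₀ : Finset ℕ), 0 ≤ κ →
  (∀ i, (C i).card ≤ X i) → HB univ C X κ → (∀ u ∈ S₀ ∪ Wa V, u.Prime ∧ u ≠ 2) →
  (∀ i, ∀ p ∈ C i, p.Prime ∧ p ≠ 2 ∧ p ∉ S₀ ∪ Wa V) →
  (∀ i, ∀ p ∈ C i, ∀ q ∈ C i, p % 60 = q % 60) →
  (∀ i l, i ≠ l → Disjoint (C i) (C l)) →
  (∀ p ∈ Fintype.piFinset C, ∀ i, Cl (symmDiff (S₀ ∪ univ.image p) (V i))) →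
  |(((Fintype.piFinset C).filter fun p => NdJ R V S₀ (univ.image p) ∧
        GdJ V (S₀ ∪ univ.image p)).card : ℝ) -
      c1 ^ M * (((Fintype.piFinset C).filter fun p => NdJ R V S₀ (univ.image p)).card : ℝ)| ≤
    ε * (((Fintype.piFinset C).filter fun p => NdJ R V S₀ (univ.image p)).card : ℝ) +
    2 ^ ((2 * (S₀ ∪ Wa V).card + 1) * Fintype.card ι + (prs (univ : Finset ι)).card) *
      (κ * ∏ j, (X j : ℝ))

theorem box_dec {M : ℕ} {ε : ℝ} {R : ℕ} (hBOX : BoxC M ε R) (V : Fin M → Finset ℕ)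
    (ι : Type) [Fintype ι]
    [inst : DecidableEq ι] (lo : LinearOrder ι)
    (C : ι → Finset ℕ) (X : ι → ℕ) (κ : ℝ) (S₀ : Finset ℕ) (h1 : 0 ≤ κ)
    (h2 : ∀ i, (C i).card ≤ X i) (h3 : HB univ C X κ) (h4 : ∀ u ∈ S₀ ∪ Wa V, u.Prime ∧ u ≠ 2)
    (h5 : ∀ i, ∀ p ∈ C i, p.Prime ∧ p ≠ 2 ∧ p ∉ S₀ ∪ Wa V)
    (h5' : ∀ i, ∀ p ∈ C i, ∀ q ∈ C i, p % 60 = q % 60)
    (h6 : ∀ i l, i ≠ l → Disjoint (C i) (C l))
    (h7 : ∀ p ∈ Fintype.piFinset C, ∀ i, Cl (symmDiff (S₀ ∪ univ.image p) (V i))) :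
    |(((Fintype.piFinset C).filter fun p => NdJ R V S₀ (univ.image p) ∧
        GdJ V (S₀ ∪ univ.image p)).card : ℝ) -
      c1 ^ M * (((Fintype.piFinset C).filter fun p => NdJ R V S₀ (univ.image p)).card : ℝ)| ≤
    ε * (((Fintype.piFinset C).filter fun p => NdJ R V S₀ (univ.image p)).card : ℝ) +
    2 ^ ((2 * (S₀ ∪ Wa V).card + 1) * Fintype.card ι + (prs (univ : Finset ι)).card) *
      (κ * ∏ j, (X j : ℝ)) := by
  have e : inst = fun a b => lo.toDecidableEq a b := Subsingleton.elim _ _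
  subst e
  exact hBOX V ι C X κ S₀ h1 h2 h3 h4 h5 h5' h6 h7

theorem per_key {M : ℕ} {ε : ℝ} (hε : 0 < ε) {R : ℕ} (hBOX : BoxC M ε R)
    {V : Fin M → Finset ℕ} {X z H k : ℕ} (hH : 1 ≤ H)
    (hV1 : ∀ i, OkV (V i)) (hV2 : ∀ u ∈ Wa V, u ≤ z) (hV3 : (Wa V).card ≤ k)
    {κ : ℝ} (hκ : 0 ≤ κ) {S₀ : Finset ℕ} {J : Finset (ℕ × ℕ)} (hk : KP X z H k S₀ J)
    (hHB : HB (univ : Finset J) (fun i : J => CC z H i) (fun i => XX H i.1.1) κ) :
    |(((R1 X z H k).filter fun S => ky z H S = (S₀, J) ∧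
        (NdJ R V (sm z S) (la z S) ∧ GdJ V S)).card : ℝ) -
      c1 ^ M * (((R1 X z H k).filter fun S => ky z H S = (S₀, J) ∧
        NdJ R V (sm z S) (la z S)).card : ℝ)| ≤
    ε * (((R1 X z H k).filter fun S => ky z H S = (S₀, J)).card : ℝ) +
      (3 ^ (6 * k ^ 2) * κ) * (X / ((∏ p ∈ S₀, p : ℕ) : ℝ)) := by
  have hW : ∀ u ∈ Wa V, u.Prime ∧ 7 ≤ u := by
    intro u hu
    unfold Wa at hu
    rw [Finset.mem_biUnion] at hu
    obtain ⟨i, -, hi⟩ := hu
    exact (hV1 i).1 u hi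
  have hinj : Function.Injective (fun i : J => i.1.1) := by
    intro a b hab
    exact Subtype.ext (hk.inj (Finset.mem_coe.2 a.2) (Finset.mem_coe.2 b.2) hab)
  let lo : LinearOrder J := LinearOrder.lift' (fun i : J => i.1.1) hinj
  have hbox := box_dec hBOX V J lo (fun i => CC z H i) (fun i => XX H i.1.1) κ S₀ hκ
    (fun i => by
      refine (Finset.card_filter_le _ _).trans ?_
      rw [Nat.card_Icc]
      omega)
    hHB
    (fun u hu => by
      rw [Finset.mem_union] at hu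
      rcases hu with hu | hu
      · exact hk.cl u hu
      · have := hW u hu
        exact ⟨this.1, by omega⟩)
    (fun i p hp => by
      obtain ⟨h3, h3', h4, h5⟩ := CC_facts hH hp
      refine ⟨h3.1, h3.2, fun h => ?_⟩
      rw [Finset.mem_union] at h
      rcases h with h | h
      · have := hk.le p h
        omega
      · have := hV2 p h
        omega)
    (fun i p hp q hq => by
      rw [(CC_facts hH hp).2.2.2, (CC_facts hH hq).2.2.2])
    (fun i l hil => CC_disj hH i l hil)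
    (fun p hp i => by
      rw [Fintype.mem_piFinset] at hp
      exact cl_symm (rr_facts (fill_mem hH hk hp)).2.2.2 (hV1 i))
  have e1 : ((Fintype.piFinset fun i : J => CC z H i).filter fun p =>
      NdJ R V S₀ (univ.image p) ∧
      GdJ V (S₀ ∪ univ.image p)).card = ((R1 X z H k).filter fun S => ky z H S = (S₀, J) ∧
        (NdJ R V (sm z S) (la z S) ∧ GdJ V S)).card := by
    rw [← key_bij hH hk (fun S => NdJ R V (sm z S) (la z S) ∧ GdJ V S)]
    congr 1
    refine Finset.filter_congr fun p hp => ?_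
    rw [Fintype.mem_piFinset] at hp
    rw [sm_fill hH hk.le hp, la_fill hH hk.le hp]
  have e2 : ((Fintype.piFinset fun i : J => CC z H i).filter fun p =>
      NdJ R V S₀ (univ.image p)).card = ((R1 X z H k).filter fun S => ky z H S = (S₀, J) ∧
        NdJ R V (sm z S) (la z S)).card := by
    rw [← key_bij hH hk (fun S => NdJ R V (sm z S) (la z S))]
    congr 1
    refine Finset.filter_congr fun p hp => ?_
    rw [Fintype.mem_piFinset] at hp
    rw [sm_fill hH hk.le hp, la_fill hH hk.le hp]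
  rw [e1, e2] at hbox
  refine hbox.trans (add_le_add ?_ ?_)
  · have h4 : (((R1 X z H k).filter fun S => ky z H S = (S₀, J) ∧
        NdJ R V (sm z S) (la z S)).card : ℝ) ≤
        (((R1 X z H k).filter fun S => ky z H S = (S₀, J)).card : ℝ) := by
      have : (R1 X z H k).filter (fun S => ky z H S = (S₀, J) ∧
          NdJ R V (sm z S) (la z S)) ⊆
          (R1 X z H k).filter fun S => ky z H S = (S₀, J) := by
        intro S hS
        rw [Finset.mem_filter] at hS ⊢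
        exact ⟨hS.1, hS.2.1⟩
      exact_mod_cast Finset.card_le_card this
    gcongr
  · have hcJ : Fintype.card J = J.card := Fintype.card_coe J
    have hcard := hk.card
    have hJK : J.card ≤ k := by omega
    have hSK : (S₀ ∪ Wa V).card ≤ 2 * k := by
      have := Finset.card_union_le S₀ (Wa V)
      omega
    obtain ⟨m, hm⟩ : ∃ m : ℕ, m = (@prs J _ lo univ).card := ⟨_, rfl⟩
    have hpr : m ≤ k * k := by
      rw [hm]
      refine (@prs_card J _ lo univ).trans ?_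
      rw [hcJ]
      exact Nat.mul_le_mul hJK hJK
    rw [← hm]
    have h5 : (2 : ℝ) ^ ((2 * (S₀ ∪ Wa V).card + 1) * Fintype.card J + m) ≤
        3 ^ (6 * k ^ 2) := by
      have hexp : (2 * (S₀ ∪ Wa V).card + 1) * Fintype.card J + m ≤ 6 * k ^ 2 := by
        rw [hcJ]
        have h6 : (S₀ ∪ Wa V).card * J.card ≤ 2 * k * k := Nat.mul_le_mul hSK hJK
        have h7 : k ≤ k * k := Nat.le_mul_self k
        calc (2 * (S₀ ∪ Wa V).card + 1) * J.card + m =
              2 * ((S₀ ∪ Wa V).card * J.card) + J.card + m := by ring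
          _ ≤ 2 * (2 * k * k) + k * k + k * k := by omega
          _ = 6 * k ^ 2 := by ring
      calc (2 : ℝ) ^ ((2 * (S₀ ∪ Wa V).card + 1) * Fintype.card J + m) ≤ 2 ^ (6 * k ^ 2) :=
            pow_le_pow_right₀ (by norm_num) hexp
        _ ≤ 3 ^ (6 * k ^ 2) := by
            apply pow_le_pow_left₀ <;> norm_num
    have hN0 : (0 : ℝ) < ((∏ p ∈ S₀, p : ℕ) : ℝ) := by
      exact_mod_cast Finset.prod_pos fun p hp => (hk.cl p hp).1.pos
    have hprod : ∏ j : J, (XX H j.1.1 : ℝ) ≤ X / ((∏ p ∈ S₀, p : ℕ) : ℝ) := by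
      have h5 : ∏ j : J, (XX H j.1.1 : ℝ) = ((∏ k ∈ J, XX H k.1 : ℕ) : ℝ) := by
        rw [← Finset.prod_coe_sort J (fun k => XX H k.1)]
        push_cast
        rfl
      rw [h5, le_div_iff₀ hN0, mul_comm]
      exact_mod_cast hk.prod
    calc (2 : ℝ) ^ ((2 * (S₀ ∪ Wa V).card + 1) * Fintype.card J + m) *
        (κ * ∏ j : J, (XX H j.1.1 : ℝ)) ≤
        3 ^ (6 * k ^ 2) * (κ * (X / ((∏ p ∈ S₀, p : ℕ) : ℝ))) := by gcongr
      _ = _ := by ring

end Pool.Agent.H735X.JK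

namespace Pool.Agent.H735X

open Finset
open Pool.Agent.Y703.CX (sm la jj XX eL zz kk S_SIE)
open Pool.Agent.Y703.CQ (nr sg prs HB ext S_EQ Sml)
open Pool.Agent.H757_X15.DD
open Pool.Agent.H757_X15.DD.LA4

open Pool.Agent.H735X.JK in
open Pool.Agent.H757_X15.DD.KEY (ph ky CC inj_ph hb_box) in
open Pool.Agent.Y703.CQ.K302 (card_sub TT mem_TT harm_TT) in
theorem t_JKEY : S_JKEY := by
  intro hB1 hEQ hLA hBOX M ε hε
  obtain ⟨C₁, hC₁, h1⟩ := hB1
  obtain ⟨R, hR⟩ := hBOX hEQ hLA M ε hε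
  refine ⟨R, C₁, hC₁, ?_⟩
  intro V X z H k N κ hV1 hV2 hV3 hX hH hz hκ hκz hN
  set T := (R1 X z H k).image (ky z H) with hT
  set B : ℝ := 3 ^ (6 * k ^ 2) * κ with hB
  have hB0 : 0 ≤ B := by positivity
  have hfib : ∀ (P : Finset ℕ → Prop) [DecidablePred P],
      (((R1 X z H k).filter fun S => P S).card : ℝ) =
      ∑ e ∈ T, (((R1 X z H k).filter fun S => ky z H S = e ∧ P S).card : ℝ) := by
    intro P _
    rw [Finset.card_eq_sum_card_fiberwise (f := ky z H) (t := T) (by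
      intro S hS
      rw [Finset.mem_coe, Finset.mem_filter] at hS
      exact Finset.mem_coe.2 (Finset.mem_image_of_mem _ hS.1))]
    push_cast
    refine Finset.sum_congr rfl fun e _ => ?_
    congr 2
    ext S
    simp only [Finset.mem_filter]
    tauto
  have hKP : ∀ e ∈ T, KP X z H k e.1 e.2 := by
    intro e he
    rw [hT, Finset.mem_image] at he
    obtain ⟨S, hS, rfl⟩ := he
    obtain ⟨f1, f2, f3, -⟩ := rr_facts hS
    exact (rr_iff hH f1 (inj_ph f2)).1 hS
  have hf1 := hfib fun S => NdJ R V (sm z S) (la z S) ∧ GdJ V S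
  have hf2 := hfib fun S => NdJ R V (sm z S) (la z S)
  have hf3 := hfib fun _ => True
  simp only [and_true, Finset.filter_true] at hf3
  rw [hf1, hf2, hf3, Finset.mul_sum, ← Finset.sum_sub_distrib]
  refine (Finset.abs_sum_le_sum_abs _ _).trans ?_
  have h3 : ∀ e ∈ T, |(((R1 X z H k).filter fun S => ky z H S = e ∧
        (NdJ R V (sm z S) (la z S) ∧ GdJ V S)).card : ℝ) -
      c1 ^ M * (((R1 X z H k).filter fun S => ky z H S = e ∧
        NdJ R V (sm z S) (la z S)).card : ℝ)| ≤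
      ε * (((R1 X z H k).filter fun S => ky z H S = e).card : ℝ) +
      B * (X / ((∏ p ∈ e.1, p : ℕ) : ℝ)) := by
    intro e he
    obtain ⟨S₀, J⟩ := e
    have hk' := hKP _ he
    exact per_key hε hR hH hV1 hV2 hV3 hκ hk' (hb_box h1 hH hz hκ hκz)
  refine (Finset.sum_le_sum h3).trans ?_
  rw [Finset.sum_add_distrib, ← Finset.mul_sum]
  refine add_le_add le_rfl ?_
  have hsub : T ⊆ (TT X) ×ˢ ((range N ×ˢ range 60).powerset.filter fun J => J.card ≤ k) := by
    intro e he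
    have hk' := hKP e he
    rw [hT, Finset.mem_image] at he
    obtain ⟨S, hS, rfl⟩ := he
    obtain ⟨f1, f2, f3, -⟩ := rr_facts hS
    rw [Finset.mem_product, Finset.mem_filter, Finset.mem_powerset]
    refine ⟨mem_TT (fun q hq => (hk'.cl q hq).1) ?_, ?_, ?_⟩
    · refine le_trans ?_ f3
      exact Nat.le_of_dvd (Finset.prod_pos fun p hp => (f1 p hp).1.pos)
        (Finset.prod_dvd_prod_of_subset _ _ _ (Finset.filter_subset _ _))
    · intro e he
      unfold ky at he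
      rw [Finset.mem_image] at he
      obtain ⟨q, hq, rfl⟩ := he
      have hqS := (Finset.mem_filter.1 hq).1
      have hq0 := (f1 q hqS).1.pos
      have hqX : q ≤ X := by
        refine le_trans ?_ f3
        exact Nat.le_of_dvd (Finset.prod_pos fun p hp => (f1 p hp).1.pos)
          (Finset.dvd_prod_of_mem _ hqS)
      unfold ph
      rw [Finset.mem_product, Finset.mem_range, Finset.mem_range]
      refine ⟨?_, Nat.mod_lt _ (by norm_num)⟩
      have h3 : ((jj H q : ℕ) : ℝ) < N := by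
        refine lt_of_le_of_lt (Nat.floor_le (mul_nonneg (Nat.cast_nonneg _)
          (Real.log_nonneg (by exact_mod_cast hq0)))) ?_
        refine lt_of_le_of_lt ?_ hN
        refine mul_le_mul_of_nonneg_left ?_ (Nat.cast_nonneg _)
        exact Real.log_le_log (by exact_mod_cast hq0) (by exact_mod_cast hqX)
      exact_mod_cast h3
    · have := hk'.card
      omega
  refine (Finset.sum_le_sum_of_subset_of_nonneg hsub fun _ _ _ => by positivity).trans ?_
  rw [Finset.sum_product]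
  simp only [Finset.sum_const, nsmul_eq_mul]
  rw [← Finset.mul_sum]
  have h4 : ((((range N ×ˢ range 60).powerset.filter fun J => J.card ≤ k).card : ℕ) : ℝ) ≤
      (60 * N + 60 : ℝ) ^ k := by
    have h5 := card_sub (range N ×ˢ range 60) k
    rw [Finset.card_product, Finset.card_range, Finset.card_range] at h5
    calc ((((range N ×ˢ range 60).powerset.filter fun J => J.card ≤ k).card : ℕ) : ℝ) ≤
          (((N * 60 + 1) ^ k : ℕ) : ℝ) := by exact_mod_cast h5
      _ = (N * 60 + 1 : ℝ) ^ k := by push_cast; ring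
      _ ≤ _ := by
        apply pow_le_pow_left₀ (by positivity)
        have : (0 : ℝ) ≤ N := Nat.cast_nonneg _
        linarith
  have h5 : ∑ S ∈ TT X, B * (X / ((∏ p ∈ S, p : ℕ) : ℝ)) ≤ B * (X * (1 + Real.log X)) := by
    have h6 : ∀ S ∈ TT X, B * ((X : ℝ) / ((∏ p ∈ S, p : ℕ) : ℝ)) =
        B * X * (1 / ((∏ p ∈ S, p : ℕ) : ℝ)) := by
      intro S _
      ring
    rw [Finset.sum_congr rfl h6, ← Finset.mul_sum]
    have h7 := mul_le_mul_of_nonneg_left (harm_TT X) (mul_nonneg hB0 (Nat.cast_nonneg X))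
    refine h7.trans (le_of_eq ?_)
    ring
  have h6 : 0 ≤ ∑ S ∈ TT X, B * ((X : ℝ) / ((∏ p ∈ S, p : ℕ) : ℝ)) :=
    Finset.sum_nonneg fun _ _ => by positivity
  rw [mul_assoc]
  gcongr

end Pool.Agent.H735X
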