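import Pool.Agent.H735X.Sym
import Pool.Agent.H757_X15.DN.Crit

/-!
Project XJ: all the patterns, in terms of the numbers `D`.
-/

set_option autoImplicit false

open scoped Classical

namespace Pool.Agent.H735X

open Finset Filter Topology
open Pool.Agent.H757_X15.DD

/-- the joint law -/
theorem lawS (hJ : S_JDQ) (P : Finset (Finset ℕ)) (hP : ∀ V ∈ P, OkV V) : Tendsto
    (fun X : ℕ => (((SS X).filter fun S => ∀ V ∈ P, Gd (symmDiff S V)).card : ℝ) /
      ((SS X).card : ℝ)) atTop (nhds (c1 ^ P.card)) := by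
  set e : Fin P.card ≃ P := P.equivFin.symm with he
  have h1 := hJ P.card (fun k => (e k : Finset ℕ)) (fun k => hP _ (e k).2)
    (fun i j h => e.injective (Subtype.ext h))
  refine h1.congr fun X => ?_
  congr 2
  refine congrArg card (filter_congr fun S _ => ?_)
  unfold GdJ
  constructor
  · intro h2 V hV
    have h3 := h2 (e.symm ⟨V, hV⟩)
    simp only [Equiv.apply_symm_apply] at h3
    exact h3
  · intro h2 k
    exact h2 _ (e k).2

/-- all the patterns -/
theorem lawPQ (hJ : S_JDQ) (Q : Finset (Finset ℕ)) : (∀ V ∈ Q, OkV V) →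
    ∀ P : Finset (Finset ℕ), (∀ V ∈ P, OkV V) → Disjoint P Q → Tendsto
    (fun X : ℕ => (((SS X).filter fun S => (∀ V ∈ P, Gd (symmDiff S V)) ∧
      ∀ V ∈ Q, ¬ Gd (symmDiff S V)).card : ℝ) /
      ((SS X).card : ℝ)) atTop (nhds (c1 ^ P.card * (1 - c1) ^ Q.card)) := by
  induction Q using Finset.induction_on with
  | empty =>
    intro _ P hP _
    have h1 := lawS hJ P hP
    simpa using h1
  | insert q Q hq ih =>
    intro hQ P hP hPQ
    rw [disjoint_insert_right] at hPQ
    have hQ' : ∀ V ∈ Q, OkV V := fun V hV => hQ V (mem_insert_of_mem hV)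
    have h1 := ih hQ' P hP hPQ.2
    have h2 := ih hQ' (insert q P) (fun V hV => by
      rcases mem_insert.1 hV with rfl | h
      · exact hQ _ (mem_insert_self _ _)
      · exact hP V h) (disjoint_insert_left.2 ⟨hq, hPQ.2⟩)
    have h3 := h1.sub h2
    rw [card_insert_of_notMem hPQ.1] at h3
    rw [card_insert_of_notMem hq]
    have e : c1 ^ P.card * (1 - c1) ^ Q.card - c1 ^ (P.card + 1) * (1 - c1) ^ Q.card =
        c1 ^ P.card * (1 - c1) ^ (Q.card + 1) := by ring
    rw [e] at h3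
    refine h3.congr fun X => ?_
    rw [← sub_div]
    congr 1
    set T := (SS X).filter fun S => (∀ V ∈ P, Gd (symmDiff S V)) ∧
      ∀ V ∈ Q, ¬ Gd (symmDiff S V) with hT
    have h4 := Finset.card_filter_add_card_filter_not (s := T)
      (fun S => Gd (symmDiff S q))
    have e1 : T.filter (fun S => Gd (symmDiff S q)) =
        (SS X).filter fun S => (∀ V ∈ insert q P, Gd (symmDiff S V)) ∧
          ∀ V ∈ Q, ¬ Gd (symmDiff S V) := by
      rw [hT, filter_filter]
      refine filter_congr fun S _ => ?_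
      rw [forall_mem_insert]
      tauto
    have e2 : T.filter (fun S => ¬ Gd (symmDiff S q)) =
        (SS X).filter fun S => (∀ V ∈ P, Gd (symmDiff S V)) ∧
          ∀ V ∈ insert q Q, ¬ Gd (symmDiff S V) := by
      rw [hT, filter_filter]
      refine filter_congr fun S _ => ?_
      rw [forall_mem_insert]
      tauto
    rw [e1, e2] at h4
    rw [← h4]
    push_cast
    ring

/-! ### numbers -/

/-- `M D` without its square part -/
def tw (M D : ℕ) : ℕ := M * D / Nat.gcd M D ^ 2

theorem prod_pf {D : ℕ} (hD : Squarefree D) : ∏ p ∈ D.primeFactors, p = D :=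
  Nat.prod_primeFactors_of_squarefree hD

theorem sqf_prod {S : Finset ℕ} (h : ∀ p ∈ S, p.Prime) : Squarefree (∏ p ∈ S, p) := by
  refine Finset.squarefree_prod_of_pairwise_isCoprime (fun p hp q hq hpq => ?_)
    fun p hp => (h p hp).squarefree
  show IsRelPrime p q
  rw [← Nat.coprime_iff_isRelPrime]
  exact (Nat.coprime_primes (h p hp) (h q hq)).mpr hpq

theorem gcd_prod {S V : Finset ℕ} (hS : ∀ p ∈ S, p.Prime) (hV : ∀ p ∈ V, p.Prime) :
    Nat.gcd (∏ p ∈ V, p) (∏ p ∈ S, p) = ∏ p ∈ S ∩ V, p := by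
  have hsq : Squarefree (Nat.gcd (∏ p ∈ V, p) (∏ p ∈ S, p)) :=
    (sqf_prod hS).squarefree_of_dvd (Nat.gcd_dvd_right _ _)
  rw [← prod_pf hsq, Nat.primeFactors_gcd (sqf_prod hV).ne_zero (sqf_prod hS).ne_zero,
    Nat.primeFactors_prod hV, Nat.primeFactors_prod hS, inter_comm]

theorem tw_eq {M D : ℕ} (hM : Squarefree M) (hD : Squarefree D) :
    tw M D = ∏ p ∈ symmDiff D.primeFactors M.primeFactors, p := by
  have hS : ∀ p ∈ D.primeFactors, p.Prime := fun p hp => Nat.prime_of_mem_primeFactors hp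
  have hV : ∀ p ∈ M.primeFactors, p.Prime := fun p hp => Nat.prime_of_mem_primeFactors hp
  have h1 := prod_sd D.primeFactors M.primeFactors
  have h2 := gcd_prod hS hV
  rw [prod_pf hM, prod_pf hD] at h2
  rw [prod_pf hM, prod_pf hD, ← h2] at h1
  unfold tw
  rw [mul_comm M D, ← h1]
  have h0 : 0 < Nat.gcd M D ^ 2 := pow_pos (Nat.gcd_pos_of_pos_left _ (Nat.pos_of_ne_zero hM.ne_zero)) 2
  rw [Nat.mul_div_cancel _ h0]

theorem tw_pf {M D : ℕ} (hM : Squarefree M) (hD : Squarefree D) :
    (tw M D).primeFactors = symmDiff D.primeFactors M.primeFactors := by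
  rw [tw_eq hM hD]
  refine Nat.primeFactors_prod fun p hp => ?_
  rcases Finset.mem_symmDiff.1 hp with h | h
  · exact Nat.prime_of_mem_primeFactors h.1
  · exact Nat.prime_of_mem_primeFactors h.1

theorem tw_sqf {M D : ℕ} (hM : Squarefree M) (hD : Squarefree D) : Squarefree (tw M D) := by
  rw [tw_eq hM hD]
  refine sqf_prod fun p hp => ?_
  rcases Finset.mem_symmDiff.1 hp with h | h
  · exact Nat.prime_of_mem_primeFactors h.1
  · exact Nat.prime_of_mem_primeFactors h.1

theorem fm_pr {D p : ℕ} (h : Fm D) (hp : p.Prime) (hd : p ∣ D) : 7 ≤ p := by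
  have h1 : Nat.Coprime D 60 := by
    rcases h with h | h
    · rw [Nat.Coprime, Nat.gcd_comm, Nat.gcd_rec, h]
      norm_num
    · rw [Nat.Coprime, Nat.gcd_comm, Nat.gcd_rec, h]
      norm_num
  have h2 : Nat.Coprime p 60 := Nat.Coprime.coprime_dvd_left hd h1
  by_contra h3
  push Not at h3
  have h4 := hp.two_le
  interval_cases p
  · revert h2; decide
  · revert h2; decide
  · revert h2; decide
  · revert h2; decide
  · exact absurd hp (by norm_num)

theorem okV_pf {M : ℕ} (hM : Squarefree M) (hF : Fm M) : OkV M.primeFactors := by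
  refine ⟨fun u hu => ⟨Nat.prime_of_mem_primeFactors hu,
    fm_pr hF (Nat.prime_of_mem_primeFactors hu) (Nat.dvd_of_mem_primeFactors hu)⟩, ?_⟩
  rw [prod_pf hM]
  exact hF

theorem tw_fm {M D : ℕ} (hM : Squarefree M) (hFM : Fm M) (hD : Squarefree D) (hF : Fm D) :
    Fm (tw M D) := by
  have h1 : Cl D.primeFactors := by
    refine ⟨fun p hp => ⟨Nat.prime_of_mem_primeFactors hp, ?_⟩, ?_⟩
    · have := fm_pr hF (Nat.prime_of_mem_primeFactors hp) (Nat.dvd_of_mem_primeFactors hp)
      omega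
    · rw [prod_pf hD]
      exact hF
  have h2 := (cl_symm h1 (okV_pf hM hFM)).2
  rwa [← tw_eq hM hD] at h2

/-- all the patterns, for the numbers -/
theorem lawD (hJ : S_JDQ) (T V : Finset ℕ) (hT : ∀ M ∈ T, Squarefree M ∧ Fm M) (hV : V ⊆ T) :
    Tendsto (fun X : ℕ => (((Icc 1 X).filter fun D => (Squarefree D ∧ Fm D) ∧
      ∀ M ∈ T, (Crit (tw M D) ↔ M ∈ V)).card : ℝ) /
      (((Icc 1 X).filter fun D => Squarefree D ∧ Fm D).card : ℝ))
      atTop (nhds (c1 ^ V.card * (1 - c1) ^ (T \ V).card)) := by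
  have hinj : ∀ M ∈ T, ∀ M' ∈ T, M.primeFactors = M'.primeFactors → M = M' := by
    intro M hM M' hM' h
    rw [← prod_pf (hT M hM).1, ← prod_pf (hT M' hM').1, h]
  have hi1 : Set.InjOn Nat.primeFactors (V : Set ℕ) := fun M hM M' hM' h =>
    hinj M (hV hM) M' (hV hM') h
  have hi2 : Set.InjOn Nat.primeFactors ((T \ V : Finset ℕ) : Set ℕ) := fun M hM M' hM' h =>
    hinj M (mem_sdiff.1 (mem_coe.1 hM)).1 M' (mem_sdiff.1 (mem_coe.1 hM')).1 h
  have h1 := lawPQ hJ ((T \ V).image Nat.primeFactors) (fun W hW => by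
      obtain ⟨M, hM, rfl⟩ := mem_image.1 hW
      have := hT M (mem_sdiff.1 hM).1
      exact okV_pf this.1 this.2) (V.image Nat.primeFactors) (fun W hW => by
      obtain ⟨M, hM, rfl⟩ := mem_image.1 hW
      have := hT M (hV hM)
      exact okV_pf this.1 this.2) (by
      rw [Finset.disjoint_left]
      intro W hW hW'
      obtain ⟨M, hM, rfl⟩ := mem_image.1 hW
      obtain ⟨M', hM', h⟩ := mem_image.1 hW'
      have := hinj M' (mem_sdiff.1 hM').1 M (hV hM) h
      subst this
      exact (mem_sdiff.1 hM').2 hM)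
  rw [card_image_of_injOn hi1, card_image_of_injOn hi2] at h1
  refine h1.congr fun X => ?_
  have e1 := Pool.Agent.H757_X15.DD.card_eq X fun S =>
    (∀ W ∈ V.image Nat.primeFactors, Gd (symmDiff S W)) ∧
      ∀ W ∈ (T \ V).image Nat.primeFactors, ¬ Gd (symmDiff S W)
  have e2 := Pool.Agent.H757_X15.DD.card_eq X (fun _ => True)
  rw [Finset.filter_true] at e2
  simp only [and_true] at e2
  rw [← e2]
  congr 2
  trans ((Icc 1 X).filter fun D => Squarefree D ∧ Fm D ∧
    (∀ W ∈ V.image Nat.primeFactors, Gd (symmDiff D.primeFactors W)) ∧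
      ∀ W ∈ (T \ V).image Nat.primeFactors, ¬ Gd (symmDiff D.primeFactors W)).card
  · convert e1.symm
  refine congrArg card (filter_congr fun D _ => ?_)
  rw [and_assoc]
  refine and_congr_right fun hD => and_congr_right fun hF => ?_
  have hc : ∀ M ∈ T, (Crit (tw M D) ↔ Gd (symmDiff D.primeFactors M.primeFactors)) := by
    intro M hM
    rw [t_CRIT _ (tw_sqf (hT M hM).1 hD) (tw_fm (hT M hM).1 (hT M hM).2 hD hF),
      tw_pf (hT M hM).1 hD]
  constructor
  · rintro ⟨k1, k2⟩ M hM
    rw [hc M hM]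
    constructor
    · intro h
      by_contra hMV
      exact k2 _ (mem_image_of_mem _ (mem_sdiff.2 ⟨hM, hMV⟩)) h
    · intro h
      exact k1 _ (mem_image_of_mem _ h)
  · intro h
    constructor
    · intro W hW
      obtain ⟨M, hM, rfl⟩ := mem_image.1 hW
      rw [← hc M (hV hM)]
      exact (h M (hV hM)).2 hM
    · intro W hW
      obtain ⟨M, hM, rfl⟩ := mem_image.1 hW
      rw [← hc M (mem_sdiff.1 hM).1]
      exact fun hh => (mem_sdiff.1 hM).2 ((h M (mem_sdiff.1 hM).1).1 hh)

end Pool.Agent.H735X
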