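import Pool.Agent.H735X.Stm

/-
Project XJ (helper735, MP_696deb_nt, weight 100): the joint law for several quadratic twists of X_0(15).
Statements: Pool/Agent/H735X/Stm.lean on origin/main (copy that module and everything it imports; all the imported
modules are on origin/main; `lake build Pool.Agent.H735X.Stm` takes a few minutes the first time).

PROOF.
Sum over alpha first: sum_alpha XN s alpha = sum over the tuples w with (pr (w a))_a independent of #{alpha | forall a, w a in K (s a) alpha}. By S_CNTJ this is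
2^(P + N + C(N,2)) / 2^(nN) times the number of the tuples w with w a in V (s a), independent, crs (w a) (w b) = 0 for a < b (P = card prs, n = card J).
(Compare LA4.sum_TT in Pool/Agent/H757_X15/DN/LA4.lean, the case of one system.) By LA4.card_V0, card V_i * 2 = 2^n, so the quotient by 2^P is
#iso * 2^C(N,2) / prod_a card V_(s a). Apply S_ISO with the spaces F.V (s a), W = WW J, pi a = (pr _ J) composed with the inclusion, omega a b = the restriction of crs (s a) (s b)
(make a bilinear map of it, as LA4.omL / omV), rho = 2^(2m+2) / 2^R by S_RADJ, kappa = 2^(m+1) / 2^R: LA4.ker_bound gives #{v in V | pr v = 0} <= 2^(card U + 1) <= 2^(m+1)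
and card V = 2^(n-1) >= 2^R because R < #{k | ...} <= n (hypothesis rad, also J is nonempty then). Finally 2^C(N,2) (2^(2m+2) + 2^N 2^(m+1)) <= 2^((N+1)^2) 2^(2m+3).
For M = 0 one has N = 0 and XN = 1.
-/

set_option autoImplicit false
set_option linter.unusedVariables false

open scoped Classical

namespace Pool.Agent.H735X

open Finset
open Pool.Agent.Y703.CX (sm la jj XX eL zz kk S_SIE)
open Pool.Agent.Y703.CQ (nr sg prs HB ext S_EQ Sml)
open Pool.Agent.H757_X15.DD
open Pool.Agent.H757_X15.DD.LA4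

namespace XMOM

variable {M : ℕ} {J : Type} [Fintype J] [LinearOrder J]

lemma L_add (F : Fam M J) (i : Fin M) (x y : F.U i ⊕ J → ZMod 2) (k : J) :
    F.L i (x + y) k = F.L i x k + F.L i y k :=
  congrFun ((LpL (MM (F.A i) (F.C i) (F.f i) F.g (Pool.Agent.H757_X15.DD.rec F.g 0))
    (Sum.elim (F.f i) F.g)).map_add x y) (Sum.inr k)

lemma L_smul (F : Fam M J) (i : Fin M) (c : ZMod 2) (x : F.U i ⊕ J → ZMod 2) (k : J) :
    F.L i (c • x) k = c * F.L i x k :=
  congrFun ((LpL (MM (F.A i) (F.C i) (F.f i) F.g (Pool.Agent.H757_X15.DD.rec F.g 0))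
    (Sum.elim (F.f i) F.g)).map_smul c x) (Sum.inr k)

/-- the form of the systems `i` and `j` as a bilinear map -/
noncomputable def crsL (F : Fam M J) (i j : Fin M) :
    (F.U i ⊕ J → ZMod 2) →ₗ[ZMod 2] (F.U j ⊕ J → ZMod 2) →ₗ[ZMod 2] ZMod 2 :=
  LinearMap.mk₂ (ZMod 2) (F.crs i j)
    (by
      intro x y z
      simp only [Fam.crs, L_add, Pi.add_apply]
      rw [← Finset.sum_add_distrib]
      exact Finset.sum_congr rfl fun k _ => by ring)
    (by
      intro c x y
      simp only [Fam.crs, L_smul, Pi.smul_apply, smul_eq_mul]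
      rw [Finset.mul_sum]
      exact Finset.sum_congr rfl fun k _ => by ring)
    (by
      intro x y z
      simp only [Fam.crs, L_add, Pi.add_apply]
      rw [← Finset.sum_add_distrib]
      exact Finset.sum_congr rfl fun k _ => by ring)
    (by
      intro c x y
      simp only [Fam.crs, L_smul, Pi.smul_apply, smul_eq_mul]
      rw [Finset.mul_sum]
      exact Finset.sum_congr rfl fun k _ => by ring)

/-- the form on the spaces of the deterministic equations -/
noncomputable def crsV (F : Fam M J) (i j : Fin M) :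
    F.V i →ₗ[ZMod 2] F.V j →ₗ[ZMod 2] ZMod 2 :=
  (crsL F i j).compl₁₂ (F.V i).subtype (F.V j).subtype

lemma crsV_apply (F : Fam M J) (i j : Fin M) (v : F.V i) (v' : F.V j) :
    crsV F i j v v' = F.crs i j (v : F.U i ⊕ J → ZMod 2) (v' : F.U j ⊕ J → ZMod 2) := rfl

/-- the number of the isotropic independent tuples -/
noncomputable def IS (F : Fam M J) {N : ℕ} (s : Fin N → Fin M) : ℕ :=
  (univ.filter fun w : (a : Fin N) → F.V (s a) =>
    LinearIndependent (ZMod 2) (fun a => ((pr (F.U (s a)) J).comp (F.V (s a)).subtype) (w a)) ∧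
      ∀ a b, a < b → crsV F (s a) (s b) (w a) (w b) = 0).card

/-- the sum over the completions -/
lemma sum_XN (hC : S_CNTJ) (F : Fam M J) (m R : ℕ) (hF : F.Ok m R) {N : ℕ} (s : Fin N → Fin M) :
    (∑ α : prs (univ : Finset J) → ZMod 2, (F.XN s α : ℝ)) * 2 ^ (Fintype.card J * N) =
      (IS F s : ℝ) * 2 ^ ((prs (univ : Finset J)).card + N + N.choose 2) := by
  have h3 : ∑ α : prs (univ : Finset J) → ZMod 2, (F.XN s α : ℝ) =
      ∑ w ∈ (univ.filter fun w : (a : Fin N) → (F.U (s a) ⊕ J → ZMod 2) =>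
        LinearIndependent (ZMod 2) (fun a => pr (F.U (s a)) J (w a))),
        ((univ.filter fun α : prs (univ : Finset J) → ZMod 2 =>
          ∀ a, w a ∈ F.K (s a) α).card : ℝ) := by
    have e1 : ∀ α : prs (univ : Finset J) → ZMod 2, (F.XN s α : ℝ) =
        ∑ w ∈ (univ.filter fun w : (a : Fin N) → (F.U (s a) ⊕ J → ZMod 2) =>
          LinearIndependent (ZMod 2) (fun a => pr (F.U (s a)) J (w a))),
          if ∀ a, w a ∈ F.K (s a) α then (1 : ℝ) else 0 := by
      intro α
      rw [Fam.XN, ← Finset.filter_filter, Finset.card_filter]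
      push_cast
      rfl
    simp only [e1]
    rw [Finset.sum_comm]
    refine Finset.sum_congr rfl fun w _ => ?_
    rw [Finset.card_filter]
    push_cast
    rfl
  rw [h3, Finset.sum_mul]
  have h4 : ∀ w ∈ (univ.filter fun w : (a : Fin N) → (F.U (s a) ⊕ J → ZMod 2) =>
        LinearIndependent (ZMod 2) (fun a => pr (F.U (s a)) J (w a))),
        ((univ.filter fun α : prs (univ : Finset J) → ZMod 2 =>
          ∀ a, w a ∈ F.K (s a) α).card : ℝ) * 2 ^ (Fintype.card J * N) =
      if (∀ a, w a ∈ F.V (s a)) ∧ (∀ a b, a < b → F.crs (s a) (s b) (w a) (w b) = 0)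
      then (2 : ℝ) ^ ((prs (univ : Finset J)).card + N + N.choose 2) else 0 := by
    intro w hw
    rw [mem_filter] at hw
    exact hC M J F m R hF N s w hw.2
  rw [Finset.sum_congr rfl h4, ← Finset.sum_filter, Finset.filter_filter, Finset.sum_const,
    nsmul_eq_mul]
  congr 1
  rw [Nat.cast_inj, IS]
  symm
  apply Finset.card_bij (fun (w : (a : Fin N) → F.V (s a)) _ =>
    fun a => (w a : F.U (s a) ⊕ J → ZMod 2))
  · intro w hs
    simp only [mem_filter, mem_univ, true_and] at hs ⊢
    exact ⟨hs.1, fun a => (w a).2, hs.2⟩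
  · intro w _ w' _ hss
    funext a
    exact Subtype.ext (congrFun hss a)
  · intro w hw
    simp only [mem_filter, mem_univ, true_and] at hw
    refine ⟨fun a => ⟨w a, hw.2.1 a⟩, ?_, rfl⟩
    simp only [mem_filter, mem_univ, true_and]
    exact ⟨hw.1, hw.2.2⟩

lemma choose_le (N : ℕ) : N.choose 2 + N ≤ (N + 1) ^ 2 := by
  rw [Nat.choose_two_right]
  have h1 : N * (N - 1) / 2 ≤ N * (N - 1) := Nat.div_le_self _ _
  have h2 : N * (N - 1) ≤ N * N := Nat.mul_le_mul_left _ (Nat.sub_le _ _)
  nlinarith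

lemma final_bound (N m R : ℕ) : (2 : ℝ) ^ (N.choose 2) *
    (2 ^ (2 * m + 2) / 2 ^ R + 2 ^ N * (2 ^ (m + 1) / 2 ^ R)) ≤
    2 ^ ((N + 1) ^ 2) * 2 ^ (2 * m + 3) / 2 ^ R := by
  have h0 := choose_le N
  have h1 : (2 : ℝ) ^ (N.choose 2) * (2 ^ (2 * m + 2) / 2 ^ R + 2 ^ N * (2 ^ (m + 1) / 2 ^ R)) =
      (2 ^ (N.choose 2 + (2 * m + 2)) + 2 ^ (N.choose 2 + N + (m + 1))) / 2 ^ R := by
    rw [pow_add, pow_add, pow_add]
    ring
  rw [h1]
  apply div_le_div_of_nonneg_right _ (by positivity)
  have h2 : (2 : ℝ) ^ (N.choose 2 + (2 * m + 2)) ≤ 2 ^ ((N + 1) ^ 2 + (2 * m + 2)) :=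
    pow_le_pow_right₀ (by norm_num) (by omega)
  have h3 : (2 : ℝ) ^ (N.choose 2 + N + (m + 1)) ≤ 2 ^ ((N + 1) ^ 2 + (2 * m + 2)) :=
    pow_le_pow_right₀ (by norm_num) (by omega)
  have h4 : (2 : ℝ) ^ ((N + 1) ^ 2) * 2 ^ (2 * m + 3) = 2 * 2 ^ ((N + 1) ^ 2 + (2 * m + 2)) := by
    rw [← pow_add, ← pow_succ']
    congr 1
  linarith

end XMOM

open XMOM in
theorem t_MOM : S_ISO → S_CNTJ → S_RADJ → S_MOM := by
  intro hI hC hR M J _ _ F m R hF N s
  rcases Nat.eq_zero_or_pos N with rfl | hN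
  · have h1 : ∀ α : prs (univ : Finset J) → ZMod 2, F.XN s α = 1 := by
      intro α
      rw [Fam.XN, Finset.filter_true_of_mem]
      · rw [Finset.card_univ]
        simp
      · intro w _
        exact ⟨linearIndependent_empty_type, fun a => a.elim0⟩
    simp only [h1]
    have h2 : (∑ _α : prs (univ : Finset J) → ZMod 2, ((1 : ℕ) : ℝ)) =
        2 ^ (prs (univ : Finset J)).card := by
      rw [Finset.sum_const, Finset.card_univ, Fintype.card_fun, ZMod.card, Fintype.card_coe]
      simp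
    rw [h2, div_self (by positivity), sub_self, abs_zero]
    positivity
  have i0 : Fin M := s ⟨0, hN⟩
  have hRn : R < Fintype.card J := by
    refine lt_of_lt_of_le (hF.rad i0 i0) ?_
    rw [← Finset.card_univ]
    exact Finset.card_filter_le _ _
  have hJ : Nonempty J := Fintype.card_pos_iff.1 (by omega)
  have hV : ∀ i, (Fintype.card (F.V i) : ℝ) * 2 = 2 ^ Fintype.card J := by
    intro i
    have h1 := card_V0 (F.A i) (F.C i) (F.f i) (F.b i) F.g F.h (hF.nd i)
    have h2 : Fintype.card (F.V i) * 2 = 2 ^ Fintype.card J := h1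
    exact_mod_cast h2
  have hVR : ∀ i, (2 : ℝ) ^ R ≤ Fintype.card (F.V i) := by
    intro i
    have h1 := hV i
    have h2 : (2 : ℝ) ^ (R + 1) ≤ 2 ^ Fintype.card J := pow_le_pow_right₀ (by norm_num) hRn
    rw [pow_succ] at h2
    linarith
  have h2R : (0 : ℝ) < 2 ^ R := by positivity
  have key := hI N (fun a => F.V (s a)) (WW J)
    (fun a => (pr (F.U (s a)) J).comp (F.V (s a)).subtype)
    (fun a b => crsV F (s a) (s b)) (2 ^ (2 * m + 2) / 2 ^ R) (2 ^ (m + 1) / 2 ^ R)
    (by positivity) (by positivity)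
    (by
      intro a b
      have h1 := hR M J F m R hF (s a) (s b)
      rw [div_mul_eq_mul_div, le_div_iff₀ h2R]
      exact h1)
    (by
      intro a
      have h1 := ker_bound (F.V (s a))
      have h2 : ((univ.filter fun v : F.V (s a) =>
          ((pr (F.U (s a)) J).comp (F.V (s a)).subtype) v = 0).card : ℝ) ≤ 2 ^ (m + 1) := by
        refine le_trans (b := (2 : ℝ) ^ (Fintype.card (F.U (s a)) + 1)) ?_ ?_
        · exact_mod_cast h1
        · exact pow_le_pow_right₀ (by norm_num) (Nat.succ_le_succ (hF.card (s a)))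
      refine le_trans h2 ?_
      rw [div_mul_eq_mul_div, le_div_iff₀ h2R]
      exact mul_le_mul_of_nonneg_left (hVR (s a)) (by positivity))
  have hsum := sum_XN hC F m R hF s
  have key' : |(IS F s : ℝ) * 2 ^ (N.choose 2) - ∏ a, (Fintype.card (F.V (s a)) : ℝ)| ≤
      2 ^ (N.choose 2) * (2 ^ (2 * m + 2) / 2 ^ R + 2 ^ N * (2 ^ (m + 1) / 2 ^ R)) *
        ∏ a, (Fintype.card (F.V (s a)) : ℝ) := key
  have hprod : (∏ a, (Fintype.card (F.V (s a)) : ℝ)) * 2 ^ N = 2 ^ (Fintype.card J * N) := by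
    have h1 : (∏ a : Fin N, ((Fintype.card (F.V (s a)) : ℝ) * 2)) =
        ∏ _a : Fin N, (2 : ℝ) ^ Fintype.card J := Finset.prod_congr rfl fun a _ => hV (s a)
    rw [Finset.prod_mul_distrib, Finset.prod_const, Finset.prod_const, Finset.card_univ,
      Fintype.card_fin, ← pow_mul] at h1
    exact h1
  have hprod0 : 0 < ∏ a, (Fintype.card (F.V (s a)) : ℝ) :=
    Finset.prod_pos fun a _ => lt_of_lt_of_le h2R (hVR (s a))
  set Pr := ∏ a, (Fintype.card (F.V (s a)) : ℝ) with hPr
  set T := ∑ α : prs (univ : Finset J) → ZMod 2, (F.XN s α : ℝ) with hT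
  have hTe : T / 2 ^ (prs (univ : Finset J)).card = (IS F s : ℝ) * 2 ^ (N.choose 2) / Pr := by
    rw [div_eq_div_iff (by positivity) hprod0.ne']
    have h1 : (T * Pr) * 2 ^ N =
        ((IS F s : ℝ) * 2 ^ (N.choose 2) * 2 ^ (prs (univ : Finset J)).card) * 2 ^ N := by
      calc (T * Pr) * 2 ^ N = T * (Pr * 2 ^ N) := by ring
        _ = T * 2 ^ (Fintype.card J * N) := by rw [hprod]
        _ = _ := by rw [hsum, pow_add, pow_add]; ring
    exact mul_right_cancel₀ (by positivity) h1
  have hfin : T / 2 ^ (prs (univ : Finset J)).card - 1 =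
      ((IS F s : ℝ) * 2 ^ (N.choose 2) - Pr) / Pr := by
    rw [hTe, sub_div, div_self hprod0.ne']
  rw [hfin, abs_div, abs_of_pos hprod0, div_le_iff₀ hprod0]
  refine le_trans key' ?_
  exact mul_le_mul_of_nonneg_right (final_bound N m R) hprod0.le

end Pool.Agent.H735X
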