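import Pool.Agent.H735X.Stm

set_option autoImplicit false
set_option linter.unusedVariables false

open scoped Classical

namespace Pool.Agent.H735X

open Finset
open Pool.Agent.Y703.CX (sm la jj XX eL zz kk S_SIE)
open Pool.Agent.Y703.CQ (nr sg prs HB ext S_EQ Sml)
open Pool.Agent.H757_X15.DD
open Pool.Agent.H757_X15.DD.LA4

namespace RADJ

variable {M : ℕ} {J : Type} [Fintype J] [LinearOrder J]

lemma L_add (F : Fam M J) (i : Fin M) (x y : F.U i ⊕ J → ZMod 2) (k : J) :
    F.L i (x + y) k = F.L i x k + F.L i y k :=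
  congrFun ((LpL (MM (F.A i) (F.C i) (F.f i) F.g (Pool.Agent.H757_X15.DD.rec F.g 0))
    (Sum.elim (F.f i) F.g)).map_add x y) (Sum.inr k)

lemma L_smul (F : Fam M J) (i : Fin M) (c : ZMod 2) (x : F.U i ⊕ J → ZMod 2) (k : J) :
    F.L i (c • x) k = c * F.L i x k :=
  congrFun ((LpL (MM (F.A i) (F.C i) (F.f i) F.g (Pool.Agent.H757_X15.DD.rec F.g 0))
    (Sum.elim (F.f i) F.g)).map_smul c x) (Sum.inr k)

/-- the form as a bilinear map -/
noncomputable def crsL (F : Fam M J) (i j : Fin M) :
    (F.U i ⊕ J → ZMod 2) →ₗ[ZMod 2] (F.U j ⊕ J → ZMod 2) →ₗ[ZMod 2] ZMod 2 :=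
  LinearMap.mk₂ (ZMod 2) (F.crs i j)
    (by
      intro x y z
      simp only [Fam.crs, L_add, Pi.add_apply, ← Finset.sum_add_distrib]
      exact Finset.sum_congr rfl fun k _ => by ring)
    (by
      intro c x z
      simp only [Fam.crs, L_smul, Pi.smul_apply, smul_eq_mul, Finset.mul_sum]
      exact Finset.sum_congr rfl fun k _ => by ring)
    (by
      intro x y z
      simp only [Fam.crs, L_add, Pi.add_apply, ← Finset.sum_add_distrib]
      exact Finset.sum_congr rfl fun k _ => by ring)
    (by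
      intro c x z
      simp only [Fam.crs, L_smul, Pi.smul_apply, smul_eq_mul, Finset.mul_sum]
      exact Finset.sum_congr rfl fun k _ => by ring)

lemma crsL_apply (F : Fam M J) (i j : Fin M) (w : F.U i ⊕ J → ZMod 2) (w' : F.U j ⊕ J → ZMod 2) :
    crsL F i j w w' = F.crs i j w w' := rfl

lemma ext_zero (k l : J) : ext (0 : prs (univ : Finset J) → ZMod 2) k l = 0 := by
  simp [Pool.Agent.Y703.CQ.ext]

lemma rec_symm (g : J → ZMod 2) (k l : J) :
    Pool.Agent.H757_X15.DD.rec g 0 k l + Pool.Agent.H757_X15.DD.rec g 0 l k =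
      if k = l then 0 else g k * g l := by
  unfold Pool.Agent.H757_X15.DD.rec
  rw [ext_zero, ext_zero]
  by_cases h : k = l
  · subst h
    simp
  · rw [if_neg h]
    rcases lt_or_gt_of_ne h with h | h
    · rw [if_neg (not_lt.mpr h.le), if_pos h]; ring
    · rw [if_pos h, if_neg (not_lt.mpr h.le)]; ring

/-- the value at a unit vector -/
lemma crs_single (F : Fam M J) (i j : Fin M) (d : F.U i ⊕ J → ZMod 2) (k : J) :
    F.crs i j d (Pi.single (Sum.inr k) 1) =
      ∑ u, F.C i k u * d (Sum.inl u) + (F.g k + F.d i j k) * d (Sum.inr k) +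
        F.g k * ∑ l, F.g l * d (Sum.inr l) := by
  have hLj : ∀ l, F.L j (Pi.single (Sum.inr k) 1) l =
      (if l = k then ∑ u, F.C j k u + ∑ m, Pool.Agent.H757_X15.DD.rec F.g 0 k m + F.g k else 0) +
        Pool.Agent.H757_X15.DD.rec F.g 0 l k := by
    intro l
    rw [Fam.L, Lp_inr]
    by_cases hl : l = k
    · subst hl
      simp [Pi.single_apply, mul_add, Finset.sum_add_distrib]
      ring
    · simp [Pi.single_apply, hl]
  have hLi : F.L i d k = ∑ u, F.C i k u * d (Sum.inl u) + (∑ u, F.C i k u) * d (Sum.inr k) +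
      ∑ l, Pool.Agent.H757_X15.DD.rec F.g 0 k l * d (Sum.inr l) +
      (∑ l, Pool.Agent.H757_X15.DD.rec F.g 0 k l) * d (Sum.inr k) + F.g k * d (Sum.inr k) := by
    rw [Fam.L, Lp_inr]
    simp only [mul_add, Finset.sum_add_distrib, Finset.sum_mul]
    ring
  have h1 : F.crs i j d (Pi.single (Sum.inr k) 1) =
      F.L i d k + ∑ l, d (Sum.inr l) * F.L j (Pi.single (Sum.inr k) 1) l := by
    rw [Fam.crs, Finset.sum_add_distrib]
    congr 1
    simp [Pi.single_apply]
  have h2 : ∑ l, d (Sum.inr l) * F.L j (Pi.single (Sum.inr k) 1) l =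
      d (Sum.inr k) * (∑ u, F.C j k u + ∑ m, Pool.Agent.H757_X15.DD.rec F.g 0 k m + F.g k) +
      ∑ l, Pool.Agent.H757_X15.DD.rec F.g 0 l k * d (Sum.inr l) := by
    simp only [hLj, mul_add (d _), Finset.sum_add_distrib]
    congr 1
    · simp
      ring
    · exact Finset.sum_congr rfl fun l _ => mul_comm _ _
  have h3 : ∑ l, Pool.Agent.H757_X15.DD.rec F.g 0 k l * d (Sum.inr l) +
      ∑ l, Pool.Agent.H757_X15.DD.rec F.g 0 l k * d (Sum.inr l) =
      F.g k * (∑ l, F.g l * d (Sum.inr l)) + F.g k * d (Sum.inr k) := by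
    have e1 : ∀ l, Pool.Agent.H757_X15.DD.rec F.g 0 k l * d (Sum.inr l) +
        Pool.Agent.H757_X15.DD.rec F.g 0 l k * d (Sum.inr l) =
        F.g k * (F.g l * d (Sum.inr l)) + if k = l then F.g k * d (Sum.inr k) else 0 := by
      intro l
      rw [← add_mul, rec_symm]
      split_ifs with h
      · subst h
        have h4 := sq_self (F.g k)
        have h5 := two_zero (F.g k * d (Sum.inr k))
        linear_combination (-1 : ZMod 2) * d (Sum.inr k) * h4 - h5
      · ring
    rw [← Finset.sum_add_distrib, Finset.sum_congr rfl fun l _ => e1 l, Finset.sum_add_distrib,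
      Finset.mul_sum]
    congr 1
    simp
  rw [h1, h2, hLi, Fam.d]
  have h6 := two_zero ((∑ l, Pool.Agent.H757_X15.DD.rec F.g 0 k l) * d (Sum.inr k))
  have h7 := two_zero (F.g k * d (Sum.inr k))
  linear_combination h3 + h6 + h7

lemma rad_card (F : Fam M J) (i j : Fin M) (H : Nn (F.C j) F.g F.h) :
    (univ.filter fun v : F.V i => ∀ v' : F.V j,
      F.crs i j (v : F.U i ⊕ J → ZMod 2) (v' : F.U j ⊕ J → ZMod 2) = 0).card ≤
      2 ^ (Fintype.card (F.U j) + 1 + Fintype.card (F.U i) + 1 +
        Fintype.card {k : J // F.g k + F.d i j k = 0}) := by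
  obtain ⟨G, hG⟩ := LinearMap.exists_rightInverse_of_surjective
    (Ph (F.A j) (F.C j) (F.f j) (F.b j) F.g F.h)
    (LinearMap.range_eq_top.mpr (Ph_surj (F.A j) (F.C j) (F.f j) (F.b j) F.g F.h H))
  have h1 : (univ : Finset (((F.U j → ZMod 2) × ZMod 2) × ((F.U i → ZMod 2) × (ZMod 2 ×
      ({k : J // F.g k + F.d i j k = 0} → ZMod 2))))).card =
      2 ^ (Fintype.card (F.U j) + 1 + Fintype.card (F.U i) + 1 +
        Fintype.card {k : J // F.g k + F.d i j k = 0}) := by
    rw [Finset.card_univ, Fintype.card_prod, Fintype.card_prod, Fintype.card_prod,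
      Fintype.card_prod, Fintype.card_fun, Fintype.card_fun, Fintype.card_fun, ZMod.card]
    ring
  rw [← h1]
  apply Finset.card_le_card_of_injOn (fun v : F.V i =>
    (((fun u => F.crs i j v (G (Pi.single u 1, 0))), F.crs i j v (G (0, 1))),
      ((fun u => (v : F.U i ⊕ J → ZMod 2) (Sum.inl u)),
        ((∑ l, F.g l * (v : F.U i ⊕ J → ZMod 2) (Sum.inr l)),
          fun k => (v : F.U i ⊕ J → ZMod 2) (Sum.inr k.1)))))
  · intro v _; exact mem_coe.mpr (mem_univ _)
  · intro v hv v' hv' hvv
    simp only [coe_filter, mem_univ, true_and, Set.mem_ofPred_eq] at hv hv'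
    simp only [Prod.mk.injEq] at hvv
    obtain ⟨⟨e1, e2⟩, e3, e4, e5⟩ := hvv
    set d : F.U i ⊕ J → ZMod 2 := (v : F.U i ⊕ J → ZMod 2) - v' with hd
    have hdom : ∀ e, crsL F i j d e = F.crs i j v e - F.crs i j v' e := by
      intro e
      rw [hd, map_sub, LinearMap.sub_apply]; rfl
    have hdG : (crsL F i j d).comp G = 0 := by
      apply LinearMap.ext
      intro z
      have h1 : z = ∑ u, z.1 u • ((Pi.single u 1 : F.U j → ZMod 2), (0 : ZMod 2)) +
          z.2 • ((0 : F.U j → ZMod 2), (1 : ZMod 2)) := by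
        apply Prod.ext
        · funext v
          simp [Prod.fst_sum, Finset.sum_apply, Pi.single_apply]
        · simp [Prod.snd_sum]
      rw [h1]
      simp only [map_add, map_sum, map_smul, LinearMap.comp_apply, hdom, LinearMap.zero_apply]
      have e1' : ∀ u, F.crs i j v (G (Pi.single u 1, 0)) - F.crs i j v' (G (Pi.single u 1, 0)) =
          0 := by
        intro u
        rw [sub_eq_zero]
        exact congrFun e1 u
      simp only [e1', e2, sub_self, smul_zero, Finset.sum_const_zero, add_zero]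
    have hdV : ∀ e ∈ F.V j, crsL F i j d e = 0 := by
      intro e he
      rw [hdom]
      have e5 : F.crs i j v e = 0 := hv ⟨e, he⟩
      have e6 : F.crs i j v' e = 0 := hv' ⟨e, he⟩
      rw [e5, e6, sub_self]
    have hdall : ∀ e, crsL F i j d e = 0 := by
      intro e
      have e7 : e - G (Ph (F.A j) (F.C j) (F.f j) (F.b j) F.g F.h e) ∈ F.V j := by
        rw [Fam.V, V0, LinearMap.mem_ker, map_sub]
        have := LinearMap.congr_fun hG (Ph (F.A j) (F.C j) (F.f j) (F.b j) F.g F.h e)
        rw [LinearMap.comp_apply, LinearMap.id_apply] at this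
        rw [this, sub_self]
      have e8 := hdV _ e7
      have e9 := LinearMap.congr_fun hdG (Ph (F.A j) (F.C j) (F.f j) (F.b j) F.g F.h e)
      rw [LinearMap.comp_apply, LinearMap.zero_apply] at e9
      rw [map_sub, e9, sub_zero] at e8
      exact e8
    have hdl : ∀ u, d (Sum.inl u) = 0 := by
      intro u
      have h8 : (v : F.U i ⊕ J → ZMod 2) (Sum.inl u) = (v' : F.U i ⊕ J → ZMod 2) (Sum.inl u) :=
        congrFun e3 u
      rw [hd, Pi.sub_apply, h8, sub_self]
    have had : ∑ l, F.g l * d (Sum.inr l) = 0 := by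
      simp only [hd, Pi.sub_apply, mul_sub, Finset.sum_sub_distrib, e4, sub_self]
    have hd0 : d = 0 := by
      funext p
      rcases p with u | k
      · exact hdl u
      · by_cases hk : F.g k + F.d i j k = 0
        · have h8 : (v : F.U i ⊕ J → ZMod 2) (Sum.inr k) = (v' : F.U i ⊕ J → ZMod 2) (Sum.inr k) :=
            congrFun e5 ⟨k, hk⟩
          rw [hd, Pi.sub_apply, h8, sub_self]; rfl
        · have h8 := hdall (Pi.single (Sum.inr k) 1)
          rw [crsL_apply, crs_single, had, mul_zero, add_zero] at h8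
          simp only [hdl, mul_zero, Finset.sum_const_zero, zero_add] at h8
          rcases zmod2_cases (F.g k + F.d i j k) with h9 | h9
          · exact absurd h9 hk
          · rw [h9, one_mul] at h8
            exact h8
    apply Subtype.ext
    rw [hd, sub_eq_zero] at hd0
    exact hd0

end RADJ

theorem t_RADJ : S_RADJ := by
  intro M J _ _ F m R hF i j
  have h1 := RADJ.rad_card F i j (hF.nd j)
  have h2 := card_V0 (F.A i) (F.C i) (F.f i) (F.b i) F.g F.h (hF.nd i)
  have h3 : Fintype.card {k : J // F.g k + F.d i j k = 0} + R + 1 ≤ Fintype.card J := by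
    rw [Fintype.card_subtype]
    have h4 := Finset.card_filter_add_card_filter_not (s := (univ : Finset J))
      (fun k : J => F.g k + F.d i j k = 0)
    rw [Finset.card_univ] at h4
    have h5 := hF.rad i j
    simp only [ne_eq] at h5
    omega
  have h6 := hF.card i
  have h7 := hF.card j
  have h8 : (univ.filter fun v : F.V i => ∀ v' : F.V j,
      F.crs i j (v : F.U i ⊕ J → ZMod 2) (v' : F.U j ⊕ J → ZMod 2) = 0).card * 2 ^ R * 2 ≤
      2 ^ (2 * m + 2) * Fintype.card (F.V i) * 2 := by
    have h9 : Fintype.card (F.V i) * 2 = 2 ^ Fintype.card J := h2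
    rw [mul_assoc, mul_assoc, h9, ← pow_succ, ← pow_add]
    calc _ ≤ 2 ^ (Fintype.card (F.U j) + 1 + Fintype.card (F.U i) + 1 +
        Fintype.card {k : J // F.g k + F.d i j k = 0}) * 2 ^ (R + 1) :=
          Nat.mul_le_mul_right _ h1
      _ ≤ _ := by
          rw [← pow_add]
          exact Nat.pow_le_pow_right (by norm_num) (by omega)
  have h10 := Nat.le_of_mul_le_mul_right h8 (by norm_num)
  exact_mod_cast h10

end Pool.Agent.H735X
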