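import Pool.Agent.H735X.Stm

/-
Project XJ (helper735, MP_696deb_nt, weight 100): the joint law for several quadratic twists of X_0(15).
Statements: Pool/Agent/H735X/Stm.lean on origin/main (copy that module and everything it imports; all the imported
modules are on origin/main; `lake build Pool.Agent.H735X.Stm` takes a few minutes the first time).

PROOF.
Let N = sum_i j i, e : Fin N = (Sigma i, Fin (j i)) an equivalence (finSigmaFinEquiv.symm), s a = (e a).1. A tuple w : (a : Fin N) -> (U (s a) + J -> F_2) is the same as a family of tuples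
w' i : Fin (j i) -> (U i + J -> F_2). prod_i TT (K i alpha) (j i) is the number of the families w' with, for all i, (pr (w' i c))_c independent and all w' i c in K i alpha (LA4.TT; Fintype.card_pi / Fintype.piFinset, or
Finset.card_filter on pi types). If the whole family is independent then all the parts are: this gives the inequality for all alpha. If alpha is not Bad and all the parts are independent then the whole family is
independent: let sum_{i,c} l_{i,c} pr (w' i c) = 0 and v_i = sum_c l_{i,c} w' i c, an element of K i alpha (a submodule); sum_i pr (v_i) = 0, so all v_i = 0 because alpha is not Bad; so sum_c l_{i,c} pr (w' i c) = 0 and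
l = 0 by the independence of the part i. (The hypothesis F.Ok is not needed.)
-/

set_option autoImplicit false
set_option linter.unusedVariables false

open scoped Classical

namespace Pool.Agent.H735X

open Finset
open Pool.Agent.Y703.CX (sm la jj XX eL zz kk S_SIE)
open Pool.Agent.Y703.CQ (nr sg prs HB ext S_EQ Sml)
open Pool.Agent.H757_X15.DD
open Pool.Agent.H757_X15.DD.LA4

theorem t_SPL : S_SPL := by
  intro M J _ _ F m R hF j
  let e : (Σ i, Fin (j i)) ≃ Fin (∑ i, j i) := finSigmaFinEquiv
  refine ⟨fun a => (e.symm a).1, fun α => ?_⟩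
  have key : F.XN (fun a => (e.symm a).1) α =
      (univ.filter fun w : (i : Fin M) → Fin (j i) → (F.U i ⊕ J → ZMod 2) =>
        LinearIndependent (ZMod 2) (fun x : Σ i, Fin (j i) => pr (F.U x.1) J (w x.1 x.2)) ∧
          ∀ i c, w i c ∈ F.K i α).card := by
    symm
    let P : (Σ i, Fin (j i)) → Type := fun x => F.U x.1 ⊕ J → ZMod 2
    let E : ((i : Fin M) → Fin (j i) → (F.U i ⊕ J → ZMod 2)) ≃
        ((a : Fin (∑ i, j i)) → P (e.symm a)) :=
      (Equiv.piCurry (fun i (c : Fin (j i)) => (F.U i ⊕ J → ZMod 2))).symm.trans
        (Equiv.piCongrLeft' P e)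
    rw [Fam.XN]
    apply Finset.card_equiv E
    intro w
    have hE : ∀ a, E w a = w (e.symm a).1 (e.symm a).2 := fun a => rfl
    simp only [mem_filter, mem_univ, true_and]
    refine and_congr ?_ ?_
    · exact (linearIndependent_equiv e.symm
        (f := fun x : Σ i, Fin (j i) => pr (F.U x.1) J (w x.1 x.2))).symm
    · constructor
      · intro h a
        exact h _ _
      · intro h i c
        have := h (e ⟨i, c⟩)
        rw [hE] at this
        generalize hx : e.symm (e ⟨i, c⟩) = x at this
        rw [e.symm_apply_apply] at hx
        subst hx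
        exact this
  have key2 : ∏ i, TT (F.K i α) (j i) =
      (Fintype.piFinset fun i => univ.filter fun w : Fin (j i) → (F.U i ⊕ J → ZMod 2) =>
        LinearIndependent (ZMod 2) (fun c => pr (F.U i) J (w c)) ∧ ∀ c, w c ∈ F.K i α).card := by
    rw [Fintype.card_piFinset]
    rfl
  rw [key, key2]
  constructor
  · apply Finset.card_le_card
    intro w hw
    simp only [mem_filter, mem_univ, true_and] at hw
    simp only [Fintype.mem_piFinset, mem_filter, mem_univ, true_and]
    intro i
    refine ⟨?_, hw.2 i⟩
    exact hw.1.comp (fun c : Fin (j i) => (⟨i, c⟩ : Σ i, Fin (j i))) (fun c c' h => eq_of_heq (Sigma.mk.inj h).2)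
  · intro hB
    congr 1
    ext w
    simp only [Fintype.mem_piFinset, mem_filter, mem_univ, true_and]
    constructor
    · intro hw i
      refine ⟨?_, hw.2 i⟩
      exact hw.1.comp (fun c : Fin (j i) => (⟨i, c⟩ : Σ i, Fin (j i))) (fun c c' h => eq_of_heq (Sigma.mk.inj h).2)
    · intro hw
      refine ⟨?_, fun i => (hw i).2⟩
      rw [Fintype.linearIndependent_iff]
      intro g hg
      rw [Fintype.sum_sigma] at hg
      have hv : ∀ i, (∑ c, g ⟨i, c⟩ • w i c) ∈ F.K i α := fun i =>
        Submodule.sum_mem _ fun c _ => Submodule.smul_mem _ _ ((hw i).2 c)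
      have hpr : ∀ i, pr (F.U i) J (∑ c, g ⟨i, c⟩ • w i c) =
          ∑ c, g ⟨i, c⟩ • pr (F.U i) J (w i c) := by
        intro i
        rw [map_sum]
        exact Finset.sum_congr rfl fun c _ => map_smul _ _ _
      have h0 : ∀ i, (∑ c, g ⟨i, c⟩ • w i c) = 0 := by
        by_contra hne
        push Not at hne
        exact hB ⟨fun i => ∑ c, g ⟨i, c⟩ • w i c, hv, hne, by
          simp only [hpr]
          exact hg⟩
      rintro ⟨i, c⟩
      have h1 := Fintype.linearIndependent_iff.1 (hw i).1 (fun c => g ⟨i, c⟩) (by
        rw [← hpr, h0, map_zero])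
      exact h1 c

end Pool.Agent.H735X
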