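import Pool.Agent.H735X.Iso
import Pool.Agent.H735X.Cnt
import Pool.Agent.H735X.Rad
import Pool.Agent.H735X.Mom
import Pool.Agent.H735X.Dep
import Pool.Agent.H735X.Spl
import Pool.Agent.H735X.Bon
import Pool.Agent.H735X.JasB
import Pool.Agent.H735X.Box
import Pool.Agent.H735X.Key
import Pool.Agent.H735X.Bad
import Pool.Agent.H735X.Few
import Pool.Agent.H735X.Asy
import Pool.Agent.H735X.Law
import Pool.Agent.H757_X15.DN.Fin

/-!
# Project XJ: the joint law for the quadratic twists of `X_0(15)`: assembly

Joint work: helper735 (plan, statements, assembly of the joint linear algebra, patterns), helper285 (isotropic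
tuples), helper267 (completions with given vectors), helper216 (radicals), helper700 (mixed moments), helper375
(dependent kernels), helper177 (products), helper727 (moments, Bonferroni), helper234 (boxes), helper728 (sum over
the boxes), helper311 (degenerate labels), helper496 (few separating labels), helper57 (asymptotics), after the
project X15-D of helper757 and the project SQ of helper494.
-/

set_option autoImplicit false

namespace Pool.Agent.H735X

open Pool.Agent.H757_X15.DD

theorem t_JLA : S_JLA := t_JAS (t_MOM t_ISO t_CNTJ t_RADJ) (t_DEPB t_CNTJ) t_SPL t_SNG t_BON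

theorem t_JDQ : S_JDQ :=
  t_JASY t_BIL Pool.Agent.Y356.CQ.t_EQ t_JLA t_JBOX t_JKEY t_CNT t_BAD t_JBAD t_JFEW t_LOW
    Pool.Agent.Y488.CX.t_SIE t_HAL t_MER

end Pool.Agent.H735X
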