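import Pool.Agent.H735X.Stm
import Pool.Agent.H757_X15.DN.LA2

/-
Project XJ (helper735, MP_696deb_nt, weight 100): the joint law for several quadratic twists of X_0(15).
Statements: Pool/Agent/H735X/Stm.lean on origin/main (copy that module and everything it imports; all the imported
modules are on origin/main; `lake build Pool.Agent.H735X.Stm` takes a few minutes the first time).

PROOF.
Everything is over F_2 = ZMod 2. Let sn a = (-1)^a (Pool.Agent.H757_X15.DD.LA2.sn, with LA2.sum_sn: the sum of a character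
over a finite group is the order of the group or 0). Let Iso be the set of all tuples w with omega a b (w a) (w b) = 0 for
a < b (no independence). Expanding the indicator of each of the C(N,2) equations,
  #Iso * 2^C(N,2) = sum over eps : pairs {a<b} -> F_2, sum over w, sn (sum_{a<b} eps_ab omega_ab(w_a, w_b)).
eps = 0 gives prod card (V a). For eps <> 0 choose a0 < b0 with eps(a0,b0) = 1. The exponent is linear in w_{b0} for fixed
other coordinates, so by sum_sn the sum over w_{b0} is card (V b0) or 0, and it is nonzero only if a certain linear functional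
on V b0 vanishes, namely  omega a0 b0 (w a0) + (terms not depending on w a0, w b0) = 0; for fixed coordinates other than a0, b0
the set of the w a0 with this property is empty or a coset of {v | forall v', omega a0 b0 v v' = 0}, so it has at most
rho * card (V a0) elements. Hence |sum over w| <= rho * prod card. There are at most 2^C(N,2) eps. So
  |#Iso * 2^C(N,2) - prod card| <= 2^C(N,2) rho prod card.
The tuples which are not independent: some lambda <> 0 in F_2^N with sum lambda_a pi_a(w_a) = 0; choose a0 with lambda_{a0} = 1; for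
fixed other coordinates w_{a0} is in the empty set or in a coset of ker pi_{a0}: at most kappa card (V a0) elements; in total at most
2^N kappa prod card. (Useful lemma: if for all w the number of v with Q (Function.update w a0 v) is at most c, then
#{w | Q w} * card (V a0) <= c * prod card: sum over w of #{v | Q (update w a0 v)} = card (V a0) * #{w | Q w}.)
An induction on N (adding the last vector, as in Pool/Agent/H757_X15/DN/LA3.lean, theorem main, which is the case of one space) is
another possibility; any proof is fine.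
-/

set_option autoImplicit false
set_option linter.unusedVariables false
set_option linter.unusedSectionVars false

open scoped Classical

namespace Pool.Agent.H735X

open Finset
open Pool.Agent.Y703.CX (sm la jj XX eL zz kk S_SIE)
open Pool.Agent.Y703.CQ (nr sg prs HB ext S_EQ Sml)
open Pool.Agent.H757_X15.DD
open Pool.Agent.H757_X15.DD.LA4

namespace ISO

open Pool.Agent.H757_X15.DD.LA2 (sn two_cases sn_add sum_sn)

section

variable {N : ℕ} {V : Fin N → Type} [∀ a, AddCommGroup (V a)] [∀ a, Fintype (V a)]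

/-- a subgroup whose trace on one coordinate is small is small -/
theorem small (a0 : Fin N) (H : AddSubgroup (∀ a, V a)) (c : ℝ)
    (h : ∀ s : Finset (V a0), (∀ x ∈ s, (Pi.single a0 x : ∀ a, V a) ∈ H) →
      (s.card : ℝ) ≤ c * Fintype.card (V a0)) (s : Finset (∀ a, V a)) (hs : ∀ w ∈ s, w ∈ H) :
    (s.card : ℝ) ≤ c * ∏ a, (Fintype.card (V a) : ℝ) := by
  let f : V a0 →+ (∀ a, V a) := AddMonoidHom.single V a0
  have e1 : Nat.card (H.comap f) * (H.comap f).index = Nat.card (V a0) :=
    AddSubgroup.card_mul_index _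
  have e2 : Nat.card H * H.index = Nat.card (∀ a, V a) := AddSubgroup.card_mul_index _
  have e3 : (H.comap f).index ≤ H.index := by
    rw [AddSubgroup.index_comap]
    exact Nat.le_of_dvd (Nat.pos_of_ne_zero AddSubgroup.index_ne_zero_of_finite)
      (AddSubgroup.relIndex_dvd_index_of_normal H f.range)
  have c1 : s.card ≤ Nat.card H := by
    rw [Nat.card_eq_fintype_card, Fintype.card_subtype]
    refine Finset.card_le_card fun w hw => ?_
    rw [mem_filter]
    exact ⟨mem_univ _, hs w hw⟩
  have h := h (univ.filter fun x : V a0 => x ∈ H.comap f) (by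
    intro x hx
    rw [mem_filter] at hx
    exact hx.2)
  have c2 : (univ.filter fun x : V a0 => x ∈ H.comap f).card = Nat.card (H.comap f) := by
    rw [Nat.card_eq_fintype_card, Fintype.card_subtype]
  rw [Nat.card_eq_fintype_card (α := V a0)] at e1
  rw [Nat.card_eq_fintype_card (α := ∀ a, V a), Fintype.card_pi] at e2
  have c1' : (s.card : ℝ) ≤ Nat.card H := by exact_mod_cast c1
  refine c1'.trans ?_
  rw [c2] at h
  have hp : (0 : ℝ) < Fintype.card (V a0) := by
    exact_mod_cast Fintype.card_pos
  have e1' : (Nat.card (H.comap f) : ℝ) * ((H.comap f).index : ℝ) = Fintype.card (V a0) := by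
    exact_mod_cast e1
  have e2' : (Nat.card H : ℝ) * (H.index : ℝ) = ∏ a, (Fintype.card (V a) : ℝ) := by
    exact_mod_cast e2
  have e3' : ((H.comap f).index : ℝ) ≤ (H.index : ℝ) := by exact_mod_cast e3
  have hk : (0 : ℝ) ≤ (Nat.card (H.comap f) : ℝ) := by positivity
  have hH : (0 : ℝ) ≤ (Nat.card H : ℝ) := by positivity
  have hI : (0 : ℝ) < (H.index : ℝ) := by
    have := Nat.pos_of_ne_zero (AddSubgroup.index_ne_zero_of_finite (H := H))
    exact_mod_cast this
  have key : (Nat.card H : ℝ) * Fintype.card (V a0) ≤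
      c * (∏ a, (Fintype.card (V a) : ℝ)) * Fintype.card (V a0) := by
    calc (Nat.card H : ℝ) * Fintype.card (V a0)
        = (Nat.card H : ℝ) * ((Nat.card (H.comap f) : ℝ) * ((H.comap f).index : ℝ)) := by rw [e1']
      _ ≤ (Nat.card H : ℝ) * ((Nat.card (H.comap f) : ℝ) * (H.index : ℝ)) := by gcongr
      _ = (∏ a, (Fintype.card (V a) : ℝ)) * (Nat.card (H.comap f) : ℝ) := by rw [← e2']; ring
      _ ≤ (∏ a, (Fintype.card (V a) : ℝ)) * (c * Fintype.card (V a0)) := by
          have : (0:ℝ) ≤ ∏ a, (Fintype.card (V a) : ℝ) := by positivity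
          gcongr
      _ = _ := by ring
  exact le_of_mul_le_mul_right key hp

variable [∀ a, Module (ZMod 2) (V a)]

/-- the bilinear form of a set of pairs -/
def B (ω : ∀ a b, V a →ₗ[ZMod 2] V b →ₗ[ZMod 2] ZMod 2) (T : Finset (Fin N × Fin N))
    (w w' : ∀ a, V a) : ZMod 2 := ∑ p ∈ T, ω p.1 p.2 (w p.1) (w' p.2)

lemma B_add_left (ω : ∀ a b, V a →ₗ[ZMod 2] V b →ₗ[ZMod 2] ZMod 2) (T : Finset (Fin N × Fin N))
    (w w₁ w' : ∀ a, V a) : B ω T (w + w₁) w' = B ω T w w' + B ω T w₁ w' := by
  simp [B, Finset.sum_add_distrib]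

lemma B_add_right (ω : ∀ a b, V a →ₗ[ZMod 2] V b →ₗ[ZMod 2] ZMod 2) (T : Finset (Fin N × Fin N))
    (w w₁ w' : ∀ a, V a) : B ω T w' (w + w₁) = B ω T w' w + B ω T w' w₁ := by
  simp [B, Finset.sum_add_distrib]

/-- the polar form -/
def Pl (ω : ∀ a b, V a →ₗ[ZMod 2] V b →ₗ[ZMod 2] ZMod 2) (T : Finset (Fin N × Fin N)) (b0 : Fin N) :
    (∀ a, V a) →+ (V b0 →+ ZMod 2) :=
  AddMonoidHom.mk' (fun w => AddMonoidHom.mk' (fun v => B ω T w (Pi.single b0 v) +
    B ω T (Pi.single b0 v) w) (by
      intro x y
      rw [Pi.single_add, B_add_left, B_add_right]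
      ring)) (by
      intro x y
      ext v
      simp only [AddMonoidHom.mk'_apply, AddMonoidHom.add_apply, B_add_left, B_add_right]
      ring)

lemma Pl_apply (ω : ∀ a b, V a →ₗ[ZMod 2] V b →ₗ[ZMod 2] ZMod 2) (T : Finset (Fin N × Fin N))
    (b0 : Fin N) (w : ∀ a, V a) (v : V b0) : Pl ω T b0 w v = B ω T w (Pi.single b0 v) +
    B ω T (Pi.single b0 v) w := rfl

lemma B_single_self (ω : ∀ a b, V a →ₗ[ZMod 2] V b →ₗ[ZMod 2] ZMod 2)
    (T : Finset (Fin N × Fin N)) (hT : ∀ p ∈ T, p.1 < p.2) (b0 : Fin N) (v v' : V b0) :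
    B ω T (Pi.single b0 v) (Pi.single b0 v') = 0 := by
  unfold B
  refine Finset.sum_eq_zero fun p hp => ?_
  have h := hT p hp
  by_cases h1 : p.1 = b0
  · have h2 : p.2 ≠ b0 := fun h2 => by
      rw [h1, h2] at h
      exact lt_irrefl _ h
    rw [Pi.single_eq_of_ne h2, map_zero]
  · rw [Pi.single_eq_of_ne h1, map_zero, LinearMap.zero_apply]

lemma B_single (ω : ∀ a b, V a →ₗ[ZMod 2] V b →ₗ[ZMod 2] ZMod 2)
    (T : Finset (Fin N × Fin N)) (a0 b0 : Fin N) (h : (a0, b0) ∈ T) (x : V a0) (v : V b0) :
    B ω T (Pi.single a0 x) (Pi.single b0 v) = ω a0 b0 x v := by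
  unfold B
  rw [Finset.sum_eq_single (a0, b0)]
  · simp
  · rintro ⟨p1, p2⟩ hp hne
    by_cases h1 : p1 = a0
    · have h2 : p2 ≠ b0 := fun h2 => hne (by rw [h1, h2])
      simp only
      rw [Pi.single_eq_of_ne h2, map_zero]
    · simp only
      rw [Pi.single_eq_of_ne h1, map_zero, LinearMap.zero_apply]
  · intro h'
    exact absurd h h'

lemma B_single' (ω : ∀ a b, V a →ₗ[ZMod 2] V b →ₗ[ZMod 2] ZMod 2)
    (T : Finset (Fin N × Fin N)) (a0 b0 : Fin N) (h : (b0, a0) ∉ T) (x : V a0) (v : V b0) :
    B ω T (Pi.single b0 v) (Pi.single a0 x) = 0 := by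
  unfold B
  refine Finset.sum_eq_zero ?_
  rintro ⟨p1, p2⟩ hp
  by_cases h1 : p1 = b0
  · have h2 : p2 ≠ a0 := fun h2 => h (by rw [← h1, ← h2]; exact hp)
    simp only
    rw [Pi.single_eq_of_ne h2, map_zero]
  · simp only
    rw [Pi.single_eq_of_ne h1, map_zero, LinearMap.zero_apply]

/-- the character sum -/
theorem csum (ω : ∀ a b, V a →ₗ[ZMod 2] V b →ₗ[ZMod 2] ZMod 2) (ρ : ℝ)
    (hρ : ∀ a b, ((univ.filter fun v : V a => ∀ v', ω a b v v' = 0).card : ℝ) ≤
      ρ * Fintype.card (V a))
    (T : Finset (Fin N × Fin N)) (hT : ∀ p ∈ T, p.1 < p.2) (hne : T.Nonempty) :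
    |∑ w : (∀ a, V a), sn (B ω T w w)| ≤ ρ * ∏ a, (Fintype.card (V a) : ℝ) := by
  obtain ⟨⟨a0, b0⟩, hab⟩ := hne
  have hlt : a0 < b0 := hT _ hab
  have hnot : (b0, a0) ∉ T := fun h => absurd (hT _ h) (not_lt.2 hlt.le)
  have hp : (0 : ℝ) < Fintype.card (V b0) := by
    exact_mod_cast Fintype.card_pos
  -- averaging
  have h1 : (Fintype.card (V b0) : ℝ) * ∑ w : (∀ a, V a), sn (B ω T w w) =
      ∑ w : (∀ a, V a), sn (B ω T w w) * ∑ v : V b0, sn (Pl ω T b0 w v) := by
    have : ∀ v : V b0, ∑ w : (∀ a, V a), sn (B ω T w w) =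
        ∑ w : (∀ a, V a), sn (B ω T w w) * sn (Pl ω T b0 w v) := by
      intro v
      rw [← Equiv.sum_comp (Equiv.addRight (Pi.single b0 v : ∀ a, V a))]
      refine Finset.sum_congr rfl fun w _ => ?_
      rw [Equiv.coe_addRight, B_add_left, B_add_right, B_add_right, B_single_self ω T hT, add_zero,
        add_assoc, sn_add, Pl_apply]
    calc (Fintype.card (V b0) : ℝ) * ∑ w : (∀ a, V a), sn (B ω T w w)
        = ∑ v : V b0, ∑ w : (∀ a, V a), sn (B ω T w w) := by
          rw [Finset.sum_const, Finset.card_univ, nsmul_eq_mul]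
      _ = ∑ v : V b0, ∑ w : (∀ a, V a), sn (B ω T w w) * sn (Pl ω T b0 w v) :=
          Finset.sum_congr rfl fun v _ => this v
      _ = _ := by
          rw [Finset.sum_comm]
          simp only [Finset.mul_sum]
  have h2 : |(Fintype.card (V b0) : ℝ) * ∑ w : (∀ a, V a), sn (B ω T w w)| ≤
      (Fintype.card (V b0) : ℝ) *
        ((univ.filter fun w : ∀ a, V a => w ∈ (Pl ω T b0).ker).card : ℝ) := by
    rw [h1]
    refine (Finset.abs_sum_le_sum_abs _ _).trans ?_
    rw [Finset.card_filter]
    push_cast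
    rw [Finset.mul_sum]
    refine Finset.sum_le_sum fun w _ => ?_
    rw [sum_sn]
    have habs : |sn (B ω T w w)| = 1 := by
      unfold sn
      split_ifs <;> simp
    rw [abs_mul, habs, one_mul]
    by_cases hw : w ∈ (Pl ω T b0).ker
    · have hw' : Pl ω T b0 w = 0 := hw
      rw [if_pos hw, if_pos (by intro g; rw [hw']; rfl), mul_one, abs_of_pos hp]
    · rw [if_neg hw, if_neg, abs_zero, mul_zero]
      intro h
      exact hw (by
        rw [AddMonoidHom.mem_ker]
        ext g
        exact h g)
  rw [abs_mul, abs_of_pos hp] at h2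
  have h3 := le_of_mul_le_mul_left h2 hp
  refine h3.trans (small a0 (Pl ω T b0).ker ρ ?_ _ (fun w hw => (mem_filter.1 hw).2))
  intro s hs
  refine le_trans ?_ (hρ a0 b0)
  have : s ⊆ univ.filter fun v : V a0 => ∀ v', ω a0 b0 v v' = 0 := by
    intro x hx
    rw [mem_filter]
    refine ⟨mem_univ _, fun v' => ?_⟩
    have h5 : Pl ω T b0 (Pi.single a0 x) = 0 := hs x hx
    have h6 : Pl ω T b0 (Pi.single a0 x) v' = 0 := by rw [h5]; rfl
    rw [Pl_apply, B_single ω T a0 b0 hab, B_single' ω T a0 b0 hnot, add_zero] at h6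
    exact h6
  exact_mod_cast Finset.card_le_card this

end

end ISO

open ISO in
open Pool.Agent.H757_X15.DD.LA2 (sn two_cases sn_add sum_sn) in
theorem t_ISO : S_ISO := by
  intro N V _ _ _ W _ _ π ω ρ κ hρ0 hκ0 hρ hκ
  set P : Finset (Fin N × Fin N) := univ.filter fun p => p.1 < p.2 with hP
  have hPc : P.card = N.choose 2 := by
    have h1 : P = (univ : Finset (Fin N × Fin N)).filter fun p => p.1 < p.2 := rfl
    have h2 : P.card = ((univ : Finset (Fin N)).powersetCard 2).card := by
      refine Finset.card_bij (fun p _ => {p.1, p.2}) ?_ ?_ ?_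
      · intro p hp
        rw [hP, mem_filter] at hp
        rw [mem_powersetCard]
        exact ⟨subset_univ _, Finset.card_pair hp.2.ne⟩
      · rintro ⟨a, b⟩ hp ⟨c, d⟩ hq h
        rw [hP, mem_filter] at hp hq
        have hp := hp.2
        have hq := hq.2
        simp only at hp hq h
        have ha : a ∈ ({c, d} : Finset (Fin N)) := by rw [← h]; simp
        have hb : b ∈ ({c, d} : Finset (Fin N)) := by rw [← h]; simp
        rw [mem_insert, mem_singleton] at ha hb
        rcases ha with rfl | rfl <;> rcases hb with rfl | rfl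
        · exact absurd hp (lt_irrefl _)
        · rfl
        · exact absurd hp (not_lt.2 hq.le)
        · exact absurd hp (lt_irrefl _)
      · intro s hs
        rw [mem_powersetCard, Finset.card_eq_two] at hs
        obtain ⟨x, y, hxy, rfl⟩ := hs.2
        rcases lt_or_gt_of_ne hxy with h | h
        · exact ⟨(x, y), by rw [hP, mem_filter]; exact ⟨mem_univ _, h⟩, rfl⟩
        · exact ⟨(y, x), by rw [hP, mem_filter]; exact ⟨mem_univ _, h⟩, Finset.pair_comm _ _⟩
    rw [h2, Finset.card_powersetCard, Finset.card_univ, Fintype.card_fin]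
  set Q : ℝ := ∏ a, (Fintype.card (V a) : ℝ) with hQ
  have hQ0 : 0 ≤ Q := by positivity
  have hcard : (Fintype.card (∀ a, V a) : ℝ) = Q := by
    rw [Fintype.card_pi]; push_cast; rfl
  set Iso : Finset (∀ a, V a) := univ.filter fun w => ∀ a b, a < b → ω a b (w a) (w b) = 0 with hIso
  set Dep : Finset (∀ a, V a) := univ.filter fun w => ¬ LinearIndependent (ZMod 2) (fun a => π a (w a))
    with hDep
  set X : Finset (∀ a, V a) := univ.filter fun w : (a : Fin N) → V a =>
      LinearIndependent (ZMod 2) (fun a => π a (w a)) ∧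
      ∀ a b, a < b → ω a b (w a) (w b) = 0 with hX
  have hsub1 : X.card ≤ Iso.card := Finset.card_le_card (by
    intro w hw
    rw [hX, mem_filter] at hw
    rw [hIso, mem_filter]
    exact ⟨mem_univ _, hw.2.2⟩)
  have hsub2 : Iso.card ≤ X.card + Dep.card := by
    refine le_trans (Finset.card_le_card (t := X ∪ Dep) ?_) (Finset.card_union_le _ _)
    intro w hw
    rw [hIso, mem_filter] at hw
    rw [mem_union, hX, hDep, mem_filter, mem_filter]
    by_cases h : LinearIndependent (ZMod 2) (fun a => π a (w a))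
    · exact Or.inl ⟨mem_univ _, h, hw.2⟩
    · exact Or.inr ⟨mem_univ _, h⟩
  -- the isotropic tuples
  have hiso : |(Iso.card : ℝ) * 2 ^ (N.choose 2) - Q| ≤ 2 ^ (N.choose 2) * (ρ * Q) := by
    have e1 : (Iso.card : ℝ) * 2 ^ (N.choose 2) = ∑ w : (∀ a, V a),
        ∏ p ∈ P, (1 + sn (ω p.1 p.2 (w p.1) (w p.2))) := by
      rw [hIso, Finset.card_filter]
      push_cast
      rw [Finset.sum_mul]
      refine Finset.sum_congr rfl fun w _ => ?_
      split_ifs with h
      · rw [one_mul, ← hPc, ← Finset.prod_const]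
        refine Finset.prod_congr rfl fun p hp => ?_
        rw [hP, mem_filter] at hp
        rw [h _ _ hp.2]
        norm_num [sn]
      · rw [zero_mul]
        push Not at h
        obtain ⟨a, b, hab, h⟩ := h
        refine (Finset.prod_eq_zero (i := (a, b)) (by rw [hP, mem_filter]; exact ⟨mem_univ _, hab⟩) ?_).symm
        have h' : ω a b (w a) (w b) = 1 := (two_cases _).resolve_left h
        simp only
        rw [h']
        simp [sn]
    have e2 : ∑ w : (∀ a, V a), ∏ p ∈ P, (1 + sn (ω p.1 p.2 (w p.1) (w p.2))) =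
        ∑ T ∈ P.powerset, ∑ w : (∀ a, V a), sn (B ω T w w) := by
      rw [Finset.sum_comm]
      refine Finset.sum_congr rfl fun w _ => ?_
      rw [Finset.prod_one_add]
      refine Finset.sum_congr rfl fun T hT => ?_
      clear hT
      unfold B
      induction T using Finset.induction_on with
      | empty => simp [sn]
      | insert p T hp ih => rw [Finset.prod_insert hp, Finset.sum_insert hp, sn_add, ih]
    have e3 : ∑ T ∈ P.powerset, ∑ w : (∀ a, V a), sn (B ω T w w) =
        ∑ T ∈ P.powerset.erase ∅, ∑ w : (∀ a, V a), sn (B ω T w w) + Q := by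
      rw [← Finset.sum_erase_add _ _ (Finset.empty_mem_powerset P)]
      congr 1
      rw [← hcard]
      simp [B, sn]
    rw [e1, e2, e3, add_sub_cancel_right]
    refine (Finset.abs_sum_le_sum_abs _ _).trans ?_
    refine (Finset.sum_le_card_nsmul _ _ (ρ * Q) ?_).trans ?_
    · intro T hT
      rw [mem_erase, mem_powerset] at hT
      refine csum ω ρ hρ T (fun p hp => ?_) (Finset.nonempty_iff_ne_empty.2 hT.1)
      have := hT.2 hp
      rw [hP, mem_filter] at this
      exact this.2
    · rw [nsmul_eq_mul]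
      have : (P.powerset.erase ∅).card ≤ 2 ^ (N.choose 2) := by
        refine (Finset.card_le_card (Finset.erase_subset _ _)).trans ?_
        rw [Finset.card_powerset, hPc]
      have h' : ((P.powerset.erase ∅).card : ℝ) ≤ 2 ^ (N.choose 2) := by exact_mod_cast this
      have : 0 ≤ ρ * Q := by positivity
      gcongr
  -- the dependent tuples
  have hdep : (Dep.card : ℝ) ≤ 2 ^ N * (κ * Q) := by
    let H : (Fin N → ZMod 2) → AddSubgroup (∀ a, V a) := fun l =>
      (∑ a, (l a) • ((π a).toAddMonoidHom.comp (Pi.evalAddMonoidHom V a)) :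
        (∀ a, V a) →+ W).ker
    have hH : ∀ l w, w ∈ H l ↔ ∑ a, l a • π a (w a) = 0 := by
      intro l w
      simp only [H, AddMonoidHom.mem_ker]
      rw [AddMonoidHom.finsetSum_apply]
      rfl
    have h1 : Dep ⊆ (univ.erase (0 : Fin N → ZMod 2)).biUnion fun l => univ.filter fun w => w ∈ H l := by
      intro w hw
      rw [hDep, mem_filter] at hw
      have hw := hw.2
      rw [Fintype.not_linearIndependent_iff] at hw
      obtain ⟨l, hl, i, hi⟩ := hw
      rw [mem_biUnion]
      refine ⟨l, ?_, ?_⟩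
      · rw [mem_erase]
        exact ⟨fun h => hi (by rw [h]; rfl), mem_univ _⟩
      · rw [mem_filter]
        exact ⟨mem_univ _, (hH l w).2 hl⟩
    have h2 : (Dep.card : ℝ) ≤ ∑ l ∈ univ.erase (0 : Fin N → ZMod 2),
        ((univ.filter fun w => w ∈ H l).card : ℝ) := by
      have := (Finset.card_le_card h1).trans Finset.card_biUnion_le
      exact_mod_cast this
    refine h2.trans ?_
    refine (Finset.sum_le_card_nsmul _ _ (κ * Q) ?_).trans ?_
    · intro l hl
      rw [mem_erase] at hl
      obtain ⟨a0, ha0⟩ := Function.ne_iff.1 hl.1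
      have hl1 : l a0 = 1 := (two_cases _).resolve_left ha0
      refine small a0 (H l) κ ?_ _ (fun w hw => (mem_filter.1 hw).2)
      intro s hs
      refine le_trans ?_ (hκ a0)
      have : s ⊆ univ.filter fun v : V a0 => π a0 v = 0 := by
        intro x hx
        rw [mem_filter]
        refine ⟨mem_univ _, ?_⟩
        have h5 := (hH _ _).1 (hs x hx)
        rw [Finset.sum_eq_single a0] at h5
        · rw [Pi.single_eq_same, hl1, one_smul] at h5
          exact h5
        · intro b _ hb
          rw [Pi.single_eq_of_ne hb, map_zero, smul_zero]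
        · intro h
          exact absurd (mem_univ _) h
      exact_mod_cast Finset.card_le_card this
    · rw [nsmul_eq_mul]
      have : (univ.erase (0 : Fin N → ZMod 2)).card ≤ 2 ^ N := by
        refine (Finset.card_le_card (Finset.erase_subset _ _)).trans ?_
        simp
      have h' : ((univ.erase (0 : Fin N → ZMod 2)).card : ℝ) ≤ 2 ^ N := by exact_mod_cast this
      have : 0 ≤ κ * Q := by positivity
      gcongr
  have a1 : (X.card : ℝ) ≤ Iso.card := by exact_mod_cast hsub1
  have a2 : (Iso.card : ℝ) ≤ X.card + Dep.card := by exact_mod_cast hsub2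
  have h2p : (0 : ℝ) < 2 ^ (N.choose 2) := by positivity
  rw [abs_le] at hiso ⊢
  obtain ⟨i1, i2⟩ := hiso
  constructor
  · have : (Iso.card : ℝ) * 2 ^ (N.choose 2) ≤ (X.card + 2 ^ N * (κ * Q)) * 2 ^ (N.choose 2) := by
      have : (Iso.card : ℝ) ≤ X.card + 2 ^ N * (κ * Q) := by linarith
      gcongr
    nlinarith
  · have : (X.card : ℝ) * 2 ^ (N.choose 2) ≤ Iso.card * 2 ^ (N.choose 2) := by gcongr
    have : 0 ≤ 2 ^ (N.choose 2) * (2 ^ N * κ * Q) := by positivity
    nlinarith


end Pool.Agent.H735X

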