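import Pool.Agent.H735X.Stm

/-! Project XJ: the assembly of the joint linear algebra, the abstract part. -/

set_option autoImplicit false

open scoped Classical

namespace Pool.Agent.H735X

open Finset
open Pool.Agent.H757_X15.DD
open Pool.Agent.H757_X15.DD.LA4

namespace JAS

/-- the number of the independent tuples in a space of dimension `r` -/
noncomputable def Tt (r j : ℕ) : ℝ := ∏ i ∈ range j, ((2 : ℝ) ^ r - 2 ^ i)

lemma Tt_zero (r : ℕ) : Tt r 0 = 1 := by simp [Tt]

lemma Tt_nonneg (r j : ℕ) : 0 ≤ Tt r j := by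
  unfold Tt
  rcases le_or_gt j r with h | h
  · refine prod_nonneg fun i hi => ?_
    rw [mem_range] at hi
    have : (2 : ℝ) ^ i ≤ 2 ^ r := pow_le_pow_right₀ (by norm_num) (by omega)
    linarith
  · rw [prod_eq_zero (mem_range.2 h) (sub_self _)]

lemma Tt_le (r j : ℕ) : Tt r j ≤ 2 ^ (r * j) := by
  rcases le_or_gt j r with h | h
  · unfold Tt
    rw [pow_mul]
    calc ∏ i ∈ range j, ((2 : ℝ) ^ r - 2 ^ i) ≤ ∏ _i ∈ range j, (2 : ℝ) ^ r := by
          refine prod_le_prod (fun i hi => ?_) fun i hi => ?_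
          · rw [mem_range] at hi
            have : (2 : ℝ) ^ i ≤ 2 ^ r := pow_le_pow_right₀ (by norm_num) (by omega)
            linarith
          · have : (0 : ℝ) < 2 ^ i := by positivity
            linarith
      _ = (2 ^ r) ^ j := by simp
  · have : Tt r j = 0 := by
      unfold Tt
      rw [prod_eq_zero (mem_range.2 h) (sub_self _)]
    rw [this]
    positivity

lemma tele {ι : Type} [DecidableEq ι] (s : Finset ι) (a b e B : ι → ℝ)
    (h1 : ∀ i ∈ s, |a i - b i| ≤ e i) (h2 : ∀ i ∈ s, |a i| ≤ B i) (h3 : ∀ i ∈ s, |b i| ≤ B i) :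
    |∏ i ∈ s, a i - ∏ i ∈ s, b i| ≤ ∑ i ∈ s, ∏ l ∈ s, (if l = i then e l else B l) := by
  induction s using Finset.induction_on with
  | empty => simp
  | insert x s hx ih =>
    have ih' := ih (fun i hi => h1 i (mem_insert_of_mem hi)) (fun i hi => h2 i (mem_insert_of_mem hi))
      (fun i hi => h3 i (mem_insert_of_mem hi))
    rw [prod_insert hx, prod_insert hx, sum_insert hx]
    have e1 : a x * ∏ i ∈ s, a i - b x * ∏ i ∈ s, b i =
        (a x - b x) * ∏ i ∈ s, a i + b x * (∏ i ∈ s, a i - ∏ i ∈ s, b i) := by ring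
    have hB : ∀ i ∈ s, 0 ≤ B i := fun i hi => (abs_nonneg _).trans (h2 i (mem_insert_of_mem hi))
    have hex : 0 ≤ e x := (abs_nonneg _).trans (h1 x (mem_insert_self _ _))
    have hBx : 0 ≤ B x := (abs_nonneg _).trans (h2 x (mem_insert_self _ _))
    rw [e1]
    refine (abs_add_le _ _).trans (add_le_add ?_ ?_)
    · rw [abs_mul, prod_insert hx, if_pos rfl]
      have e2 : ∏ l ∈ s, (if l = x then e l else B l) = ∏ l ∈ s, B l := by
        refine prod_congr rfl fun l hl => ?_
        rw [if_neg]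
        rintro rfl
        exact hx hl
      rw [e2]
      refine mul_le_mul (h1 x (mem_insert_self _ _)) ?_ (abs_nonneg _) hex
      rw [abs_prod]
      exact prod_le_prod (fun i _ => abs_nonneg _) fun i hi => h2 i (mem_insert_of_mem hi)
    · rw [abs_mul]
      have e3 : ∑ i ∈ s, ∏ l ∈ insert x s, (if l = i then e l else B l) =
          B x * ∑ i ∈ s, ∏ l ∈ s, (if l = i then e l else B l) := by
        rw [mul_sum]
        refine sum_congr rfl fun i hi => ?_
        rw [prod_insert hx, if_neg]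
        rintro rfl
        exact hx hi
      rw [e3]
      exact mul_le_mul (h3 x (mem_insert_self _ _)) ih' (abs_nonneg _) hBx

/-- the vectors of lengths below `m` -/
def Av (M m : ℕ) : Finset (Fin M → ℕ) := Fintype.piFinset fun _ => range m

/-- the vectors of lengths at most `m` with the entry `i` equal to `m` -/
def Tv (M m : ℕ) (i : Fin M) : Finset (Fin M → ℕ) :=
  Fintype.piFinset fun l => if l = i then {m} else range (m + 1)

lemma mem_Av {M m : ℕ} {j : Fin M → ℕ} : j ∈ Av M m ↔ ∀ i, j i < m := by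
  simp [Av]

lemma mem_Tv {M m : ℕ} {i : Fin M} {j : Fin M → ℕ} (h : j ∈ Tv M m i) : ∀ l, j l ≤ m := by
  intro l
  unfold Tv at h
  rw [Fintype.mem_piFinset] at h
  have h1 := h l
  split_ifs at h1 with h2
  · exact (mem_singleton.1 h1).le
  · have := mem_range.1 h1
    omega

/-- pointwise inclusion-exclusion for several systems -/
lemma point (hB : S_BON) (M m : ℕ) (hm : 1 ≤ m) (r : Fin M → ℕ) :
    |(if ∀ i, r i = 0 then (1 : ℝ) else 0) -
      ∑ j ∈ Av M m, (∏ i, (-1 : ℝ) ^ (j i) / PP (j i)) * ∏ i, Tt (r i) (j i)| ≤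
    ∑ i, ∑ j ∈ Tv M m i, (∏ l, 1 / PP (j l)) * ∏ l, Tt (r l) (j l) := by
  have hP0 : ∀ j, 0 < PP j := fun j => lt_of_lt_of_le one_pos (one_le_PP j)
  set a : Fin M → ℝ := fun i => if r i = 0 then 1 else 0 with ha
  set b : Fin M → ℝ := fun i => ∑ j ∈ range m, (-1 : ℝ) ^ j / PP j * Tt (r i) j with hb
  set B : Fin M → ℝ := fun i => ∑ j ∈ range (m + 1), 1 / PP j * Tt (r i) j with hBd
  set e : Fin M → ℝ := fun i => 1 / PP m * Tt (r i) m with he
  have h1 : (if ∀ i, r i = 0 then (1 : ℝ) else 0) = ∏ i, a i := by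
    rw [ha]
    by_cases h : ∀ i, r i = 0
    · rw [if_pos h]
      symm
      exact prod_eq_one fun i _ => by simp [h i]
    · rw [if_neg h]
      push Not at h
      obtain ⟨i, hi⟩ := h
      symm
      exact prod_eq_zero (mem_univ i) (by simp [hi])
  have h2 : ∑ j ∈ Av M m, (∏ i, (-1 : ℝ) ^ (j i) / PP (j i)) * ∏ i, Tt (r i) (j i) = ∏ i, b i := by
    rw [hb, prod_univ_sum]
    refine sum_congr rfl fun j _ => ?_
    rw [← prod_mul_distrib]
  have h3 : ∀ i, ∑ j ∈ Tv M m i, (∏ l, 1 / PP (j l)) * ∏ l, Tt (r l) (j l) =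
      ∏ l, (if l = i then e l else B l) := by
    intro i
    have e1 : ∀ l, (if l = i then e l else B l) =
        ∑ j ∈ (if l = i then {m} else range (m + 1)), 1 / PP j * Tt (r l) j := by
      intro l
      split_ifs with h
      · rw [sum_singleton]
      · rfl
    simp only [e1]
    rw [prod_univ_sum]
    refine sum_congr rfl fun j _ => ?_
    rw [← prod_mul_distrib]
  rw [h1, h2]
  simp only [h3]
  have hnn : ∀ i j, 0 ≤ 1 / PP j * Tt (r i) j := fun i j =>
    mul_nonneg (div_nonneg zero_le_one (hP0 j).le) (Tt_nonneg _ _)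
  refine tele univ a b e B (fun i _ => ?_) (fun i _ => ?_) (fun i _ => ?_)
  · have := hB.1 (r i) m
    rw [ha, hb, he]
    simp only
    have e1 : ∑ j ∈ range m, (-1 : ℝ) ^ j / PP j * Tt (r i) j =
        ∑ j ∈ range m, (-1 : ℝ) ^ j * (∏ l ∈ range j, ((2 : ℝ) ^ (r i) - 2 ^ l)) / PP j := by
      refine sum_congr rfl fun j _ => ?_
      unfold Tt
      ring
    have e2 : 1 / PP m * Tt (r i) m = (∏ l ∈ range m, ((2 : ℝ) ^ (r i) - 2 ^ l)) / PP m := by
      unfold Tt
      ring
    rw [e1, e2]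
    exact this
  · have e1 : (1 : ℝ) ≤ B i := by
      rw [hBd]
      have h0 : 1 / PP 0 * Tt (r i) 0 = (1 : ℝ) := by
        rw [Tt_zero]
        simp [PP]
      exact h0.symm.le.trans (single_le_sum (f := fun j => 1 / PP j * Tt (r i) j)
        (fun j _ => hnn i j) (show (0 : ℕ) ∈ range (m + 1) from mem_range.2 (by omega)))
    refine le_trans ?_ e1
    rw [ha]
    simp only
    split_ifs <;> simp
  · rw [hb, hBd]
    simp only
    refine (abs_sum_le_sum_abs _ _).trans ?_
    rw [sum_range_succ]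
    have e1 : ∀ j, |(-1 : ℝ) ^ j / PP j * Tt (r i) j| = 1 / PP j * Tt (r i) j := by
      intro j
      rw [abs_mul, abs_div, abs_pow, abs_neg, abs_one, one_pow, abs_of_pos (hP0 j),
        abs_of_nonneg (Tt_nonneg _ _)]
    simp only [e1]
    have := hnn i m
    linarith

/-- the parameters -/
lemma params (h1 : S_LA1) (M : ℕ) (ε : ℝ) (hε : 0 < ε) : ∃ m : ℕ, 1 ≤ m ∧
    |∑ j ∈ Av M m, ∏ i, (-1 : ℝ) ^ (j i) / PP (j i) - c1 ^ M| ≤ ε ∧
    ∑ i, ∑ j ∈ Tv M m i, ∏ l, 1 / PP (j l) ≤ ε := by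
  obtain ⟨-, hsum, hb, -, -⟩ := h1
  have hP0 : ∀ j, 0 < PP j := fun j => lt_of_lt_of_le one_pos (one_le_PP j)
  have hb1 : ∀ j : ℕ, 1 / PP j ≤ 4 / 2 ^ j := by
    intro j
    refine le_trans ?_ (hb j)
    apply div_le_div_of_nonneg_right _ (hP0 j).le
    exact one_le_pow₀ (by norm_num)
  have hA : ∀ m, ∑ j ∈ Av M m, ∏ i, (-1 : ℝ) ^ (j i) / PP (j i) =
      (∑ j ∈ range m, (-1 : ℝ) ^ j / PP j) ^ M := by
    intro m
    have := prod_univ_sum (fun _ : Fin M => range m) (fun _ j => (-1 : ℝ) ^ j / PP j)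
    rw [Av, ← this]
    simp
  have hT : ∀ m, ∑ i, ∑ j ∈ Tv M m i, ∏ l, 1 / PP (j l) ≤ M * (1 / PP m * 8 ^ M) := by
    intro m
    have e8 : ∑ j ∈ range (m + 1), 1 / PP j ≤ 8 := by
      refine (sum_le_sum fun j _ => hb1 j).trans ?_
      rw [range_eq_Ico, geo 0 (m + 1) (by omega)]
      have : (0 : ℝ) < 8 / 2 ^ (m + 1) := by positivity
      norm_num
      linarith
    have e0 : (0 : ℝ) ≤ ∑ j ∈ range (m + 1), 1 / PP j :=
      sum_nonneg fun j _ => div_nonneg zero_le_one (hP0 j).le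
    have e1 : ∀ i : Fin M, ∑ j ∈ Tv M m i, ∏ l, 1 / PP (j l) ≤ 1 / PP m * 8 ^ M := by
      intro i
      have := prod_univ_sum (fun l : Fin M => if l = i then {m} else range (m + 1))
        (fun _ j => 1 / PP j)
      rw [Tv, ← this]
      have e2 : ∀ l : Fin M, ∑ j ∈ (if l = i then {m} else range (m + 1)), 1 / PP j ≤
          (if l = i then 1 / PP m else 1) * 8 := by
        intro l
        split_ifs with h
        · rw [sum_singleton]
          have := (div_nonneg zero_le_one (hP0 m).le : (0 : ℝ) ≤ 1 / PP m)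
          linarith
        · rw [one_mul]
          exact e8
      have e3 : ∏ l : Fin M, ∑ j ∈ (if l = i then {m} else range (m + 1)), 1 / PP j ≤
          ∏ l : Fin M, ((if l = i then 1 / PP m else 1) * 8) := by
        refine prod_le_prod (fun l _ => ?_) fun l _ => e2 l
        exact sum_nonneg fun j _ => div_nonneg zero_le_one (hP0 j).le
      refine e3.trans (le_of_eq ?_)
      rw [prod_mul_distrib, prod_ite_eq']
      simp
    refine (sum_le_sum fun i _ => e1 i).trans (le_of_eq ?_)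
    simp
  have l1 : Filter.Tendsto (fun m : ℕ => (∑ j ∈ range m, (-1 : ℝ) ^ j / PP j) ^ M) Filter.atTop
      (nhds (c1 ^ M)) := (hsum.tendsto_sum_nat).pow M
  have l2 : Filter.Tendsto (fun m : ℕ => (M : ℝ) * (4 * (1 / 2 : ℝ) ^ m * 8 ^ M)) Filter.atTop
      (nhds 0) := by
    have := (((tendsto_pow_atTop_nhds_zero_of_lt_one (by norm_num : (0 : ℝ) ≤ 1 / 2)
      (by norm_num)).const_mul (4 : ℝ)).mul_const ((8 : ℝ) ^ M)).const_mul (M : ℝ)
    simpa using this
  have ev1 : ∀ᶠ m : ℕ in Filter.atTop,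
      |(∑ j ∈ range m, (-1 : ℝ) ^ j / PP j) ^ M - c1 ^ M| < ε := by
    have := Metric.tendsto_atTop.1 l1 ε hε
    obtain ⟨m0, hm0⟩ := this
    filter_upwards [Filter.eventually_ge_atTop m0] with m hm
    have := hm0 m hm
    rwa [Real.dist_eq] at this
  have ev2 : ∀ᶠ m : ℕ in Filter.atTop, (M : ℝ) * (4 * (1 / 2 : ℝ) ^ m * 8 ^ M) < ε :=
    l2.eventually_lt_const hε
  obtain ⟨m, hm1, hm2, hm3⟩ := (ev1.and (ev2.and (Filter.eventually_ge_atTop 1))).exists
  refine ⟨m, hm3, ?_, ?_⟩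
  · rw [hA]
    exact hm1.le
  · refine (hT m).trans (le_trans ?_ hm2.le)
    refine mul_le_mul_of_nonneg_left ?_ (Nat.cast_nonneg _)
    refine mul_le_mul_of_nonneg_right ?_ (by positivity)
    refine (hb1 m).trans (le_of_eq ?_)
    rw [one_div, inv_pow]
    rfl

end JAS

end Pool.Agent.H735X
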