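import Pool.Agent.H757_X15.DN.LA4
import Pool.Agent.Y703.CQ.Asy

/-!
# Project XJ: the joint law for finitely many quadratic twists of `X_0(15)`

Continuation of project X15-D (`Pool.Agent.H757_X15.StmD`). `V_1, ..., V_M` are different finite sets of
primes (masks), `D` runs over the squarefree numbers `≡ 1` or `49` modulo `60`. The proportion of the `D`
for which all the sets `D.primeFactors ∆ V_i` are good tends to `c1 ^ M`, `c1 = ∏_{i ≥ 1} (1 - 2^{-i})`.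
Statements of the parts.
-/

set_option autoImplicit false
set_option linter.unusedVariables false

open scoped Classical

namespace Pool.Agent.H735X

open Finset
open Pool.Agent.Y703.CX (sm la jj XX eL zz kk S_SIE)
open Pool.Agent.Y703.CQ (nr sg prs HB ext S_EQ Sml)
open Pool.Agent.H757_X15.DD
open Pool.Agent.H757_X15.DD.LA4

/-! ### linear algebra -/

/-- a family of `M` block systems with the same large part -/
structure Fam (M : ℕ) (J : Type) where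
  U : Fin M → Type
  fin : ∀ i, Fintype (U i)
  A : ∀ i, U i → U i → ZMod 2
  C : ∀ i, J → U i → ZMod 2
  f : ∀ i, U i → ZMod 2
  b : ∀ i, U i → ZMod 2
  g : J → ZMod 2
  h : J → ZMod 2

attribute [instance] Fam.fin

section fam

variable {M : ℕ} {J : Type} [Fintype J] [LinearOrder J]

/-- the kernel of the system `i` for the completion `α` -/
noncomputable def Fam.K (F : Fam M J) (i : Fin M) (α : prs (univ : Finset J) → ZMod 2) :
    Submodule (ZMod 2) (F.U i ⊕ J → ZMod 2) :=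
  KK (F.A i) (F.C i) (F.f i) (F.b i) F.g F.h (Pool.Agent.H757_X15.DD.rec F.g α)

/-- the space of the deterministic equations of the system `i` -/
noncomputable def Fam.V (F : Fam M J) (i : Fin M) : Submodule (ZMod 2) (F.U i ⊕ J → ZMod 2) :=
  V0 (F.A i) (F.C i) (F.f i) (F.b i) F.g F.h

/-- the deterministic part of the equations of the large primes -/
noncomputable def Fam.L (F : Fam M J) (i : Fin M) (w : F.U i ⊕ J → ZMod 2) (k : J) : ZMod 2 :=
  Lp (MM (F.A i) (F.C i) (F.f i) F.g (Pool.Agent.H757_X15.DD.rec F.g 0)) (Sum.elim (F.f i) F.g) w (Sum.inr k)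

/-- the form on pairs of vectors of the systems `i` and `j` -/
noncomputable def Fam.crs (F : Fam M J) (i j : Fin M) (w : F.U i ⊕ J → ZMod 2)
    (w' : F.U j ⊕ J → ZMod 2) : ZMod 2 :=
  ∑ k, (w' (Sum.inr k) * F.L i w k + w (Sum.inr k) * F.L j w' k)

/-- the difference of the labels of the systems `i` and `j` -/
def Fam.d (F : Fam M J) (i j : Fin M) (k : J) : ZMod 2 := ∑ u, F.C i k u + ∑ u, F.C j k u

/-- the hypotheses; `m` bounds the small parts, `R` the numbers of separating labels -/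
structure Fam.Ok (F : Fam M J) (m R : ℕ) : Prop where
  sym : ∀ i u v, u ≠ v → F.A i u v = F.A i v u + F.f i u * F.f i v
  par : ∀ i, ∑ u, F.f i u + ∑ l, F.g l = 0
  nd : ∀ i, Nn (F.C i) F.g F.h
  card : ∀ i, Fintype.card (F.U i) ≤ m
  sep : ∀ i j, i ≠ j → R < (univ.filter fun k => F.d i j k ≠ 0).card
  rad : ∀ i j, R < (univ.filter fun k => F.g k + F.d i j k ≠ 0).card

/-- the number of the jointly independent tuples in the kernels; the vector number `a` belongs to the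
system `s a` -/
noncomputable def Fam.XN (F : Fam M J) {N : ℕ} (s : Fin N → Fin M)
    (α : prs (univ : Finset J) → ZMod 2) : ℕ :=
  (univ.filter fun w : (a : Fin N) → (F.U (s a) ⊕ J → ZMod 2) =>
    LinearIndependent (ZMod 2) (fun a => pr (F.U (s a)) J (w a)) ∧ ∀ a, w a ∈ F.K (s a) α).card

/-- the kernels are dependent modulo constants on the large primes -/
def Fam.Bad (F : Fam M J) (α : prs (univ : Finset J) → ZMod 2) : Prop :=
  ∃ v : (i : Fin M) → (F.U i ⊕ J → ZMod 2), (∀ i, v i ∈ F.K i α) ∧ (∃ i, v i ≠ 0) ∧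
    ∑ i, pr (F.U i) J (v i) = 0

end fam

/-- JLA: the joint law for random completions. -/
def S_JLA : Prop := ∀ (M : ℕ) (ε : ℝ), 0 < ε → ∃ R : ℕ, ∀ (J : Type) [Fintype J] [LinearOrder J]
  (F : Fam M J) (m : ℕ), F.Ok m (R * (m + 1)) →
  |((univ.filter fun α : prs (univ : Finset J) → ZMod 2 => ∀ i,
      GdA (F.A i) (F.C i) (F.f i) (F.b i) F.g F.h (Pool.Agent.H757_X15.DD.rec F.g α)).card : ℝ) /
    2 ^ (prs (univ : Finset J)).card - c1 ^ M| ≤ ε

/-- JLA-1: the number of the isotropic independent tuples. -/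
def S_ISO : Prop := ∀ (N : ℕ) (V : Fin N → Type) [∀ a, AddCommGroup (V a)]
  [∀ a, Module (ZMod 2) (V a)] [∀ a, Fintype (V a)] (W : Type) [AddCommGroup W]
  [Module (ZMod 2) W] (π : ∀ a, V a →ₗ[ZMod 2] W)
  (ω : ∀ a b, V a →ₗ[ZMod 2] V b →ₗ[ZMod 2] ZMod 2) (ρ κ : ℝ), 0 ≤ ρ → 0 ≤ κ →
  (∀ a b, ((univ.filter fun v : V a => ∀ v', ω a b v v' = 0).card : ℝ) ≤ ρ * Fintype.card (V a)) →
  (∀ a, ((univ.filter fun v : V a => π a v = 0).card : ℝ) ≤ κ * Fintype.card (V a)) →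
  |((univ.filter fun w : (a : Fin N) → V a => LinearIndependent (ZMod 2) (fun a => π a (w a)) ∧
      ∀ a b, a < b → ω a b (w a) (w b) = 0).card : ℝ) * 2 ^ (N.choose 2) -
    ∏ a, (Fintype.card (V a) : ℝ)| ≤
  2 ^ (N.choose 2) * (ρ + 2 ^ N * κ) * ∏ a, (Fintype.card (V a) : ℝ)

/-- JLA-2: the number of the completions with a given jointly independent tuple in the kernels. -/
def S_CNTJ : Prop := ∀ (M : ℕ) (J : Type) [Fintype J] [LinearOrder J] (F : Fam M J) (m R : ℕ),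
  F.Ok m R → ∀ (N : ℕ) (s : Fin N → Fin M) (w : (a : Fin N) → (F.U (s a) ⊕ J → ZMod 2)),
  LinearIndependent (ZMod 2) (fun a => pr (F.U (s a)) J (w a)) →
  ((univ.filter fun α : prs (univ : Finset J) → ZMod 2 => ∀ a, w a ∈ F.K (s a) α).card : ℝ) *
    2 ^ (Fintype.card J * N) =
  if (∀ a, w a ∈ F.V (s a)) ∧ (∀ a b, a < b → F.crs (s a) (s b) (w a) (w b) = 0)
    then (2 : ℝ) ^ ((prs (univ : Finset J)).card + N + N.choose 2) else 0

/-- JLA-3: the radicals of the forms. -/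
def S_RADJ : Prop := ∀ (M : ℕ) (J : Type) [Fintype J] [LinearOrder J] (F : Fam M J) (m R : ℕ),
  F.Ok m R → ∀ i j, ((univ.filter fun v : F.V i => ∀ v' : F.V j,
    F.crs i j (v : F.U i ⊕ J → ZMod 2) (v' : F.U j ⊕ J → ZMod 2) = 0).card : ℝ) * 2 ^ R ≤
  2 ^ (2 * m + 2) * Fintype.card (F.V i)

/-- JLA-4: the mixed moments. -/
def S_MOM : Prop := ∀ (M : ℕ) (J : Type) [Fintype J] [LinearOrder J] (F : Fam M J) (m R : ℕ),
  F.Ok m R → ∀ (N : ℕ) (s : Fin N → Fin M),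
  |(∑ α : prs (univ : Finset J) → ZMod 2, (F.XN s α : ℝ)) / 2 ^ (prs (univ : Finset J)).card - 1| ≤
    2 ^ ((N + 1) ^ 2) * 2 ^ (2 * m + 3) / 2 ^ R

/-- JLA-5: the dependent kernels. -/
def S_DEPB : Prop := ∀ (M : ℕ) (J : Type) [Fintype J] [LinearOrder J] (F : Fam M J) (m R : ℕ),
  F.Ok m R → ((univ.filter fun α : prs (univ : Finset J) → ZMod 2 => F.Bad α).card : ℝ) * 2 ^ R ≤
    2 ^ (prs (univ : Finset J)).card * 2 ^ (M * (m + M + 3))

/-- JLA-6: products of the numbers of tuples. -/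
def S_SPL : Prop := ∀ (M : ℕ) (J : Type) [Fintype J] [LinearOrder J] (F : Fam M J) (m R : ℕ),
  F.Ok m R → ∀ j : Fin M → ℕ, ∃ s : Fin (∑ i, j i) → Fin M, ∀ α : prs (univ : Finset J) → ZMod 2,
    F.XN s α ≤ ∏ i, TT (F.K i α) (j i) ∧ (¬ F.Bad α → F.XN s α = ∏ i, TT (F.K i α) (j i))

/-- JLA-7: the moments of one system. -/
def S_SNG : Prop := ∀ (M : ℕ) (J : Type) [Fintype J] [LinearOrder J] (F : Fam M J) (m R : ℕ),
  F.Ok m R → ∀ (i : Fin M) (j : ℕ),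
  ∑ α : prs (univ : Finset J) → ZMod 2, (TT (F.K i α) j : ℝ) ≤
    2 ^ (prs (univ : Finset J)).card * 2 ^ (j.choose 2)

/-- JLA-8: the inequality of Bonferroni; `2 ^ r` is the number of the elements of the kernel. -/
def S_BON : Prop := (∀ r m : ℕ, |(if r = 0 then (1 : ℝ) else 0) - ∑ j ∈ range m, (-1 : ℝ) ^ j *
      (∏ i ∈ range j, ((2 : ℝ) ^ r - 2 ^ i)) / PP j| ≤
    (∏ i ∈ range m, ((2 : ℝ) ^ r - 2 ^ i)) / PP m) ∧
  ∀ r s : ℕ, (2 : ℝ) ^ (r * s) ≤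
    ∑ j ∈ range (s + 1), 2 ^ (s * j) * ∏ i ∈ range j, ((2 : ℝ) ^ r - 2 ^ i)

/-- JLA-9: the assembly. -/
def S_JAS : Prop := S_MOM → S_DEPB → S_SPL → S_SNG → S_BON → S_JLA

/-! ### number theory -/

/-- the masks -/
def OkV (V : Finset ℕ) : Prop := (∀ u ∈ V, u.Prime ∧ 7 ≤ u) ∧ Fm (∏ u ∈ V, u)

/-- all the masks together -/
noncomputable def Wa {M : ℕ} (V : Fin M → Finset ℕ) : Finset ℕ := univ.biUnion V

/-- jointly good -/
def GdJ {M : ℕ} (V : Fin M → Finset ℕ) (S : Finset ℕ) : Prop := ∀ i, Gd (symmDiff S (V i))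

/-- the labels of the large primes `S₁` are not degenerate and separate the masks -/
def NdJ {M : ℕ} (R : ℕ) (V : Fin M → Finset ℕ) (S₀ S₁ : Finset ℕ) : Prop :=
  (∀ i, Nd (symmDiff S₀ (V i)) S₁) ∧
  (∀ i j, i ≠ j → R * ((S₀ ∪ Wa V).card + 1) <
    (S₁.filter fun p => ∑ u ∈ symmDiff (V i) (V j), nr p u ≠ 0).card) ∧
  ∀ i j, R * ((S₀ ∪ Wa V).card + 1) <
    (S₁.filter fun p => aa p + ∑ u ∈ symmDiff (V i) (V j), nr p u ≠ 0).card

/-- FINAL: the proportion of the jointly good sets -/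
def S_JDQ : Prop := ∀ (M : ℕ) (V : Fin M → Finset ℕ), (∀ i, OkV (V i)) → Function.Injective V →
  Filter.Tendsto (fun X : ℕ => (((SS X).filter (GdJ V)).card : ℝ) / ((SS X).card : ℝ))
    Filter.atTop (nhds (c1 ^ M))

/-- JBOX: the count in a box. -/
def S_JBOX : Prop := S_EQ → S_JLA → ∀ (M : ℕ) (ε : ℝ), 0 < ε → ∃ R : ℕ,
  ∀ (V : Fin M → Finset ℕ) (ι : Type) [Fintype ι] [LinearOrder ι]
  (C : ι → Finset ℕ) (X : ι → ℕ) (κ : ℝ) (S₀ : Finset ℕ), 0 ≤ κ →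
  (∀ i, (C i).card ≤ X i) → HB univ C X κ → (∀ u ∈ S₀ ∪ Wa V, u.Prime ∧ u ≠ 2) →
  (∀ i, ∀ p ∈ C i, p.Prime ∧ p ≠ 2 ∧ p ∉ S₀ ∪ Wa V) →
  (∀ i, ∀ p ∈ C i, ∀ q ∈ C i, p % 60 = q % 60) →
  (∀ i l, i ≠ l → Disjoint (C i) (C l)) →
  (∀ p ∈ Fintype.piFinset C, ∀ i, Cl (symmDiff (S₀ ∪ univ.image p) (V i))) →
  |(((Fintype.piFinset C).filter fun p => NdJ R V S₀ (univ.image p) ∧
        GdJ V (S₀ ∪ univ.image p)).card : ℝ) -
      c1 ^ M * (((Fintype.piFinset C).filter fun p => NdJ R V S₀ (univ.image p)).card : ℝ)| ≤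
    ε * (((Fintype.piFinset C).filter fun p => NdJ R V S₀ (univ.image p)).card : ℝ) +
    2 ^ ((2 * (S₀ ∪ Wa V).card + 1) * Fintype.card ι + (prs (univ : Finset ι)).card) *
      (κ * ∏ j, (X j : ℝ))

/-- the regular sets -/
noncomputable def R1 (X z H k : ℕ) : Finset (Finset ℕ) :=
  (SS X).filter fun S => Set.InjOn (jj H) (la z S : Set ℕ) ∧ S.card ≤ k ∧
    (∏ p ∈ sm z S, p) * ∏ p ∈ la z S, XX H (jj H p) ≤ X

/-- JKEY: the sum over the boxes. -/
def S_JKEY : Prop := S_BIL → S_EQ → S_JLA → S_JBOX → ∀ (M : ℕ) (ε : ℝ), 0 < ε →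
  ∃ (R : ℕ) (C : ℝ), 1 ≤ C ∧ ∀ (V : Fin M → Finset ℕ) (X z H k N : ℕ) (κ : ℝ),
  (∀ i, OkV (V i)) → (∀ u ∈ Wa V, u ≤ z) → (Wa V).card ≤ k → 1 ≤ X → 1 ≤ H → 1 ≤ z →
  0 ≤ κ → C ≤ κ ^ 12 * z → (H : ℝ) * Real.log X < N →
  |(((R1 X z H k).filter fun S => NdJ R V (sm z S) (la z S) ∧ GdJ V S).card : ℝ) -
      c1 ^ M * (((R1 X z H k).filter fun S => NdJ R V (sm z S) (la z S)).card : ℝ)| ≤
    ε * ((R1 X z H k).card : ℝ) +
    (60 * N + 60 : ℝ) ^ k * (3 ^ (6 * k ^ 2) * κ) * (X * (1 + Real.log X))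

/-- JBAD: few sets have degenerate labels with respect to the masked small primes. -/
def S_JBAD : Prop := S_BAD → S_SIE → S_HAL → CntP → ∀ V : Finset ℕ, OkV V →
  Sml 0 fun X => (((SS X).filter fun S =>
    ¬ Nd (symmDiff (sm (zz X) S) V) (la (zz X) S)).card : ℝ)

/-- JFEW: few sets have few large primes with a nontrivial label. -/
def S_JFEW : Prop := S_SIE → S_HAL → S_MER → ∀ (e : Finset ℕ) (t : ZMod 2) (R : ℕ),
  (e.Nonempty ∨ t ≠ 0) → (∀ u ∈ e, u.Prime ∧ 7 ≤ u) →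
  Sml 0 fun X => (((SS X).filter fun S => ((la (zz X) S).filter fun p =>
    t * aa p + ∑ u ∈ e, nr p u ≠ 0).card ≤ R * ((sm (zz X) S).card + R + 1)).card : ℝ)

/-- JASY: the final asymptotics. -/
def S_JASY : Prop := S_BIL → S_EQ → S_JLA → S_JBOX → S_JKEY → CntP → S_BAD → S_JBAD → S_JFEW →
  S_LOW → S_SIE → S_HAL → S_MER → S_JDQ

end Pool.Agent.H735X
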