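import Pool.Agent.H735X.Stm

/-! Project XJ: the masked sets stay in the class. -/

set_option autoImplicit false

open scoped Classical

namespace Pool.Agent.H735X

open Finset
open Pool.Agent.H757_X15.DD

theorem prod_sd (S V : Finset ℕ) :
    (∏ p ∈ symmDiff S V, p) * (∏ p ∈ S ∩ V, p) ^ 2 = (∏ p ∈ S, p) * ∏ p ∈ V, p := by
  have h1 : symmDiff S V = (S \ V) ∪ (V \ S) := rfl
  have hd : Disjoint (S \ V) (V \ S) := by
    rw [Finset.disjoint_left]
    intro x hx hx'
    exact (mem_sdiff.1 hx').2 (mem_sdiff.1 hx).1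
  rw [h1, prod_union hd]
  have h2 : (∏ p ∈ S \ V, p) * ∏ p ∈ S ∩ V, p = ∏ p ∈ S, p := by
    rw [← prod_union (disjoint_sdiff_inter S V), sdiff_union_inter]
  have h3 : (∏ p ∈ V \ S, p) * ∏ p ∈ S ∩ V, p = ∏ p ∈ V, p := by
    rw [inter_comm, ← prod_union (disjoint_sdiff_inter V S), sdiff_union_inter]
  rw [← h2, ← h3]
  ring

theorem fm_sq {a b c : ℕ} (ha : Fm a) (hb : Fm b) {d : ℕ} (h : c * d ^ 2 = a * b)
    (hd : Nat.Coprime d 60) : Fm c := by
  have h1 : (c * d ^ 2) % 60 = 1 ∨ (c * d ^ 2) % 60 = 49 := by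
    rw [h, Nat.mul_mod]
    rcases ha with ha | ha <;> rcases hb with hb | hb <;> rw [ha, hb] <;> norm_num
  have h2 : d ^ 2 % 60 = 1 ∨ d ^ 2 % 60 = 49 := by
    rw [Nat.pow_mod]
    have h3 : d % 60 < 60 := Nat.mod_lt _ (by norm_num)
    have h4 : Nat.Coprime (d % 60) 60 := by
      rw [Nat.Coprime, ← Nat.gcd_rec, Nat.gcd_comm]
      exact hd
    generalize d % 60 = r at h3 h4
    interval_cases r <;> first | (exfalso; revert h4; decide) | norm_num
  unfold Fm
  rw [Nat.mul_mod] at h1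
  have h5 : c % 60 < 60 := Nat.mod_lt _ (by norm_num)
  generalize c % 60 = r at h1 h5 ⊢
  rcases h2 with h2 | h2
  · rw [h2] at h1
    omega
  · rw [h2] at h1
    omega

/-- the masked sets are in the class -/
theorem cl_symm {S V : Finset ℕ} (hS : Cl S) (hV : OkV V) : Cl (symmDiff S V) := by
  refine ⟨fun p hp => ?_, ?_⟩
  · rcases Finset.mem_symmDiff.1 hp with h | h
    · exact hS.1 p h.1
    · have := hV.1 p h.1
      exact ⟨this.1, by omega⟩
  · refine fm_sq hS.2 hV.2 (prod_sd S V) ?_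
    refine Nat.Coprime.prod_left fun p hp => ?_
    have h1 := hV.1 p (mem_inter.1 hp).2
    rw [Nat.Prime.coprime_iff_not_dvd h1.1]
    intro h2
    have h3 : p ∈ Nat.primeFactors 60 := Nat.mem_primeFactors.2 ⟨h1.1, h2, by norm_num⟩
    have h4 : Nat.primeFactors 60 = {2, 3, 5} := by
      rw [show (60 : ℕ) = 2 ^ 2 * 3 * 5 by norm_num]
      decide +kernel
    rw [h4] at h3
    simp only [mem_insert, mem_singleton] at h3
    omega

end Pool.Agent.H735X
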